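import Pool.Agent.helper4.UP.Rec

/-!
# UP-Adv: the adversary lemma

PROOF.  rec_param (X trivial): a sequence x such that x n maximizes y ↦ V n x y (finite nonempty type; V n x y depends only on x l,
l < n).  Apply h to this x.
-/

set_option autoImplicit false

open Finset Filter Topology
open Equiv (Perm)
open scoped Pointwise

namespace Pool.Agent.helper4.UP

/-- A maximizer of a real function on a finite nonempty type. -/
noncomputable def Adv_max {α : Type*} [Finite α] [Nonempty α] (f : α → ℝ) : α :=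
  Classical.choose (Finite.exists_max f)

theorem Adv_max_spec {α : Type*} [Finite α] [Nonempty α] (f : α → ℝ) (y : α) :
    f y ≤ f (Adv_max f) :=
  Classical.choose_spec (Finite.exists_max f) y

theorem adv {T : ℕ → Type*} [∀ n, Finite (T n)] [∀ n, Nonempty (T n)] (U : Filter ℕ)
    (V : ∀ n : ℕ, (∀ l, T l) → T n → ℝ)
    (hV : ∀ n x x' y, (∀ l, l < n → x l = x' l) → V n x y = V n x' y)
    (h : ∀ x : ∀ l, T l, ∀ δ : ℝ, 0 < δ → ∀ᶠ n : ℕ in U, V n x (x n) ≤ δ * n) :
    ∃ x : ∀ l, T l, ∀ δ : ℝ, 0 < δ → ∀ᶠ n : ℕ in U, ∀ y, V n x y ≤ δ * n := by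
  obtain ⟨B, hB, -⟩ := rec_param (X := fun _ => Unit) (T := T)
    (fun n _ b => Adv_max (fun y => V n b y))
    (by
      intro n x x' b b' _ hb
      have e : (fun y => V n b y) = fun y => V n b' y := funext fun y => hV n b b' y hb
      exact congrArg Adv_max e)
  refine ⟨B (fun _ => ()), fun δ hδ => ?_⟩
  filter_upwards [h (B (fun _ => ())) δ hδ] with n hn y
  have h1 := hB (fun _ => ()) n
  have h2 : V n (B fun _ => ()) y ≤
      V n (B fun _ => ()) (B (fun _ => ()) n) := by
    have h3 := Adv_max_spec (fun y => V n (B fun _ => ()) y) y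
    rw [← h1] at h3
    exact h3
  exact h2.trans hn

end Pool.Agent.helper4.UP
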