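import Pool.Agent.helper4.UP.Defs

/-!
# UP-CDefs: lifts whose n-th coordinate depends on the coordinates up to n only
-/

set_option autoImplicit false

open Finset Filter Topology
open Equiv (Perm)
open scoped Pointwise

namespace Pool.Agent.helper4.UP

/-- `f n x` depends only on the coordinates `≤ n` of `x` -/
def Caus (f : ∀ n : ℕ, (∀ l : ℕ, Perm (Fin l)) → Perm (Fin n)) : Prop :=
  ∀ (n : ℕ) (x y : ∀ l : ℕ, Perm (Fin l)), (∀ l, l ≤ n → x l = y l) → f n x = f n y

/-- on the sequences in `S` the homomorphism is given by maps of this kind -/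
def CI (U : Filter ℕ) (φ : GU U →* GU U) (S : ∀ n : ℕ, Set (Perm (Fin n))) : Prop :=
  ∃ f : ∀ n : ℕ, (∀ l : ℕ, Perm (Fin l)) → Perm (Fin n), Caus f ∧
    ∀ σ : ∀ n : ℕ, Perm (Fin n), (∀ᶠ n in U, σ n ∈ S n) → φ (cl U σ) = cl U (fun n => f n σ)

end Pool.Agent.helper4.UP
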