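import Pool.Agent.helper4.UP.Defs

/-!
# UP-Clos: closure properties of the sets on which a homomorphism is internal

PROOF.  mul: for σ n ∈ S n * S' n choose a factorization σ n = a n * b n (a function of σ n, Classical.choose; 1 otherwise), then
φ (cl σ) = φ (cl a) φ (cl b), f'' n ρ = f n (a ρ) * f' n (b ρ) (cl σ = cl (a * b) as they agree eventually: cl_eq_iff').  conj: φ (cl g) =
cl g' for some g' (cl_surj), f'' n σ = g' n * f n ((g n)⁻¹ * σ * g n) * (g' n)⁻¹.  near: choose τ = t(σ) with D σ τ ≤ 2,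
cl σ = cl τ because 2 ≤ ε * n for large n (hU).  pow: induction, zero by φ 1 = 1.
-/

set_option autoImplicit false

open Finset Filter Topology
open Equiv (Perm)
open scoped Pointwise

namespace Pool.Agent.helper4.UP

variable {U : Filter ℕ} {φ : GU U →* GU U} {S S' : ∀ n : ℕ, Set (Perm (Fin n))}

theorem Clos_ev {σ τ : ∀ n : ℕ, Perm (Fin n)} (h : ∀ᶠ n in U, σ n = τ n) : cl U σ = cl U τ := by
  rw [cl_eq_iff']
  intro ε hε
  filter_upwards [h] with n hn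
  rw [hn, D_self]
  simp only [Nat.cast_zero]
  positivity

theorem Clos_one : cl U (fun _ => 1) = 1 := rfl

theorem Intl.mono (h : Intl U φ S) (h' : ∀ᶠ n in U, S' n ⊆ S n) : Intl U φ S' := by
  obtain ⟨f, hf⟩ := h
  refine ⟨f, fun σ hσ => hf σ ?_⟩
  filter_upwards [hσ, h'] with n h1 h2
  exact h2 h1

theorem Intl.mul (h : Intl U φ S) (h' : Intl U φ S') : Intl U φ (fun n => S n * S' n) := by
  classical
  obtain ⟨f, hf⟩ := h
  obtain ⟨f', hf'⟩ := h'
  have hch : ∀ (n : ℕ) (σ : Perm (Fin n)), ∃ a : Perm (Fin n), σ ∈ S n * S' n →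
      a ∈ S n ∧ a⁻¹ * σ ∈ S' n := by
    intro n σ
    by_cases hσ : σ ∈ S n * S' n
    · obtain ⟨x, hx, y, hy, hxy⟩ := Set.mem_mul.1 hσ
      refine ⟨x, fun _ => ⟨hx, ?_⟩⟩
      rw [← hxy, inv_mul_cancel_left]
      exact hy
    · exact ⟨1, fun h => absurd h hσ⟩
  choose a ha using hch
  refine ⟨fun n σ => f n (a n σ) * f' n ((a n σ)⁻¹ * σ), fun σ hσ => ?_⟩
  have h1 := hf (fun n => a n (σ n)) (by
    filter_upwards [hσ] with n hn
    exact (ha n (σ n) hn).1)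
  have h2 := hf' (fun n => (a n (σ n))⁻¹ * σ n) (by
    filter_upwards [hσ] with n hn
    exact (ha n (σ n) hn).2)
  have h3 : cl U σ = cl U (fun n => a n (σ n)) * cl U (fun n => (a n (σ n))⁻¹ * σ n) := by
    rw [← cl_mul]
    congr 1
    funext n
    rw [mul_inv_cancel_left]
  rw [h3, map_mul, h1, h2, ← cl_mul]

theorem Intl.inv (h : Intl U φ S) : Intl U φ (fun n => (S n)⁻¹) := by
  obtain ⟨f, hf⟩ := h
  refine ⟨fun n σ => (f n σ⁻¹)⁻¹, fun σ hσ => ?_⟩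
  have h1 := hf (fun n => (σ n)⁻¹) (by
    filter_upwards [hσ] with n hn
    exact Set.mem_inv.1 hn)
  rw [cl_inv, map_inv] at h1
  rw [cl_inv, ← h1, inv_inv]

theorem Intl.pow (h : Intl U φ S) (k : ℕ) : Intl U φ (fun n => S n ^ k) := by
  induction k with
  | zero =>
    refine ⟨fun _ _ => 1, fun σ hσ => ?_⟩
    have h1 : cl U σ = cl U (fun _ => 1) := by
      apply Clos_ev
      filter_upwards [hσ] with n hn
      rw [pow_zero] at hn
      exact Set.mem_one.1 hn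
    rw [h1, Clos_one, map_one]
  | succ k ih =>
    have h1 := ih.mul h
    refine h1.mono (Filter.Eventually.of_forall fun n => ?_)
    simp only [pow_succ]
    exact subset_rfl

theorem Intl.conj (h : Intl U φ S) (g : ∀ n : ℕ, Perm (Fin n)) :
    Intl U φ (fun n => {σ | (g n)⁻¹ * σ * g n ∈ S n}) := by
  obtain ⟨f, hf⟩ := h
  obtain ⟨g', hg'⟩ := cl_surj (φ (cl U g))
  refine ⟨fun n σ => g' n * f n ((g n)⁻¹ * σ * g n) * (g' n)⁻¹, fun σ hσ => ?_⟩
  have h1 := hf (fun n => (g n)⁻¹ * σ n * g n) (by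
    filter_upwards [hσ] with n hn
    exact hn)
  have h2 : cl U σ = cl U g * cl U (fun n => (g n)⁻¹ * σ n * g n) * (cl U g)⁻¹ := by
    rw [cl_mul, cl_mul, cl_inv]
    group
  rw [h2, map_mul, map_mul, map_inv, h1, ← hg']
  rw [cl_mul, cl_mul, cl_inv]

theorem Intl.near (hU : U ≤ atTop) (h : Intl U φ S)
    (h' : ∀ᶠ n in U, ∀ σ ∈ S' n, ∃ τ ∈ S n, D σ τ ≤ 2) : Intl U φ S' := by
  classical
  obtain ⟨f, hf⟩ := h
  have hch : ∀ (n : ℕ) (σ : Perm (Fin n)), ∃ τ : Perm (Fin n), (∃ τ ∈ S n, D σ τ ≤ 2) →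
      τ ∈ S n ∧ D σ τ ≤ 2 := by
    intro n σ
    by_cases hσ : ∃ τ ∈ S n, D σ τ ≤ 2
    · obtain ⟨τ, h1, h2⟩ := hσ
      exact ⟨τ, fun _ => ⟨h1, h2⟩⟩
    · exact ⟨1, fun h => absurd h hσ⟩
  choose t ht using hch
  refine ⟨fun n σ => f n (t n σ), fun σ hσ => ?_⟩
  have h0 : ∀ᶠ n in U, t n (σ n) ∈ S n ∧ D (σ n) (t n (σ n)) ≤ 2 := by
    filter_upwards [hσ, h'] with n h1 h2
    exact ht n (σ n) (h2 _ h1)
  have h1 := hf (fun n => t n (σ n)) (by
    filter_upwards [h0] with n hn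
    exact hn.1)
  rw [← h1]
  congr 1
  rw [cl_eq_iff']
  intro ε hε
  have h2 : ∀ᶠ n : ℕ in U, 2 / ε ≤ (n : ℝ) :=
    hU ((tendsto_natCast_atTop_atTop (R := ℝ)).eventually (eventually_ge_atTop (2 / ε)))
  filter_upwards [h0, h2] with n hn hn2
  rw [div_le_iff₀ hε] at hn2
  have h3 : (D (σ n) (t n (σ n)) : ℝ) ≤ 2 := by exact_mod_cast hn.2
  linarith

end Pool.Agent.helper4.UP
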