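import Pool.Agent.helper4.UP.SymU
import Pool.Agent.helper4.UP.Clos

/-!
# UP-Grow: internal on the permutations of sets of positive density implies internal

PROOF.  Step: for every A : ∀ n, Finset (Fin n) with Intl on SymOn (A n) there is A' with A n ⊆ A' n, Intl on SymOn (A' n) and
(A' n).card ≥ min n ((A n).card + (A n).card / 2).  For every n choose g n : Perm (Fin n) such that B n = (A n).map (g n) satisfies
card (B \ A) ≤ card (A ∩ B) and card (A ∪ B) ≥ min n (card A + card A / 2) (take Y ⊆ Aᶜ with min (card Aᶜ) (card A / 2) elements, X ⊆ A with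
card A - card Y elements, B = X ∪ Y has card A elements, so B = g '' A for some permutation g; B \ A = Y, A ∩ B = X).  SymOn B =
{σ | g⁻¹ σ g ∈ SymOn A}: Intl.conj; symu, Intl.mul, Intl.mono with A' = A ∪ B.
If 2 ≤ card A then card A + card A / 2 ≥ (5/4) card A.  So from b * n ≤ (A n).card eventually (b > 0) one gets
min 1 (5/4 b) * n ≤ (A' n).card eventually.  After k steps with (5/4)^k a ≥ 1: (A n).card = n eventually, SymOn (A n) = univ.
-/

set_option autoImplicit false

open Finset Filter Topology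
open Equiv (Perm)
open scoped Pointwise

namespace Pool.Agent.helper4.UP

/-- a permutation moving a set so that half of it leaves the set -/
theorem Grow_set {n : ℕ} (A : Finset (Fin n)) : ∃ (g : Perm (Fin n)) (B : Finset (Fin n)),
    (∀ i, g i ∈ B ↔ i ∈ A) ∧ (B \ A).card ≤ (A ∩ B).card ∧
      min n (A.card + A.card / 2) ≤ (A ∪ B).card := by
  obtain ⟨Y, hY, hYc⟩ := Finset.exists_subset_card_eq (s := Aᶜ) (n := min Aᶜ.card (A.card / 2))
    (min_le_left _ _)
  obtain ⟨X, hX, hXc⟩ := Finset.exists_subset_card_eq (s := A) (n := A.card - Y.card)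
    (Nat.sub_le _ _)
  have hYA : Disjoint A Y := by
    rw [Finset.disjoint_left]
    intro i hi hi'
    exact (mem_compl.1 (hY hi')) hi
  have hXY : Disjoint X Y := hYA.mono_left hX
  have hy : Y.card ≤ A.card / 2 := by
    rw [hYc]
    exact min_le_right _ _
  have hcB : A.card = (X ∪ Y).card := by
    rw [card_union_of_disjoint hXY, hXc]
    omega
  have hc : Fintype.card {x // x ∈ A} = Fintype.card {x // x ∈ X ∪ Y} := by
    rw [Fintype.card_coe, Fintype.card_coe]
    exact hcB
  let e : {x // x ∈ A} ≃ {x // x ∈ X ∪ Y} := Fintype.equivOfCardEq hc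
  have h1 : (X ∪ Y) \ A = Y := by
    ext i
    simp only [Finset.mem_sdiff, Finset.mem_union]
    constructor
    · rintro ⟨h | h, h'⟩
      · exact (h' (hX h)).elim
      · exact h
    · intro h
      exact ⟨Or.inr h, mem_compl.1 (hY h)⟩
  have h2 : A ∩ (X ∪ Y) = X := by
    ext i
    simp only [Finset.mem_inter, Finset.mem_union]
    constructor
    · rintro ⟨h, h' | h'⟩
      · exact h'
      · exact (mem_compl.1 (hY h') h).elim
    · intro h
      exact ⟨hX h, Or.inl h⟩
  have h3 : A ∪ (X ∪ Y) = A ∪ Y := by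
    ext i
    simp only [Finset.mem_union]
    constructor
    · rintro (h | h | h)
      · exact Or.inl h
      · exact Or.inl (hX h)
      · exact Or.inr h
    · rintro (h | h)
      · exact Or.inl h
      · exact Or.inr (Or.inr h)
  refine ⟨e.extendSubtype, X ∪ Y, ?_, ?_, ?_⟩
  · intro i
    constructor
    · intro h
      by_contra hi
      exact e.extendSubtype_not_mem i hi h
    · intro h
      exact e.extendSubtype_mem i h
  · rw [h1, h2, hXc]
    omega
  · rw [h3, card_union_of_disjoint hYA, hYc]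
    have h4 : A.card + Aᶜ.card = n := by
      rw [card_add_card_compl, Fintype.card_fin]
    omega

theorem Grow_step {U : Filter ℕ} {φ : GU U →* GU U} {A : ∀ n : ℕ, Finset (Fin n)}
    (h : Intl U φ (fun n => SymOn (A n))) : ∃ A' : ∀ n : ℕ, Finset (Fin n),
    (∀ n, min n ((A n).card + (A n).card / 2) ≤ (A' n).card) ∧
      Intl U φ (fun n => SymOn (A' n)) := by
  choose g B hB1 hB2 hB3 using fun n : ℕ => Grow_set (A n)
  refine ⟨fun n => A n ∪ B n, hB3, ?_⟩
  have hc := h.conj g
  have hs : ∀ n, (SymOn (B n) : Set (Perm (Fin n))) =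
      {σ | (g n)⁻¹ * σ * g n ∈ (SymOn (A n) : Set (Perm (Fin n)))} := by
    intro n
    ext σ
    simp only [SymOn, Set.mem_ofPred_eq]
    constructor
    · intro hσ i hi
      have h1 : g n i ∉ B n := fun hh => hi ((hB1 n i).1 hh)
      simp [hσ _ h1]
    · intro hσ j hj
      have h1 : (g n)⁻¹ j ∉ A n := by
        intro hh
        have h2 := (hB1 n ((g n)⁻¹ j)).2 hh
        have h3 : g n ((g n)⁻¹ j) = j := (g n).apply_symm_apply j
        rw [h3] at h2
        exact hj h2
      have h2 := hσ _ h1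
      have h3 : g n ((g n)⁻¹ j) = j := (g n).apply_symm_apply j
      rw [Perm.mul_apply, Perm.mul_apply, h3] at h2
      exact (g n)⁻¹.injective h2
  have hB : Intl U φ (fun n => SymOn (B n)) := by
    have h1 : (fun n => (SymOn (B n) : Set (Perm (Fin n)))) =
        fun n => {σ | (g n)⁻¹ * σ * g n ∈ (SymOn (A n) : Set (Perm (Fin n)))} := funext hs
    rw [h1]
    exact hc
  exact ((h.mul hB).mul h).mono (Eventually.of_forall fun n => symu (A n) (B n) (hB2 n))

theorem Grow_iter {U : Filter ℕ} (hU : U ≤ atTop) {φ : GU U →* GU U} {A : ∀ n : ℕ, Finset (Fin n)}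
    {a : ℝ} (ha : 0 < a) (hA : ∀ᶠ n : ℕ in U, a * n ≤ ((A n).card : ℝ))
    (h : Intl U φ (fun n => SymOn (A n))) (k : ℕ) : ∃ A' : ∀ n : ℕ, Finset (Fin n),
    (∀ᶠ n : ℕ in U, min 1 ((5 / 4) ^ k * a) * n ≤ ((A' n).card : ℝ)) ∧
      Intl U φ (fun n => SymOn (A' n)) := by
  induction k with
  | zero =>
    refine ⟨A, hA.mono fun n hn => ?_, h⟩
    refine le_trans (mul_le_mul_of_nonneg_right (min_le_right _ _) (Nat.cast_nonneg n)) ?_
    rw [pow_zero, one_mul]
    exact hn
  | succ k ih =>
    obtain ⟨A1, h1, h2⟩ := ih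
    obtain ⟨A2, h3, h4⟩ := Grow_step h2
    refine ⟨A2, ?_, h4⟩
    set b : ℝ := min 1 ((5 / 4) ^ k * a) with hb
    have hb0 : 0 < b := lt_min one_pos (by positivity)
    have h5 : ∀ᶠ n : ℕ in U, 2 / b ≤ (n : ℝ) :=
      hU (tendsto_natCast_atTop_atTop.eventually (eventually_ge_atTop (2 / b)))
    filter_upwards [h1, h5] with n hn hn2
    have h6 : (2 : ℝ) ≤ ((A1 n).card : ℝ) := by
      refine le_trans ?_ hn
      rwa [div_le_iff₀ hb0, mul_comm] at hn2
    have h7 : 2 ≤ (A1 n).card := by exact_mod_cast h6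
    have h8 : (5 / 4 : ℝ) * ((A1 n).card : ℝ) ≤ (((A1 n).card + (A1 n).card / 2 : ℕ) : ℝ) := by
      have h9 : (A1 n).card ≤ 4 * ((A1 n).card / 2) := by omega
      have h10 : ((A1 n).card : ℝ) ≤ 4 * (((A1 n).card / 2 : ℕ) : ℝ) := by exact_mod_cast h9
      rw [Nat.cast_add]
      linarith
    have h11 : min (n : ℝ) (((A1 n).card + (A1 n).card / 2 : ℕ) : ℝ) ≤ ((A2 n).card : ℝ) := by
      have := h3 n
      exact_mod_cast this
    refine le_trans ?_ h11
    have hn0 : (0 : ℝ) ≤ n := Nat.cast_nonneg n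
    refine le_min ?_ ?_
    · have : min 1 ((5 / 4 : ℝ) ^ (k + 1) * a) ≤ 1 := min_le_left _ _
      nlinarith
    · refine le_trans ?_ h8
      refine le_trans ?_ (mul_le_mul_of_nonneg_left hn (by norm_num : (0 : ℝ) ≤ 5 / 4))
      rw [← mul_assoc]
      refine mul_le_mul_of_nonneg_right ?_ hn0
      rw [hb]
      rcases le_total 1 ((5 / 4 : ℝ) ^ k * a) with h12 | h12
      · rw [min_eq_left h12]
        exact (min_le_left _ _).trans (by norm_num)
      · rw [min_eq_right h12]
        refine (min_le_right _ _).trans (le_of_eq ?_)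
        rw [pow_succ]
        ring

theorem grow (U : Filter ℕ) (hU : U ≤ atTop) (φ : GU U →* GU U) (A : ∀ n : ℕ, Finset (Fin n)) (a : ℝ)
    (ha : 0 < a) (hA : ∀ᶠ n : ℕ in U, a * n ≤ ((A n).card : ℝ))
    (h : Intl U φ (fun n => SymOn (A n))) : Intl U φ (fun _ => Set.univ) := by
  obtain ⟨k, hk⟩ := pow_unbounded_of_one_lt (1 / a) (by norm_num : (1 : ℝ) < 5 / 4)
  obtain ⟨A', h1, h2⟩ := Grow_iter hU ha hA h k
  refine h2.mono (h1.mono fun n hn => ?_)
  have h3 : 1 ≤ (5 / 4 : ℝ) ^ k * a := by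
    rw [div_lt_iff₀ ha] at hk
    exact hk.le
  rw [min_eq_left h3, one_mul] at hn
  have h4 : n ≤ (A' n).card := by exact_mod_cast hn
  have h5 : A' n = univ := by
    rw [← card_eq_iff_eq_univ, Fintype.card_fin]
    refine le_antisymm ?_ h4
    have := card_le_univ (A' n)
    rwa [Fintype.card_fin] at this
  intro σ _ i hi
  rw [h5] at hi
  exact (hi (mem_univ i)).elim

end Pool.Agent.helper4.UP
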