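import Pool.Agent.helper4.UP.CDefs
import Pool.Agent.helper4.UP.Grow

/-!
# UP-CGrow: closure properties and growth for CI (as Clos.lean and Grow.lean do for Intl)

PROOF.  The proofs of Intl.mono, Intl.mul, Intl.conj (Clos.lean) and grow (Grow.lean: Grow_set can be cited as it is) with f n σ in place
of f n (σ n).  mul: choose for every l and ρ ∈ S l * S' l a factorization ρ = α l ρ * β l ρ (else 1);
f'' n σ = f n (fun l => α l (σ l)) * f' n (fun l => β l (σ l)), again Caus.  conj: φ (cl g) = cl g' (cl_surj),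
f'' n σ = g' n * f n (fun l => (g l)⁻¹ * σ l * g l) * (g' n)⁻¹.
-/

set_option autoImplicit false

open Finset Filter Topology
open Equiv (Perm)
open scoped Pointwise

namespace Pool.Agent.helper4.UP

theorem CI.mono {U : Filter ℕ} {φ : GU U →* GU U} {S S' : ∀ n : ℕ, Set (Perm (Fin n))}
    (h : CI U φ S) (h' : ∀ᶠ n in U, S' n ⊆ S n) : CI U φ S' := by
  obtain ⟨f, hc, hf⟩ := h
  refine ⟨f, hc, fun σ hσ => hf σ ?_⟩
  filter_upwards [hσ, h'] with n h1 h2
  exact h2 h1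

theorem CI.mul {U : Filter ℕ} {φ : GU U →* GU U} {S S' : ∀ n : ℕ, Set (Perm (Fin n))}
    (h : CI U φ S) (h' : CI U φ S') : CI U φ (fun n => S n * S' n) := by
  classical
  obtain ⟨f, hc, hf⟩ := h
  obtain ⟨f', hc', hf'⟩ := h'
  have hch : ∀ (n : ℕ) (σ : Perm (Fin n)), ∃ a : Perm (Fin n), σ ∈ S n * S' n →
      a ∈ S n ∧ a⁻¹ * σ ∈ S' n := by
    intro n σ
    by_cases hσ : σ ∈ S n * S' n
    · obtain ⟨x, hx, y, hy, hxy⟩ := Set.mem_mul.1 hσ
      refine ⟨x, fun _ => ⟨hx, ?_⟩⟩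
      rw [← hxy, inv_mul_cancel_left]
      exact hy
    · exact ⟨1, fun h => absurd h hσ⟩
  choose a ha using hch
  refine ⟨fun n σ => f n (fun l => a l (σ l)) * f' n (fun l => (a l (σ l))⁻¹ * σ l), ?_,
    fun σ hσ => ?_⟩
  · intro n x y hxy
    show f n (fun l => a l (x l)) * f' n (fun l => (a l (x l))⁻¹ * x l) =
      f n (fun l => a l (y l)) * f' n (fun l => (a l (y l))⁻¹ * y l)
    rw [hc n (fun l => a l (x l)) (fun l => a l (y l)) (fun l hl => by
        show a l (x l) = a l (y l)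
        rw [hxy l hl]),
      hc' n (fun l => (a l (x l))⁻¹ * x l) (fun l => (a l (y l))⁻¹ * y l) (fun l hl => by
        show (a l (x l))⁻¹ * x l = (a l (y l))⁻¹ * y l
        rw [hxy l hl])]
  have h1 := hf (fun n => a n (σ n)) (by
    filter_upwards [hσ] with n hn
    exact (ha n (σ n) hn).1)
  have h2 := hf' (fun n => (a n (σ n))⁻¹ * σ n) (by
    filter_upwards [hσ] with n hn
    exact (ha n (σ n) hn).2)
  have h3 : cl U σ = cl U (fun n => a n (σ n)) * cl U (fun n => (a n (σ n))⁻¹ * σ n) := by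
    rw [← cl_mul]
    congr 1
    funext n
    rw [mul_inv_cancel_left]
  rw [h3, map_mul, h1, h2, ← cl_mul]

theorem CI.conj {U : Filter ℕ} {φ : GU U →* GU U} {S : ∀ n : ℕ, Set (Perm (Fin n))}
    (h : CI U φ S) (g : ∀ n : ℕ, Perm (Fin n)) :
    CI U φ (fun n => {σ | (g n)⁻¹ * σ * g n ∈ S n}) := by
  obtain ⟨f, hc, hf⟩ := h
  obtain ⟨g', hg'⟩ := cl_surj (φ (cl U g))
  refine ⟨fun n σ => g' n * f n (fun l => (g l)⁻¹ * σ l * g l) * (g' n)⁻¹, ?_, fun σ hσ => ?_⟩
  · intro n x y hxy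
    show g' n * f n (fun l => (g l)⁻¹ * x l * g l) * (g' n)⁻¹ =
      g' n * f n (fun l => (g l)⁻¹ * y l * g l) * (g' n)⁻¹
    rw [hc n (fun l => (g l)⁻¹ * x l * g l) (fun l => (g l)⁻¹ * y l * g l) (fun l hl => by
      show (g l)⁻¹ * x l * g l = (g l)⁻¹ * y l * g l
      rw [hxy l hl])]
  have h1 := hf (fun n => (g n)⁻¹ * σ n * g n) (by
    filter_upwards [hσ] with n hn
    exact hn)
  have h2 : cl U σ = cl U g * cl U (fun n => (g n)⁻¹ * σ n * g n) * (cl U g)⁻¹ := by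
    rw [cl_mul, cl_mul, cl_inv]
    group
  rw [h2, map_mul, map_mul, map_inv, h1, ← hg']
  rw [cl_mul, cl_mul, cl_inv]

theorem CGrow_step {U : Filter ℕ} {φ : GU U →* GU U} {A : ∀ n : ℕ, Finset (Fin n)}
    (h : CI U φ (fun n => SymOn (A n))) : ∃ A' : ∀ n : ℕ, Finset (Fin n),
    (∀ n, min n ((A n).card + (A n).card / 2) ≤ (A' n).card) ∧
      CI U φ (fun n => SymOn (A' n)) := by
  choose g B hB1 hB2 hB3 using fun n : ℕ => Grow_set (A n)
  refine ⟨fun n => A n ∪ B n, hB3, ?_⟩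
  have hc := h.conj g
  have hs : ∀ n, (SymOn (B n) : Set (Perm (Fin n))) =
      {σ | (g n)⁻¹ * σ * g n ∈ (SymOn (A n) : Set (Perm (Fin n)))} := by
    intro n
    ext σ
    simp only [SymOn, Set.mem_ofPred_eq]
    constructor
    · intro hσ i hi
      have h1 : g n i ∉ B n := fun hh => hi ((hB1 n i).1 hh)
      simp [hσ _ h1]
    · intro hσ j hj
      have h1 : (g n)⁻¹ j ∉ A n := by
        intro hh
        have h2 := (hB1 n ((g n)⁻¹ j)).2 hh
        have h3 : g n ((g n)⁻¹ j) = j := (g n).apply_symm_apply j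
        rw [h3] at h2
        exact hj h2
      have h2 := hσ _ h1
      have h3 : g n ((g n)⁻¹ j) = j := (g n).apply_symm_apply j
      rw [Perm.mul_apply, Perm.mul_apply, h3] at h2
      exact (g n)⁻¹.injective h2
  have hB : CI U φ (fun n => SymOn (B n)) := by
    have h1 : (fun n => (SymOn (B n) : Set (Perm (Fin n)))) =
        fun n => {σ | (g n)⁻¹ * σ * g n ∈ (SymOn (A n) : Set (Perm (Fin n)))} := funext hs
    rw [h1]
    exact hc
  exact ((h.mul hB).mul h).mono (Eventually.of_forall fun n => symu (A n) (B n) (hB2 n))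

theorem CGrow_iter {U : Filter ℕ} (hU : U ≤ atTop) {φ : GU U →* GU U} {A : ∀ n : ℕ, Finset (Fin n)}
    {a : ℝ} (ha : 0 < a) (hA : ∀ᶠ n : ℕ in U, a * n ≤ ((A n).card : ℝ))
    (h : CI U φ (fun n => SymOn (A n))) (k : ℕ) : ∃ A' : ∀ n : ℕ, Finset (Fin n),
    (∀ᶠ n : ℕ in U, min 1 ((5 / 4) ^ k * a) * n ≤ ((A' n).card : ℝ)) ∧
      CI U φ (fun n => SymOn (A' n)) := by
  induction k with
  | zero =>
    refine ⟨A, hA.mono fun n hn => ?_, h⟩
    refine le_trans (mul_le_mul_of_nonneg_right (min_le_right _ _) (Nat.cast_nonneg n)) ?_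
    rw [pow_zero, one_mul]
    exact hn
  | succ k ih =>
    obtain ⟨A1, h1, h2⟩ := ih
    obtain ⟨A2, h3, h4⟩ := CGrow_step h2
    refine ⟨A2, ?_, h4⟩
    set b : ℝ := min 1 ((5 / 4) ^ k * a) with hb
    have hb0 : 0 < b := lt_min one_pos (by positivity)
    have h5 : ∀ᶠ n : ℕ in U, 2 / b ≤ (n : ℝ) :=
      hU (tendsto_natCast_atTop_atTop.eventually (eventually_ge_atTop (2 / b)))
    filter_upwards [h1, h5] with n hn hn2
    have h6 : (2 : ℝ) ≤ ((A1 n).card : ℝ) := by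
      refine le_trans ?_ hn
      rwa [div_le_iff₀ hb0, mul_comm] at hn2
    have h7 : 2 ≤ (A1 n).card := by exact_mod_cast h6
    have h8 : (5 / 4 : ℝ) * ((A1 n).card : ℝ) ≤ (((A1 n).card + (A1 n).card / 2 : ℕ) : ℝ) := by
      have h9 : (A1 n).card ≤ 4 * ((A1 n).card / 2) := by omega
      have h10 : ((A1 n).card : ℝ) ≤ 4 * (((A1 n).card / 2 : ℕ) : ℝ) := by exact_mod_cast h9
      rw [Nat.cast_add]
      linarith
    have h11 : min (n : ℝ) (((A1 n).card + (A1 n).card / 2 : ℕ) : ℝ) ≤ ((A2 n).card : ℝ) := by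
      have := h3 n
      exact_mod_cast this
    refine le_trans ?_ h11
    have hn0 : (0 : ℝ) ≤ n := Nat.cast_nonneg n
    refine le_min ?_ ?_
    · have : min 1 ((5 / 4 : ℝ) ^ (k + 1) * a) ≤ 1 := min_le_left _ _
      nlinarith
    · refine le_trans ?_ h8
      refine le_trans ?_ (mul_le_mul_of_nonneg_left hn (by norm_num : (0 : ℝ) ≤ 5 / 4))
      rw [← mul_assoc]
      refine mul_le_mul_of_nonneg_right ?_ hn0
      rw [hb]
      rcases le_total 1 ((5 / 4 : ℝ) ^ k * a) with h12 | h12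
      · rw [min_eq_left h12]
        exact (min_le_left _ _).trans (by norm_num)
      · rw [min_eq_right h12]
        refine (min_le_right _ _).trans (le_of_eq ?_)
        rw [pow_succ]
        ring

theorem cgrow (U : Filter ℕ) (hU : U ≤ atTop) (φ : GU U →* GU U) (A : ∀ n : ℕ, Finset (Fin n)) (a : ℝ)
    (ha : 0 < a) (hA : ∀ᶠ n : ℕ in U, a * n ≤ ((A n).card : ℝ))
    (h : CI U φ (fun n => SymOn (A n))) : CI U φ (fun _ => Set.univ) := by
  obtain ⟨k, hk⟩ := pow_unbounded_of_one_lt (1 / a) (by norm_num : (1 : ℝ) < 5 / 4)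
  obtain ⟨A', h1, h2⟩ := CGrow_iter hU ha hA h k
  refine h2.mono (h1.mono fun n hn => ?_)
  have h3 : 1 ≤ (5 / 4 : ℝ) ^ k * a := by
    rw [div_lt_iff₀ ha] at hk
    exact hk.le
  rw [min_eq_left h3, one_mul] at hn
  have h4 : n ≤ (A' n).card := by exact_mod_cast hn
  have h5 : A' n = univ := by
    rw [← card_eq_iff_eq_univ, Fintype.card_fin]
    refine le_antisymm ?_ h4
    have := card_le_univ (A' n)
    rwa [Fintype.card_fin] at this
  intro σ _ i hi
  rw [h5] at hi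
  exact (hi (mem_univ i)).elim

end Pool.Agent.helper4.UP
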