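import Pool.Agent.helper4.UP.NPb

/-!
# UP-NP2: two different large subsets of Sym(A): every permutation of A is near a product

PROOF.  As near_univ / near_prod (NPa.lean, NPb.lean) with two sets S, S': Y = {σ : D(σ,S) ≤ 30 √ε N} and
Y' = {σ : D(σ,S') ≤ 30 √ε N} have more than half of the elements, so σ = τ τ' with τ ∈ Y, τ' ∈ Y'.
-/

set_option autoImplicit false

open Finset Filter Topology
open Equiv (Perm)
open scoped Pointwise

namespace Pool.Agent.helper4.UP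

/-- all but a third of the permutations are near `S` -/
theorem NP2_third {α : Type*} [Fintype α] [DecidableEq α] (S : Set (Perm α)) (ε N : ℝ) (hε : 0 < ε)
    (hN : (Fintype.card α : ℝ) ≤ N) (hN0 : 0 < N) (h : Real.exp (-(ε * N)) * NN α ≤ (S.ncard : ℝ)) :
    ∃ B : Finset (Perm α), 3 * (B.card : ℝ) ≤ NN α ∧
      ∀ σ, σ ∉ B → ∃ ρ ∈ S, (D σ ρ : ℝ) ≤ 30 * Real.sqrt ε * N := by
  classical
  have hM : 0 < NN α := by
    unfold NN
    exact_mod_cast Fintype.card_pos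
  have hSne : S.Nonempty := by
    rw [Set.nonempty_iff_ne_empty]
    rintro rfl
    rw [Set.ncard_empty, Nat.cast_zero] at h
    exact absurd h (not_le.mpr (mul_pos (Real.exp_pos _) hM))
  have hs : 0 < Real.sqrt ε := Real.sqrt_pos.mpr hε
  have hss : Real.sqrt ε * Real.sqrt ε = ε := Real.mul_self_sqrt hε.le
  have hn0 : (0 : ℝ) ≤ Fintype.card α := Nat.cast_nonneg _
  -- the distance to `S`
  let f0 : Perm α → ℕ := fun σ => sInf ((fun τ => D σ τ) '' S)
  have hmem : ∀ σ, ∃ τ ∈ S, D σ τ = f0 σ := fun σ => Nat.sInf_mem (hSne.image _)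
  have hle : ∀ σ, ∀ τ ∈ S, f0 σ ≤ D σ τ := fun σ τ hτ => Nat.sInf_le ⟨τ, hτ, rfl⟩
  have hlip1 : ∀ σ τ, f0 σ ≤ D σ τ + f0 τ := fun σ τ => by
    obtain ⟨ρ, hρ, hρ'⟩ := hmem τ
    rw [← hρ']
    exact (hle σ ρ hρ).trans (D_triangle σ τ ρ)
  let f : Perm α → ℝ := fun σ => (f0 σ : ℝ)
  have hlip : ∀ σ τ, |f σ - f τ| ≤ (D σ τ : ℝ) := fun σ τ => by
    have h1 : (f0 σ : ℝ) ≤ D σ τ + f0 τ := by exact_mod_cast hlip1 σ τ
    have h2 : (f0 τ : ℝ) ≤ D σ τ + f0 σ := by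
      rw [D_comm σ τ]
      exact_mod_cast hlip1 τ σ
    rw [abs_le]
    constructor <;> simp only [f] <;> linarith
  have hf0 : ∀ σ, 0 ≤ f σ := fun σ => Nat.cast_nonneg _
  have hfS : ∀ σ ∈ S, f σ = 0 := fun σ hσ => by
    have h1 := hle σ σ hσ
    rw [D_self, Nat.le_zero] at h1
    simp only [f, h1, Nat.cast_zero]
  set m : ℝ := (∑ τ, f τ) / NN α with hm
  have hmM : ∑ τ, f τ = m * NN α := by rw [hm, div_mul_cancel₀ _ hM.ne']
  have hm0 : 0 ≤ m := div_nonneg (Finset.sum_nonneg fun σ _ => hf0 σ) hM.le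
  have hc := conc f hlip (-Real.sqrt ε)
  rw [← hm] at hc
  have h1 : (S.ncard : ℝ) * Real.exp (Real.sqrt ε * m) ≤
      ∑ σ, Real.exp (-Real.sqrt ε * (f σ - m)) := by
    have h2 : ∑ σ ∈ univ.filter (fun σ => σ ∈ S), Real.exp (-Real.sqrt ε * (f σ - m)) ≤
        ∑ σ, Real.exp (-Real.sqrt ε * (f σ - m)) :=
      Finset.sum_le_sum_of_subset_of_nonneg (Finset.filter_subset _ _)
        (fun σ _ _ => (Real.exp_pos _).le)
    refine le_trans (le_of_eq ?_) h2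
    have h3 : ∑ σ ∈ univ.filter (fun σ => σ ∈ S), Real.exp (-Real.sqrt ε * (f σ - m)) =
        ∑ σ ∈ univ.filter (fun σ => σ ∈ S), Real.exp (Real.sqrt ε * m) := by
      refine Finset.sum_congr rfl fun σ hσ => ?_
      rw [hfS σ (Finset.mem_filter.mp hσ).2]
      congr 1
      ring
    rw [h3, Finset.sum_const, nsmul_eq_mul]
    congr 2
    rw [Set.ncard_eq_toFinset_card' S]
    congr 1
    ext σ
    simp
  have h2 : Real.exp (-(ε * N)) * NN α * Real.exp (Real.sqrt ε * m) ≤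
      Real.exp (9 * ε * Fintype.card α) * NN α := by
    have h3 : (-Real.sqrt ε) ^ 2 = ε := by rw [neg_sq, sq, hss]
    rw [h3] at hc
    exact (mul_le_mul_of_nonneg_right h (Real.exp_pos _).le).trans (h1.trans hc)
  have h3 : -(ε * N) + Real.sqrt ε * m ≤ 9 * ε * Fintype.card α := by
    have h4 : Real.exp (-(ε * N)) * Real.exp (Real.sqrt ε * m) ≤
        Real.exp (9 * ε * Fintype.card α) := by
      refine le_of_mul_le_mul_right ?_ hM
      calc Real.exp (-(ε * N)) * Real.exp (Real.sqrt ε * m) * NN α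
          = Real.exp (-(ε * N)) * NN α * Real.exp (Real.sqrt ε * m) := by ring
        _ ≤ _ := h2
    rw [← Real.exp_add] at h4
    exact Real.exp_le_exp.mp h4
  have h4 : m ≤ 10 * Real.sqrt ε * N := by
    have h5 : Real.sqrt ε * m ≤ Real.sqrt ε * (10 * Real.sqrt ε * N) := by
      have h6 : 9 * ε * (Fintype.card α : ℝ) ≤ 9 * ε * N :=
        mul_le_mul_of_nonneg_left hN (by positivity)
      have h7 : Real.sqrt ε * (10 * Real.sqrt ε * N) = 10 * ε * N := by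
        calc Real.sqrt ε * (10 * Real.sqrt ε * N) = 10 * (Real.sqrt ε * Real.sqrt ε) * N := by ring
          _ = 10 * ε * N := by rw [hss]
      rw [h7]
      linarith
    exact le_of_mul_le_mul_left h5 hs
  -- Markov
  set K : ℝ := 30 * Real.sqrt ε * N with hK
  have hK0 : 0 < K := by positivity
  have hB : 3 * ((univ.filter fun σ => ¬ f σ ≤ K).card : ℝ) ≤ NN α := by
    have h5 : ((univ.filter fun σ => ¬ f σ ≤ K).card : ℝ) * K ≤ ∑ σ, f σ := by
      calc ((univ.filter fun σ => ¬ f σ ≤ K).card : ℝ) * K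
          = ∑ σ ∈ univ.filter (fun σ => ¬ f σ ≤ K), K := by
            rw [Finset.sum_const, nsmul_eq_mul]
        _ ≤ ∑ σ ∈ univ.filter (fun σ => ¬ f σ ≤ K), f σ :=
            Finset.sum_le_sum fun σ hσ => (not_le.mp (Finset.mem_filter.mp hσ).2).le
        _ ≤ ∑ σ, f σ := Finset.sum_le_sum_of_subset_of_nonneg (Finset.filter_subset _ _)
            (fun σ _ _ => hf0 σ)
    rw [hmM] at h5
    have h6 : m * NN α ≤ 10 * Real.sqrt ε * N * NN α := mul_le_mul_of_nonneg_right h4 hM.le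
    have h7 : 10 * Real.sqrt ε * N * NN α = K * (NN α / 3) := by rw [hK]; ring
    have h8 : K * ((univ.filter fun σ => ¬ f σ ≤ K).card : ℝ) ≤ K * (NN α / 3) := by
      rw [← h7]; linarith
    have h9 := le_of_mul_le_mul_left h8 hK0
    linarith
  refine ⟨univ.filter fun σ => ¬ f σ ≤ K, hB, fun σ hσ => ?_⟩
  have h5 : f σ ≤ K := by
    by_contra hcon
    exact hσ (Finset.mem_filter.mpr ⟨Finset.mem_univ _, hcon⟩)
  obtain ⟨ρ, hρ, e⟩ := hmem σ
  refine ⟨ρ, hρ, ?_⟩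
  rw [e]
  exact h5

theorem NP2_univ {α : Type*} [Fintype α] [DecidableEq α] (S S' : Set (Perm α)) (ε N : ℝ) (hε : 0 < ε)
    (hN : (Fintype.card α : ℝ) ≤ N) (h : Real.exp (-(ε * N)) * NN α ≤ (S.ncard : ℝ))
    (h' : Real.exp (-(ε * N)) * NN α ≤ (S'.ncard : ℝ)) :
    ∀ σ : Perm α, ∃ τ ∈ S, ∃ τ' ∈ S', (D σ (τ * τ') : ℝ) ≤ 60 * Real.sqrt ε * N := by
  classical
  have hM : 0 < NN α := by
    unfold NN
    exact_mod_cast Fintype.card_pos
  have hne : ∀ T : Set (Perm α), Real.exp (-(ε * N)) * NN α ≤ (T.ncard : ℝ) → T.Nonempty := by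
    intro T hT
    rw [Set.nonempty_iff_ne_empty]
    rintro rfl
    rw [Set.ncard_empty, Nat.cast_zero] at hT
    exact absurd hT (not_le.mpr (mul_pos (Real.exp_pos _) hM))
  have hn0 : (0 : ℝ) ≤ Fintype.card α := Nat.cast_nonneg _
  intro σ
  rcases (hn0.trans hN).eq_or_lt with hN0 | hN0
  · obtain ⟨τ, hτ⟩ := hne S h
    obtain ⟨τ', hτ'⟩ := hne S' h'
    refine ⟨τ, hτ, τ', hτ', ?_⟩
    have h1 : (D σ (τ * τ') : ℝ) ≤ Fintype.card α := by exact_mod_cast D_le_card σ (τ * τ')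
    rw [← hN0]
    linarith
  obtain ⟨B, hB, hBn⟩ := NP2_third S ε N hε hN hN0 h
  obtain ⟨B', hB', hBn'⟩ := NP2_third S' ε N hε hN hN0 h'
  have hex : ∃ τ, τ ∉ B ∧ τ⁻¹ * σ ∉ B' := by
    by_contra hcon
    push Not at hcon
    have h5 : (univ.filter fun τ => τ ∉ B).card ≤ B'.card := by
      refine Finset.card_le_card_of_injOn (fun τ => τ⁻¹ * σ) ?_ ?_
      · intro τ hτ
        exact hcon τ (Finset.mem_filter.mp hτ).2
      · intro τ _ τ' _ h6
        exact inv_injective (mul_right_cancel h6)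
    have h6 : ((univ.filter fun τ => τ ∉ B).card : ℝ) ≤ (B'.card : ℝ) := by exact_mod_cast h5
    have h7 : (B.card : ℝ) + ((univ.filter fun τ => τ ∉ B).card : ℝ) = NN α := by
      unfold NN
      have h8 := Finset.card_filter_add_card_filter_not (s := (univ : Finset (Perm α)))
        (fun σ => σ ∈ B)
      rw [Finset.card_univ] at h8
      have h9 : (univ.filter fun σ => σ ∈ B) = B := by
        ext σ
        simp
      rw [h9] at h8
      exact_mod_cast h8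
    linarith
  obtain ⟨τ, h5, h6⟩ := hex
  obtain ⟨ρ1, hρ1, e1⟩ := hBn τ h5
  obtain ⟨ρ2, hρ2, e2⟩ := hBn' (τ⁻¹ * σ) h6
  refine ⟨ρ1, hρ1, ρ2, hρ2, ?_⟩
  have h7 := D_mul_le τ (τ⁻¹ * σ) ρ1 ρ2
  rw [mul_inv_cancel_left] at h7
  have h8 : (D σ (ρ1 * ρ2) : ℝ) ≤ (D τ ρ1 : ℝ) + (D (τ⁻¹ * σ) ρ2 : ℝ) := by exact_mod_cast h7
  linarith

theorem near_prod2 {α : Type*} [Fintype α] [DecidableEq α] (A : Finset α) (S S' : Set (Perm α))
    (hS : S ⊆ SymOn A) (hS' : S' ⊆ SymOn A) (ε N : ℝ) (hε : 0 < ε) (hN : (A.card : ℝ) ≤ N)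
    (h : Real.exp (-(ε * N)) * (Nat.factorial A.card : ℝ) ≤ (S.ncard : ℝ))
    (h' : Real.exp (-(ε * N)) * (Nat.factorial A.card : ℝ) ≤ (S'.ncard : ℝ)) :
    ∀ σ ∈ SymOn A, ∃ τ ∈ S, ∃ τ' ∈ S', (D σ (τ * τ') : ℝ) ≤ 60 * Real.sqrt ε * N := by
  intro σ hσ
  obtain ⟨σ', rfl⟩ := NPb_surj A σ hσ
  have hinj : Function.Injective (Equiv.Perm.ofSubtype : Perm {x // x ∈ A} →* Perm α) :=
    Equiv.Perm.ofSubtype_injective
  have hcard : ∀ T : Set (Perm α), T ⊆ SymOn A →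
      ((Equiv.Perm.ofSubtype : Perm {x // x ∈ A} →* Perm α) ⁻¹' T).ncard = T.ncard := by
    intro T hT
    have himg : (Equiv.Perm.ofSubtype : Perm {x // x ∈ A} →* Perm α) ''
        ((Equiv.Perm.ofSubtype : Perm {x // x ∈ A} →* Perm α) ⁻¹' T) = T := by
      apply Set.image_preimage_eq_of_subset
      intro s hs
      exact NPb_surj A s (hT hs)
    conv_rhs => rw [← himg]
    exact (Set.ncard_image_of_injective _ hinj).symm
  have hNN : NN {x // x ∈ A} = (Nat.factorial A.card : ℝ) := by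
    unfold NN
    rw [Fintype.card_perm, Fintype.card_coe]
  obtain ⟨τ, hτ, τ', hτ', hD⟩ := NP2_univ ((Equiv.Perm.ofSubtype : Perm {x // x ∈ A} →* Perm α) ⁻¹' S)
    ((Equiv.Perm.ofSubtype : Perm {x // x ∈ A} →* Perm α) ⁻¹' S') ε N hε
    (by rw [Fintype.card_coe]; exact hN) (by rw [hNN, hcard S hS]; exact h)
    (by rw [hNN, hcard S' hS']; exact h') σ'
  refine ⟨Equiv.Perm.ofSubtype τ, hτ, Equiv.Perm.ofSubtype τ', hτ', ?_⟩
  rw [← map_mul, NPb_D]
  exact hD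

end Pool.Agent.helper4.UP
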