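import Mathlib

/-!
# UP-Rec: sequences defined by recursion on the whole past

PROOF.  b n := strong recursion, b n = r n x (fun l => if l < n then b l else any element); hr gives b n = r n x b.
B x n depends only on x l, l ≤ n: strong induction on n with hr.
-/

set_option autoImplicit false

open Finset Filter Topology
open Equiv (Perm)
open scoped Pointwise

namespace Pool.Agent.helper4.UP

/-- the sequence defined by recursion on the whole past -/
noncomputable def Rec_b {X T : ℕ → Type*} [∀ n, Nonempty (T n)]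
    (r : ∀ n : ℕ, (∀ l, X l) → (∀ l, T l) → T n) (x : ∀ l, X l) (n : ℕ) : T n :=
  r n x fun l => if _h : l < n then Rec_b r x l else Classical.arbitrary (T l)
termination_by n
decreasing_by exact _h

theorem Rec_b_eq {X T : ℕ → Type*} [∀ n, Nonempty (T n)]
    (r : ∀ n : ℕ, (∀ l, X l) → (∀ l, T l) → T n) (x : ∀ l, X l) (n : ℕ) :
    Rec_b r x n = r n x fun l => if l < n then Rec_b r x l else Classical.arbitrary (T l) := by
  rw [Rec_b]
  rfl

theorem rec_param {X T : ℕ → Type*} [∀ n, Nonempty (T n)] (r : ∀ n : ℕ, (∀ l, X l) → (∀ l, T l) → T n)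
    (hr : ∀ n x x' b b', (∀ l, l ≤ n → x l = x' l) → (∀ l, l < n → b l = b' l) → r n x b = r n x' b') :
    ∃ B : (∀ l, X l) → ∀ l, T l, (∀ x n, B x n = r n x (B x)) ∧
      ∀ x x' n, (∀ l, l ≤ n → x l = x' l) → B x n = B x' n := by
  have h1 : ∀ x n, Rec_b r x n = r n x (Rec_b r x) := by
    intro x n
    rw [Rec_b_eq]
    exact hr n x x _ _ (fun _ _ => rfl) fun l hl => if_pos hl
  refine ⟨Rec_b r, h1, fun x x' n => ?_⟩
  induction n using Nat.strong_induction_on with
  | _ n ih =>
    intro hx
    rw [h1 x n, h1 x' n]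
    exact hr n x x' _ _ hx fun l hl => ih l hl fun k hk => hx k (hk.trans hl.le)

end Pool.Agent.helper4.UP
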