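import Pool.Agent.helper4.UP.CDefs
import Pool.Agent.helper4.UP.Rec
import Pool.Agent.helper4.UP.NP2

/-!
# UP-Tree: from the branches of a rich tree to all sequences supported in the sets A n

PROOF.  rec_param with X l = Perm (Fin l), T l = Perm (Fin l) × Perm (Fin l): r n x (b, b') = a pair
(τ, τ') ∈ S n b × S n b' with D (x n) (τ * τ') minimal (finite, nonempty by hSn; S n b depends on b l, l < n).
So b = b(x), b' = b'(x) are branches (b n ∈ S n b for all n), depending on x in the sense of Caus.  If x n ∈ SymOn (A n) U-mostly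
then near_prod2 with N = n (card A n ≤ n) and ε → 0 gives cl x = cl (b * b') (cl_eq_iff'), so
φ (cl x) = cl (fun n => f n b * f n b'), and f'' n x = f n (b x) * f n (b' x) is Caus.
-/

set_option autoImplicit false

open Finset Filter Topology
open Equiv (Perm)
open scoped Pointwise

namespace Pool.Agent.helper4.UP

/-- a pair in the two sets whose product is nearest to a given permutation -/
noncomputable def Tree_pick (n : ℕ) (g : Perm (Fin n)) (S S' : Set (Perm (Fin n))) : Perm (Fin n) × Perm (Fin n) :=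
  open Classical in
  if h : ∃ p : Perm (Fin n) × Perm (Fin n), (p.1 ∈ S ∧ p.2 ∈ S') ∧
    ∀ q : Perm (Fin n) × Perm (Fin n), q.1 ∈ S → q.2 ∈ S' → D g (p.1 * p.2) ≤ D g (q.1 * q.2) then h.choose
  else (1, 1)

theorem Tree_pick_spec (n : ℕ) (g : Perm (Fin n)) (S S' : Set (Perm (Fin n))) (hS : S.Nonempty)
    (hS' : S'.Nonempty) : ((Tree_pick n g S S').1 ∈ S ∧ (Tree_pick n g S S').2 ∈ S') ∧
    ∀ q : Perm (Fin n) × Perm (Fin n), q.1 ∈ S → q.2 ∈ S' →
      D g ((Tree_pick n g S S').1 * (Tree_pick n g S S').2) ≤ D g (q.1 * q.2) := by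
  classical
  have h : ∃ p : Perm (Fin n) × Perm (Fin n), (p.1 ∈ S ∧ p.2 ∈ S') ∧
      ∀ q : Perm (Fin n) × Perm (Fin n), q.1 ∈ S → q.2 ∈ S' → D g (p.1 * p.2) ≤ D g (q.1 * q.2) := by
    obtain ⟨a, ha⟩ := hS
    obtain ⟨b, hb⟩ := hS'
    obtain ⟨p, hp, hmin⟩ := Set.exists_min_image (S ×ˢ S') (fun p => D g (p.1 * p.2)) (Set.toFinite _)
      ⟨(a, b), Set.mk_mem_prod ha hb⟩
    exact ⟨p, ⟨hp.1, hp.2⟩, fun q hq hq' => hmin q ⟨hq, hq'⟩⟩
  unfold Tree_pick
  rw [dif_pos h]
  exact h.choose_spec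

theorem tree (U : Filter ℕ) (φ : GU U →* GU U) (A : ∀ n : ℕ, Finset (Fin n))
    (S : ∀ n : ℕ, (∀ l : ℕ, Perm (Fin l)) → Set (Perm (Fin n)))
    (hSd : ∀ n x y, (∀ l, l < n → x l = y l) → S n x = S n y)
    (hSn : ∀ n x, (S n x).Nonempty)
    (hSA : ∀ᶠ n : ℕ in U, ∀ x, S n x ⊆ SymOn (A n))
    (hSr : ∀ ε : ℝ, 0 < ε → ∀ᶠ n : ℕ in U, ∀ x,
      Real.exp (-(ε * n)) * (Nat.factorial (A n).card : ℝ) ≤ ((S n x).ncard : ℝ))
    (f : ∀ n : ℕ, (∀ l : ℕ, Perm (Fin l)) → Perm (Fin n)) (hfc : Caus f)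
    (hf : ∀ σ : ∀ n : ℕ, Perm (Fin n), (∀ n, σ n ∈ S n σ) → φ (cl U σ) = cl U (fun n => f n σ)) :
    CI U φ (fun n => SymOn (A n)) := by
  obtain ⟨B, hB, hBd⟩ := rec_param (X := fun l => Perm (Fin l)) (T := fun l => Perm (Fin l) × Perm (Fin l))
    (fun n x b => Tree_pick n (x n) (S n fun l => (b l).1) (S n fun l => (b l).2)) (by
      intro n x x' b b' hx hb
      show Tree_pick n (x n) (S n fun l => (b l).1) (S n fun l => (b l).2) =
        Tree_pick n (x' n) (S n fun l => (b' l).1) (S n fun l => (b' l).2)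
      rw [hx n le_rfl, hSd n (fun l => (b l).1) (fun l => (b' l).1) (fun l hl => by rw [hb l hl]),
        hSd n (fun l => (b l).2) (fun l => (b' l).2) (fun l hl => by rw [hb l hl])])
  have hspec : ∀ (x : ∀ l : ℕ, Perm (Fin l)) (n : ℕ),
      ((B x n).1 ∈ S n (fun l => (B x l).1) ∧ (B x n).2 ∈ S n (fun l => (B x l).2)) ∧
      ∀ q : Perm (Fin n) × Perm (Fin n), q.1 ∈ S n (fun l => (B x l).1) → q.2 ∈ S n (fun l => (B x l).2) →
        D (x n) ((B x n).1 * (B x n).2) ≤ D (x n) (q.1 * q.2) := by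
    intro x n
    have h := Tree_pick_spec n (x n) (S n fun l => (B x l).1) (S n fun l => (B x l).2) (hSn _ _) (hSn _ _)
    have e : B x n = Tree_pick n (x n) (S n fun l => (B x l).1) (S n fun l => (B x l).2) := hB x n
    rw [← e] at h
    exact h
  refine ⟨fun n x => f n (fun l => (B x l).1) * f n (fun l => (B x l).2), ?_, ?_⟩
  · intro n x y hxy
    have hl : ∀ l, l ≤ n → B x l = B y l := fun l hl => hBd x y l fun k hk => hxy k (hk.trans hl)
    show f n (fun l => (B x l).1) * f n (fun l => (B x l).2) = f n (fun l => (B y l).1) * f n (fun l => (B y l).2)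
    rw [hfc n (fun l => (B x l).1) (fun l => (B y l).1) (fun l h => by rw [hl l h]),
      hfc n (fun l => (B x l).2) (fun l => (B y l).2) (fun l h => by rw [hl l h])]
  · intro σ hσ
    have hcl : cl U σ = cl U (fun n => (B σ n).1 * (B σ n).2) := by
      rw [cl_eq_iff']
      intro ε hε
      have hε' : 0 < (ε / 60) ^ 2 := by positivity
      filter_upwards [hσ, hSA, hSr ((ε / 60) ^ 2) hε'] with n h1 h2 h3
      have hcard : ((A n).card : ℝ) ≤ (n : ℝ) := by
        have := card_le_univ (A n)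
        rw [Fintype.card_fin] at this
        exact_mod_cast this
      obtain ⟨τ, hτ, τ', hτ', hD⟩ := near_prod2 (A n) (S n fun l => (B σ l).1) (S n fun l => (B σ l).2)
        (h2 _) (h2 _) ((ε / 60) ^ 2) n hε' hcard (h3 _) (h3 _) (σ n) h1
      have h4 : D (σ n) ((B σ n).1 * (B σ n).2) ≤ D (σ n) (τ * τ') := (hspec σ n).2 (τ, τ') hτ hτ'
      have h5 : (D (σ n) ((B σ n).1 * (B σ n).2) : ℝ) ≤ (D (σ n) (τ * τ') : ℝ) := by exact_mod_cast h4
      refine h5.trans (hD.trans ?_)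
      rw [Real.sqrt_sq (by positivity)]
      apply le_of_eq
      ring
    rw [hcl, cl_mul, map_mul, hf (fun n => (B σ n).1) (fun n => (hspec σ n).1.1),
      hf (fun n => (B σ n).2) (fun n => (hspec σ n).1.2), ← cl_mul]

end Pool.Agent.helper4.UP
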