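import Pool.Agent.helper4.UP.CInnB
import Pool.Agent.helper4.UP.CGrow
import Pool.Agent.helper4.UP.Tree

/-!
# UP-CFin: assembly
-/

set_option autoImplicit false

open Finset Filter Topology
open Equiv (Perm)
open scoped Pointwise

namespace Pool.Agent.helper4.UP

theorem main2 (U : Ultrafilter ℕ) (hU : (U : Filter ℕ) ≤ atTop) (φ : GU (U : Filter ℕ) →* GU (U : Filter ℕ))
    (hφ : ∃ x, φ x ≠ 1) (a : ℝ) (ha : 0 < a)
    (A : ∀ n : ℕ, Finset (Fin n)) (hA : ∀ᶠ n : ℕ in (U : Filter ℕ), a * n ≤ ((A n).card : ℝ))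
    (S : ∀ n : ℕ, (∀ l : ℕ, Perm (Fin l)) → Set (Perm (Fin n)))
    (hSd : ∀ n x y, (∀ l, l < n → x l = y l) → S n x = S n y)
    (hSn : ∀ n x, (S n x).Nonempty)
    (hSA : ∀ᶠ n : ℕ in (U : Filter ℕ), ∀ x, S n x ⊆ SymOn (A n))
    (hSr : ∀ ε : ℝ, 0 < ε → ∀ᶠ n : ℕ in (U : Filter ℕ), ∀ x,
      Real.exp (-(ε * n)) * (Nat.factorial (A n).card : ℝ) ≤ ((S n x).ncard : ℝ))
    (f : ∀ n : ℕ, (∀ l : ℕ, Perm (Fin l)) → Perm (Fin n)) (hfc : Caus f)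
    (hf : ∀ σ : ∀ n : ℕ, Perm (Fin n), (∀ n, σ n ∈ S n σ) →
      φ (cl (U : Filter ℕ) σ) = cl (U : Filter ℕ) (fun n => f n σ)) :
    ∃ g : GU (U : Filter ℕ), ∀ x, φ x = g * x * g⁻¹ :=
  cinn U hU φ hφ (cgrow (U : Filter ℕ) hU φ A a ha hA
    (tree (U : Filter ℕ) φ A S hSd hSn hSA hSr f hfc hf))

end Pool.Agent.helper4.UP
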