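import Pool.Agent.helper4.UP.Defs

/-!
# UP-Cent: permutations nearly commuting with all permutations; two finite lemmas on approximately affine maps

PROOF.  ind_set: take I of maximal cardinality with g i ∉ I for all i ∈ I.  A moved point j ∉ I is g i or g⁻¹ i for some i ∈ I (otherwise
insert j is larger).  So the moved points are in I ∪ g I ∪ g⁻¹ I.
cent: I from ind_set; if card I ≤ 1: D g 1 ≤ 3.  Otherwise let z be a permutation moving every point of I and fixing the others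
(for example a cycle on I); g z g⁻¹ fixes the points of I (its support is g I, disjoint from I), so card I ≤ D (g z g⁻¹) z ≤ k.
biaff: Q (y z) ≈ P y * P2 z.  P (y z) P2 1 ≈ Q (y z) ≈ P y * P2 z (error 2k), P 1 * P2 z ≈ Q z ≈ P z * P2 1 (2k), so
P (y z) ≈ P y (P 1)⁻¹ P z (4k).
fin_lemma: g' = (P 1)⁻¹ g.  h3: P y * P2 1 ≈ Q3 y ≈ P 1 * P2 y gives P2 y ≈ g' y g'⁻¹ P2 1 (error 3k); h6 in the same way Pu y ≈
g' y g'⁻¹ Pu 1 (3k); h7: Pu y * P2 1 ≈ Pu 1 * P2 y (2k), hence g' y g'⁻¹ Pu 1 ≈ Pu 1 g' y g'⁻¹ (8k) for all y, so by cent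
D (Pu 1) 1 ≤ 24 k + 3, and Pu y ≈ g' y g'⁻¹ (27 k + 3).
-/

set_option autoImplicit false

open Finset Filter Topology
open Equiv (Perm)
open scoped Pointwise

namespace Pool.Agent.helper4.UP

theorem ind_set {α : Type*} [Fintype α] [DecidableEq α] (g : Perm α) :
    ∃ I : Finset α, D g 1 ≤ 3 * I.card ∧ ∀ i ∈ I, g i ∉ I := by
  classical
  obtain ⟨I, hI, hmax⟩ := Finset.exists_max_image
    ((univ : Finset (Finset α)).filter fun I => ∀ i ∈ I, g i ∉ I) Finset.card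
    ⟨∅, by simp⟩
  have hI2 : ∀ i ∈ I, g i ∉ I := (mem_filter.1 hI).2
  refine ⟨I, ?_, hI2⟩
  have hsub : (univ.filter fun i => g i ≠ (1 : Perm α) i) ⊆
      I ∪ (I.image g ∪ I.image (g⁻¹ : Perm α)) := by
    intro j hj
    have hj1 : g j ≠ j := by simpa using hj
    rw [mem_union, mem_union, mem_image, mem_image]
    by_contra hcon
    push Not at hcon
    obtain ⟨h1, h2, h3⟩ := hcon
    have h4 : insert j I ∈ ((univ : Finset (Finset α)).filter fun I => ∀ i ∈ I, g i ∉ I) := by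
      rw [mem_filter]
      refine ⟨mem_univ _, ?_⟩
      intro i hi hgi
      rcases mem_insert.1 hi with rfl | hi
      · rcases mem_insert.1 hgi with h5 | h5
        · exact hj1 h5
        · exact h3 _ h5 (by simp)
      · rcases mem_insert.1 hgi with h5 | h5
        · exact h2 _ hi h5
        · exact hI2 _ hi h5
    have h5 := hmax _ h4
    rw [card_insert_of_notMem h1] at h5
    omega
  have h1 := card_le_card hsub
  have h2 := card_union_le I (I.image g ∪ I.image (g⁻¹ : Perm α))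
  have h3 := card_union_le (I.image g) (I.image (g⁻¹ : Perm α))
  have h4 : (I.image g).card ≤ I.card := card_image_le
  have h5 : (I.image (g⁻¹ : Perm α)).card ≤ I.card := card_image_le
  unfold D
  omega

theorem cent {α : Type*} [Fintype α] [DecidableEq α] (g : Perm α) (k : ℕ)
    (h : ∀ z : Perm α, D (g * z * g⁻¹) z ≤ k) : D g 1 ≤ 3 * k + 3 := by
  obtain ⟨I, hI, hI2⟩ := ind_set g
  rcases Nat.lt_or_ge I.card 2 with hc | hc
  · omega
  have hk : I.card ≤ k := by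
    refine le_trans ?_ (h I.toList.formPerm)
    unfold D
    apply card_le_card
    intro i hi
    rw [mem_filter]
    refine ⟨mem_univ _, ?_⟩
    have h1 : g⁻¹ i ∉ I.toList := by
      rw [mem_toList]
      intro h2
      apply hI2 _ h2
      simpa using hi
    have h2 : I.toList.formPerm (g⁻¹ i) = g⁻¹ i := List.formPerm_apply_of_notMem h1
    have h3 : (g * I.toList.formPerm * g⁻¹) i = i := by
      rw [Equiv.Perm.mul_apply, Equiv.Perm.mul_apply, h2]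
      simp
    rw [h3]
    have h4 : I.toList.formPerm i ≠ i :=
      (List.formPerm_apply_mem_ne_self_iff _ I.nodup_toList i (mem_toList.2 hi)).2
        (by rw [length_toList]; exact hc)
    exact fun h5 => h4 h5.symm
  omega

/-- the common step -/
theorem Cent_step {α : Type*} [Fintype α] [DecidableEq α] (k : ℕ) (P P2 Q : Perm α → Perm α)
    (h : ∀ y z, D (Q (y * z)) (P y * P2 z) ≤ k) (z : Perm α) :
    D (P 1 * P2 z) (P z * P2 1) ≤ 2 * k := by
  have h1 := h 1 z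
  have h2 := h z 1
  rw [one_mul] at h1
  rw [mul_one] at h2
  have h3 := D_triangle (P 1 * P2 z) (Q z) (P z * P2 1)
  rw [D_comm (P 1 * P2 z) (Q z)] at h3
  omega

theorem biaff {α : Type*} [Fintype α] [DecidableEq α] (k : ℕ) (P P2 Q : Perm α → Perm α)
    (h : ∀ y z, D (Q (y * z)) (P y * P2 z) ≤ k) :
    ∀ y z, D (P (y * z) * (P 1)⁻¹) ((P y * (P 1)⁻¹) * (P z * (P 1)⁻¹)) ≤ 4 * k := by
  intro y z
  have e1 : (P y * (P 1)⁻¹) * (P z * (P 1)⁻¹) = (P y * (P 1)⁻¹ * P z) * (P 1)⁻¹ := by group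
  rw [e1, D_mul_right, ← D_mul_right _ _ (P2 1)]
  have h1 := h y z
  have h2 := h (y * z) 1
  rw [mul_one] at h2
  have h3 := Cent_step k P P2 Q h z
  have h4 : D (P y * P2 z) (P y * (P 1)⁻¹ * P z * P2 1) = D (P 1 * P2 z) (P z * P2 1) := by
    have e2 : P y * (P 1)⁻¹ * P z * P2 1 = P y * ((P 1)⁻¹ * (P z * P2 1)) := by group
    have e3 : P2 z = (P 1)⁻¹ * (P 1 * P2 z) := by group
    rw [e2, D_mul_left]
    conv_lhs => rw [e3]
    rw [D_mul_left]
  have h5 := D_triangle (P (y * z) * P2 1) (Q (y * z)) (P y * P2 z)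
  rw [D_comm (P (y * z) * P2 1) (Q (y * z))] at h5
  have h6 := D_triangle (P (y * z) * P2 1) (P y * P2 z) (P y * (P 1)⁻¹ * P z * P2 1)
  omega

/-- the second map is nearly affine -/
theorem Cent_aff {α : Type*} [Fintype α] [DecidableEq α] (k : ℕ) (g : Perm α)
    (P P2 Q : Perm α → Perm α) (hg : ∀ y, D (P y) (g * y * g⁻¹ * P 1) ≤ k)
    (h : ∀ y z, D (Q (y * z)) (P y * P2 z) ≤ k) (y : Perm α) :
    D (P2 y) (((P 1)⁻¹ * g) * y * ((P 1)⁻¹ * g)⁻¹ * P2 1) ≤ 3 * k := by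
  have h1 := Cent_step k P P2 Q h y
  have h2 := hg y
  rw [← D_mul_left _ _ (P 1)]
  have e1 : P 1 * (((P 1)⁻¹ * g) * y * ((P 1)⁻¹ * g)⁻¹ * P2 1) = (g * y * g⁻¹ * P 1) * P2 1 := by
    group
  rw [e1]
  have h3 := D_triangle (P 1 * P2 y) (P y * P2 1) ((g * y * g⁻¹ * P 1) * P2 1)
  rw [D_mul_right] at h3
  omega

theorem fin_lemma {α : Type*} [Fintype α] [DecidableEq α] (k : ℕ) (g : Perm α)
    (P Pu P2 Q3 Q6 Q7 : Perm α → Perm α)
    (hg : ∀ y, D (P y) (g * y * g⁻¹ * P 1) ≤ k)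
    (h3 : ∀ y z, D (Q3 (y * z)) (P y * P2 z) ≤ k)
    (h6 : ∀ y z, D (Q6 (y * z)) (P y * Pu z) ≤ k)
    (h7 : ∀ y z, D (Q7 (y * z)) (Pu y * P2 z) ≤ k) :
    ∀ y, D (Pu y) (((P 1)⁻¹ * g) * y * ((P 1)⁻¹ * g)⁻¹) ≤ 27 * k + 3 := by
  set g' := (P 1)⁻¹ * g with hg'
  have a3 : ∀ y, D (P2 y) (g' * y * g'⁻¹ * P2 1) ≤ 3 * k := Cent_aff k g P P2 Q3 hg h3
  have a6 : ∀ y, D (Pu y) (g' * y * g'⁻¹ * Pu 1) ≤ 3 * k := Cent_aff k g P Pu Q6 hg h6
  have a7 : ∀ y, D (Pu 1 * P2 y) (Pu y * P2 1) ≤ 2 * k := Cent_step k Pu P2 Q7 h7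
  have b : ∀ y, D (Pu 1 * (g' * y * g'⁻¹)) (g' * y * g'⁻¹ * Pu 1) ≤ 8 * k := by
    intro y
    rw [← D_mul_right _ _ (P2 1)]
    have c1 := D_triangle (Pu 1 * (g' * y * g'⁻¹) * P2 1) (Pu 1 * P2 y)
      (g' * y * g'⁻¹ * Pu 1 * P2 1)
    have c2 := D_triangle (Pu 1 * P2 y) (Pu y * P2 1) (g' * y * g'⁻¹ * Pu 1 * P2 1)
    rw [D_mul_right] at c2
    have c3 : D (Pu 1 * (g' * y * g'⁻¹) * P2 1) (Pu 1 * P2 y) ≤ 3 * k := by
      rw [mul_assoc (Pu 1), D_mul_left, D_comm]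
      exact a3 y
    have c4 := a6 y
    have c5 := a7 y
    omega
  have c : D (Pu 1) 1 ≤ 3 * (8 * k) + 3 := by
    apply cent
    intro z
    have e1 : g' * (g'⁻¹ * z * g') * g'⁻¹ = z := by group
    have h1 := b (g'⁻¹ * z * g')
    rw [e1, ← D_mul_right _ _ (Pu 1)⁻¹] at h1
    have e2 : z * Pu 1 * (Pu 1)⁻¹ = z := by group
    rwa [e2] at h1
  intro y
  have d1 := D_triangle (Pu y) (g' * y * g'⁻¹ * Pu 1) (g' * y * g'⁻¹)
  have d2 : D (g' * y * g'⁻¹ * Pu 1) (g' * y * g'⁻¹) = D (Pu 1) 1 := by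
    have := D_mul_left (Pu 1) 1 (g' * y * g'⁻¹)
    rwa [mul_one] at this
  have d3 := a6 y
  omega

end Pool.Agent.helper4.UP
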