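import Pool.Agent.helper4.UP.Defs

/-!
# UP-Comb: maps of the symmetric group which nearly permute the fibres of a partial map

PROOF.  c i = number of j with p j = some i, C = ∑ c i = number of j with p j ≠ none ≤ n.  Fix σ, E = exceptional set
(≤ θ n points).  ψ σ maps {j ∉ E : p j = some i} injectively to {j : p j = some (σ i)}, so c i ≤ c (σ i) + e_i, ∑ e_i ≤ θ n:
∑_i (c i - c (σ i))⁺ ≤ θ n.  Take for σ the n shifts i ↦ i + k and sum: ∑_{i,i'} (c i - c i')⁺ ≤ θ n².
Let z = #{i : c i = 0}, w = n - z = #{i : c i ≥ 1} ≤ C.  The pairs with c i' = 0 give z * C ≤ θ n².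
If 2 z ≥ n: C ≤ 2 θ n, first alternative.  Otherwise C ≥ w > n/2, so z ≤ 2 θ n, and
#{i : c i ≥ 2} ≤ ∑ (c i - 1)⁺ = C - w ≤ n - w = z ≤ 2 θ n.  Choose g with p (g i) = some i for all i with c i ≥ 1 (the choice
is injective on this set; Finset.exists_equiv_extend_of_card_eq or similar extends it to a permutation).
Given σ: if c i ≥ 1, g i ∉ E and c (σ i) < 2, then p (ψ σ (g i)) = some (σ i), so c (σ i) = 1 and p (g (σ i)) = some (σ i), hence
ψ σ (g i) = g (σ i).  The exceptions are at most 2θn + θn + 2θn.
-/

set_option autoImplicit false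

open Finset Filter Topology
open Equiv (Perm)
open scoped Pointwise

namespace Pool.Agent.helper4.UP

theorem Comb_ncard {n : ℕ} (P : Fin n → Prop) [DecidablePred P] :
    ({j | P j} : Set (Fin n)).ncard = (univ.filter P).card := by
  rw [← Set.ncard_coe_finset]
  congr 1
  ext j
  simp

/-- the size of the fibre -/
def Comb_c {n : ℕ} (p : Fin n → Option (Fin n)) (i : Fin n) : ℕ := (univ.filter fun j => p j = some i).card

theorem Comb_one {n : ℕ} (ψ : Perm (Fin n) → Perm (Fin n)) (p : Fin n → Option (Fin n)) (σ : Perm (Fin n)) :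
    ∑ i, (Comb_c p i - Comb_c p (σ i)) ≤ (univ.filter fun j => p (ψ σ j) ≠ (p j).map σ).card := by
  have h1 : ∀ i, Comb_c p i - Comb_c p (σ i) ≤
      ((univ.filter fun j => p (ψ σ j) ≠ (p j).map σ).filter fun j => p j = some i).card := by
    intro i
    rw [Nat.sub_le_iff_le_add]
    have h2 : (univ.filter fun j => p j = some i) ⊆
        ((univ.filter fun j => p (ψ σ j) ≠ (p j).map σ).filter fun j => p j = some i) ∪
        ((univ.filter fun j => p j = some (σ i)).preimage (ψ σ) ((ψ σ).injective.injOn)) := by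
      intro j hj
      simp only [mem_filter, mem_univ, true_and, mem_union, mem_preimage] at hj ⊢
      by_cases h3 : p (ψ σ j) = (p j).map σ
      · right
        rw [h3, hj]
        rfl
      · left
        exact ⟨h3, hj⟩
    have h4 : ((univ.filter fun j => p j = some (σ i)).preimage (ψ σ) ((ψ σ).injective.injOn)).card ≤
        Comb_c p (σ i) := by
      unfold Comb_c
      refine card_le_card_of_injOn (ψ σ) ?_ ((ψ σ).injective.injOn)
      intro j hj
      have h5 := mem_preimage.1 (mem_coe.1 hj)
      exact h5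
    unfold Comb_c at h4 ⊢
    exact (card_le_card h2).trans ((card_union_le _ _).trans (by omega))
  refine (sum_le_sum fun i _ => h1 i).trans ?_
  rw [← card_biUnion]
  · apply card_le_card
    intro j hj
    rw [mem_biUnion] at hj
    obtain ⟨i, -, hj⟩ := hj
    exact (mem_filter.1 hj).1
  · intro i _ i' _ hii
    rw [Function.onFun, disjoint_left]
    intro j hj hj'
    apply hii
    have e1 := (mem_filter.1 hj).2
    have e2 := (mem_filter.1 hj').2
    rw [e1] at e2
    exact Option.some.inj e2

theorem Comb_sum {n : ℕ} (p : Fin n → Option (Fin n)) :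
    ∑ i, Comb_c p i = (univ.filter fun j => p j ≠ none).card := by
  unfold Comb_c
  rw [← card_biUnion]
  · congr 1
    ext j
    simp only [mem_biUnion, mem_univ, true_and, mem_filter]
    constructor
    · rintro ⟨i, hi⟩
      rw [hi]
      simp
    · intro hj
      obtain ⟨i, hi⟩ := Option.ne_none_iff_exists'.1 hj
      exact ⟨i, hi⟩
  · intro i _ i' _ hii
    rw [Function.onFun, disjoint_left]
    intro j hj hj'
    apply hii
    have e1 := (mem_filter.1 hj).2
    have e2 := (mem_filter.1 hj').2
    rw [e1] at e2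
    exact Option.some.inj e2

theorem Comb_two {n : ℕ} (hn : 0 < n) (θ : ℝ) (ψ : Perm (Fin n) → Perm (Fin n)) (p : Fin n → Option (Fin n))
    (h : ∀ σ : Perm (Fin n), ((univ.filter fun j => p (ψ σ j) ≠ (p j).map σ).card : ℝ) ≤ θ * n) :
    ((univ.filter fun i => Comb_c p i = 0).card : ℝ) * (∑ i, Comb_c p i : ℕ) ≤ θ * n * n := by
  have : NeZero n := ⟨hn.ne'⟩
  have h1 : ∑ i, ∑ i', (Comb_c p i - Comb_c p i') = ∑ k, ∑ i, (Comb_c p i - Comb_c p (Equiv.addRight k i)) := by
    rw [sum_comm (s := univ) (t := univ) (f := fun k i => Comb_c p i - Comb_c p (Equiv.addRight k i))]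
    apply sum_congr rfl
    intro i _
    rw [← Equiv.sum_comp (Equiv.addLeft i) (fun i' => Comb_c p i - Comb_c p i')]
    rfl
  have h2 : ((∑ i, ∑ i', (Comb_c p i - Comb_c p i') : ℕ) : ℝ) ≤ θ * n * n := by
    rw [h1]
    push_cast
    calc ∑ k : Fin n, ∑ i : Fin n, ((Comb_c p i - Comb_c p (Equiv.addRight k i) : ℕ) : ℝ) ≤
          ∑ _k : Fin n, θ * n := by
          apply sum_le_sum
          intro k _
          have h3 := Comb_one ψ p (Equiv.addRight k)
          have h4 : ((∑ i, (Comb_c p i - Comb_c p (Equiv.addRight k i)) : ℕ) : ℝ) ≤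
              ((univ.filter fun j => p (ψ (Equiv.addRight k) j) ≠ (p j).map (Equiv.addRight k)).card : ℝ) := by
            exact_mod_cast h3
          push_cast at h4
          exact h4.trans (h _)
      _ = θ * n * n := by
          rw [sum_const, card_univ, Fintype.card_fin, nsmul_eq_mul]
          ring
  refine le_trans ?_ h2
  have h5 : (univ.filter fun i => Comb_c p i = 0).card * (∑ i, Comb_c p i) ≤
      ∑ i, ∑ i', (Comb_c p i - Comb_c p i') := by
    rw [mul_sum]
    apply sum_le_sum
    intro i _
    calc (univ.filter fun i => Comb_c p i = 0).card * Comb_c p i =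
          ∑ i' ∈ univ.filter (fun i => Comb_c p i = 0), (Comb_c p i - Comb_c p i') := by
          rw [sum_congr rfl (g := fun _ => Comb_c p i), sum_const, smul_eq_mul]
          intro i' hi'
          rw [(mem_filter.1 hi').2, Nat.sub_zero]
      _ ≤ _ := sum_le_sum_of_subset (filter_subset _ _)
  exact_mod_cast h5

theorem comb (n : ℕ) (hn : 0 < n) (θ : ℝ) (hθ : 0 ≤ θ) (ψ : Perm (Fin n) → Perm (Fin n))
    (p : Fin n → Option (Fin n))
    (h : ∀ σ : Perm (Fin n), (({j | p (ψ σ j) ≠ (p j).map σ} : Set (Fin n)).ncard : ℝ) ≤ θ * n) :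
    (({j | p j ≠ none} : Set (Fin n)).ncard : ℝ) ≤ 2 * θ * n ∨
      ∃ g : Perm (Fin n), ∀ σ : Perm (Fin n),
        (({i | ψ σ (g i) ≠ g (σ i)} : Set (Fin n)).ncard : ℝ) ≤ 5 * θ * n := by
  classical
  have h' : ∀ σ : Perm (Fin n), ((univ.filter fun j => p (ψ σ j) ≠ (p j).map σ).card : ℝ) ≤ θ * n := by
    intro σ
    have h1 := h σ
    rwa [Comb_ncard] at h1
  have hzC := Comb_two hn θ ψ p h'
  have hnR : (0 : ℝ) < n := by exact_mod_cast hn
  set z := (univ.filter fun i => Comb_c p i = 0).card with hz
  set C := ∑ i, Comb_c p i with hC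
  have hCn : C ≤ n := by
    rw [hC, Comb_sum]
    refine (card_filter_le _ _).trans ?_
    rw [card_univ, Fintype.card_fin]
  have hwz : (univ.filter fun i => Comb_c p i ≠ 0).card = n - z := by
    have h1 : (univ.filter fun i => Comb_c p i = 0).card +
        (univ.filter fun i => Comb_c p i ≠ 0).card = n := by
      have h2 := card_filter_add_card_filter_not (s := (univ : Finset (Fin n))) (fun i => Comb_c p i = 0)
      rw [card_univ, Fintype.card_fin] at h2
      convert h2
    rw [← hz] at h1
    omega
  have hzn : z ≤ n := by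
    refine (card_filter_le _ _).trans ?_
    rw [card_univ, Fintype.card_fin]
  -- C = w + the sum of c - 1
  have hCw : C = ∑ i, (Comb_c p i - 1) + (n - z) := by
    rw [← hwz, card_filter, ← sum_add_distrib, hC]
    apply sum_congr rfl
    intro i _
    split_ifs with h1
    · omega
    · have h2 : Comb_c p i = 0 := by
        by_contra h3
        exact h1 h3
      omega
  rcases Nat.lt_or_ge (2 * z) n with hc | hc
  · right
    have hzθ : (z : ℝ) ≤ 2 * θ * n := by
      have h1 : (n : ℝ) ≤ 2 * C := by
        have : n ≤ 2 * C := by omega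
        exact_mod_cast this
      have h2 : (z : ℝ) * n ≤ 2 * θ * n * n := by
        have h3 : (z : ℝ) * n ≤ z * (2 * C) := mul_le_mul_of_nonneg_left h1 (by positivity)
        nlinarith
      exact le_of_mul_le_mul_right h2 hnR
    have h2z : (univ.filter fun i => 2 ≤ Comb_c p i).card ≤ z := by
      have h1 : (univ.filter fun i => 2 ≤ Comb_c p i).card ≤ ∑ i, (Comb_c p i - 1) := by
        rw [card_filter]
        apply sum_le_sum
        intro i _
        split_ifs with h2
        · omega
        · omega
      omega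
    -- the choice
    have hch : ∀ i : Fin n, ∃ j : Fin n, Comb_c p i ≠ 0 → p j = some i := by
      intro i
      by_cases h1 : Comb_c p i = 0
      · exact ⟨i, fun h2 => absurd h1 h2⟩
      · unfold Comb_c at h1
        obtain ⟨j, hj⟩ := card_pos.1 (Nat.pos_of_ne_zero h1)
        exact ⟨j, fun _ => (mem_filter.1 hj).2⟩
    choose g₀ hg₀ using hch
    obtain ⟨e, he⟩ := Finset.exists_equiv_extend_of_card_eq (α := Fin n) (β := Fin n) (t := univ)
      (by rw [card_univ]) (s := univ.filter fun i => Comb_c p i ≠ 0) (f := g₀) (subset_univ _) (by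
        intro i hi i' hi' hii
        have e1 := hg₀ i (mem_filter.1 (mem_coe.1 hi)).2
        have e2 := hg₀ i' (mem_filter.1 (mem_coe.1 hi')).2
        rw [hii, e2] at e1
        exact (Option.some.inj e1).symm)
    set g : Perm (Fin n) := e.trans (Equiv.subtypeUnivEquiv fun x => mem_univ x) with hg
    have hgp : ∀ i, Comb_c p i ≠ 0 → p (g i) = some i := by
      intro i hi
      have h1 : g i = g₀ i := by
        rw [hg, Equiv.trans_apply]
        exact he i (mem_filter.2 ⟨mem_univ _, hi⟩)
      rw [h1]
      exact hg₀ i hi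
    refine ⟨g, fun σ => ?_⟩
    rw [Comb_ncard]
    have hsub : (univ.filter fun i => ψ σ (g i) ≠ g (σ i)) ⊆
        ((univ.filter fun i => Comb_c p i = 0) ∪
          (univ.filter fun i => p (ψ σ (g i)) ≠ (p (g i)).map σ)) ∪
          (univ.filter fun i => 2 ≤ Comb_c p (σ i)) := by
      intro i hi
      simp only [mem_filter, mem_univ, true_and, mem_union] at hi ⊢
      by_contra hcon
      push Not at hcon
      obtain ⟨⟨h1, h2⟩, h3⟩ := hcon
      apply hi
      have h4 := hgp i h1
      rw [h4, Option.map_some] at h2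
      have h5 : Comb_c p (σ i) ≠ 0 := by
        unfold Comb_c
        exact (card_pos.2 ⟨ψ σ (g i), mem_filter.2 ⟨mem_univ _, h2⟩⟩).ne'
      have h6 := hgp (σ i) h5
      have h7 : Comb_c p (σ i) ≤ 1 := by omega
      unfold Comb_c at h7
      rw [card_le_one] at h7
      exact h7 _ (mem_filter.2 ⟨mem_univ _, h2⟩) _ (mem_filter.2 ⟨mem_univ _, h6⟩)
    have hA : (univ.filter fun i => p (ψ σ (g i)) ≠ (p (g i)).map σ).card =
        (univ.filter fun j => p (ψ σ j) ≠ (p j).map σ).card := by
      refine card_bij (fun i _ => g i) ?_ (fun i _ j _ hij => g.injective hij) ?_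
      · intro i hi
        rw [mem_filter] at hi ⊢
        exact ⟨mem_univ _, hi.2⟩
      · intro j hj
        refine ⟨g.symm j, ?_, by simp⟩
        rw [mem_filter] at hj ⊢
        simpa using hj.2
    have hB : (univ.filter fun i => 2 ≤ Comb_c p (σ i)).card = (univ.filter fun i => 2 ≤ Comb_c p i).card := by
      refine card_bij (fun i _ => σ i) ?_ (fun i _ j _ hij => σ.injective hij) ?_
      · intro i hi
        rw [mem_filter] at hi ⊢
        exact ⟨mem_univ _, hi.2⟩
      · intro j hj
        refine ⟨σ.symm j, ?_, by simp⟩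
        rw [mem_filter] at hj ⊢
        simpa using hj.2
    have hcard : (univ.filter fun i => ψ σ (g i) ≠ g (σ i)).card ≤
        z + (univ.filter fun j => p (ψ σ j) ≠ (p j).map σ).card + z := by
      refine (card_le_card hsub).trans ((card_union_le _ _).trans ?_)
      rw [hB]
      refine add_le_add ((card_union_le _ _).trans ?_) h2z
      rw [hA]
    have hcR : ((univ.filter fun i => ψ σ (g i) ≠ g (σ i)).card : ℝ) ≤
        z + (univ.filter fun j => p (ψ σ j) ≠ (p j).map σ).card + z := by
      exact_mod_cast hcard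
    have := h' σ
    linarith
  · left
    rw [Comb_ncard, ← Comb_sum]
    have h1 : (n : ℝ) ≤ 2 * z := by exact_mod_cast hc
    have h2 : (C : ℝ) * n ≤ 2 * θ * n * n := by
      have h3 : (C : ℝ) * n ≤ C * (2 * z) := mul_le_mul_of_nonneg_left h1 (by positivity)
      nlinarith
    exact le_of_mul_le_mul_right h2 hnR

end Pool.Agent.helper4.UP
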