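import Pool.Agent.helper4.UP.Defs

/-!
# UP-StA: most points are good

PROOF.  sh τ (ev ψ j) σ = ψ (σ * τ) j, ev ψ (ψ τ j) σ = (ψ σ * ψ τ) j.  So for fixed τ
∑_j Ds (sh τ (ev ψ j)) (ev ψ (ψ τ j)) = ∑_σ D (ψ (σ * τ)) (ψ σ * ψ τ) ≤ η³ n N (N = NN α, n = card α), and Markov gives
stA_fix.  Summing stA_fix over τ: ∑_j (bad ψ η j).ncard ≤ η² n N; Markov gives stA_good.
-/

set_option autoImplicit false

open Finset Filter Topology
open Equiv (Perm)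
open scoped Pointwise

namespace Pool.Agent.helper4.UP

theorem StA_ncard {α : Type*} [Fintype α] (p : α → Prop) [DecidablePred p] :
    (({j | p j} : Set α).ncard : ℝ) = ∑ j : α, if p j then (1 : ℝ) else 0 := by
  have h : ({j | p j} : Set α) = ((univ.filter p : Finset α) : Set α) := by
    ext j
    simp
  rw [h, Set.ncard_coe_finset, Finset.sum_boole]

/-- Markov's inequality for the counting measure -/
theorem StA_markov {α : Type*} [Fintype α] (a : α → ℝ) (ha : ∀ j, 0 ≤ a j) (t : ℝ) :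
    (({j | t < a j} : Set α).ncard : ℝ) * t ≤ ∑ j : α, a j := by
  classical
  rw [StA_ncard, Finset.sum_mul]
  refine Finset.sum_le_sum fun j _ => ?_
  split_ifs with h
  · rw [one_mul]
    exact h.le
  · rw [zero_mul]
    exact ha j

theorem StA_NN_pos {α : Type*} [Fintype α] [DecidableEq α] : 0 < NN α := by
  unfold NN
  exact_mod_cast Fintype.card_pos

theorem StA_swap {α : Type*} [Fintype α] [DecidableEq α] (ψ : Perm α → Perm α) (τ : Perm α) :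
    ∑ j : α, (Ds (sh τ (ev ψ j)) (ev ψ (ψ τ j)) : ℝ) =
      ∑ σ : Perm α, (D (ψ (σ * τ)) (ψ σ * ψ τ) : ℝ) := by
  have h1 : ∀ j : α, (Ds (sh τ (ev ψ j)) (ev ψ (ψ τ j)) : ℝ) =
      ∑ σ : Perm α, if ψ (σ * τ) j ≠ (ψ σ * ψ τ) j then (1 : ℝ) else 0 := by
    intro j
    rw [Finset.sum_boole]
    rfl
  have h2 : ∀ σ : Perm α, (D (ψ (σ * τ)) (ψ σ * ψ τ) : ℝ) =
      ∑ j : α, if ψ (σ * τ) j ≠ (ψ σ * ψ τ) j then (1 : ℝ) else 0 := by
    intro σ
    rw [Finset.sum_boole]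
    rfl
  simp_rw [h1, h2]
  exact Finset.sum_comm

theorem stA_fix {α : Type*} [Fintype α] [DecidableEq α] (ψ : Perm α → Perm α) (η : ℝ) (hη : 0 < η)
    (h : ∀ σ τ, (D (ψ (σ * τ)) (ψ σ * ψ τ) : ℝ) ≤ η ^ 3 * Fintype.card α) (τ : Perm α) :
    (({j | η * NN α < (Ds (sh τ (ev ψ j)) (ev ψ (ψ τ j)) : ℝ)} : Set α).ncard : ℝ) ≤
      η ^ 2 * Fintype.card α := by
  have hN : 0 < NN α := StA_NN_pos
  have h1 := StA_markov (fun j => (Ds (sh τ (ev ψ j)) (ev ψ (ψ τ j)) : ℝ))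
    (fun _ => Nat.cast_nonneg _) (η * NN α)
  have h2 : ∑ σ : Perm α, (D (ψ (σ * τ)) (ψ σ * ψ τ) : ℝ) ≤ NN α * (η ^ 3 * Fintype.card α) := by
    refine (Finset.sum_le_card_nsmul univ _ _ fun σ _ => h σ τ).trans_eq ?_
    rw [nsmul_eq_mul, card_univ]
    rfl
  rw [StA_swap] at h1
  have h3 := h1.trans h2
  have h4 : 0 < η * NN α := mul_pos hη hN
  refine le_of_mul_le_mul_right ?_ h4
  refine h3.trans_eq ?_
  ring

theorem StA_swap2 {α : Type*} [Fintype α] [DecidableEq α] (ψ : Perm α → Perm α) (η : ℝ) :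
    ∑ j : α, ((bad ψ η j).ncard : ℝ) = ∑ τ : Perm α,
      (({j | η * NN α < (Ds (sh τ (ev ψ j)) (ev ψ (ψ τ j)) : ℝ)} : Set α).ncard : ℝ) := by
  classical
  have h1 : ∀ j : α, ((bad ψ η j).ncard : ℝ) = ∑ τ : Perm α,
      if η * NN α < (Ds (sh τ (ev ψ j)) (ev ψ (ψ τ j)) : ℝ) then (1 : ℝ) else 0 :=
    fun j => StA_ncard _
  have h2 : ∀ τ : Perm α,
      (({j | η * NN α < (Ds (sh τ (ev ψ j)) (ev ψ (ψ τ j)) : ℝ)} : Set α).ncard : ℝ) = ∑ j : α,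
      if η * NN α < (Ds (sh τ (ev ψ j)) (ev ψ (ψ τ j)) : ℝ) then (1 : ℝ) else 0 :=
    fun τ => StA_ncard _
  simp_rw [h1, h2]
  exact Finset.sum_comm

theorem stA_good {α : Type*} [Fintype α] [DecidableEq α] (ψ : Perm α → Perm α) (η : ℝ) (hη : 0 < η)
    (h : ∀ σ τ, (D (ψ (σ * τ)) (ψ σ * ψ τ) : ℝ) ≤ η ^ 3 * Fintype.card α) :
    (({j | ¬ Good ψ η j} : Set α).ncard : ℝ) ≤ η * Fintype.card α := by
  have hN : 0 < NN α := StA_NN_pos
  have h0 : ({j | ¬ Good ψ η j} : Set α) = {j | η * NN α < ((bad ψ η j).ncard : ℝ)} := by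
    ext j
    simp [Good]
  have h1 := StA_markov (fun j => ((bad ψ η j).ncard : ℝ)) (fun _ => Nat.cast_nonneg _) (η * NN α)
  have h2 : ∑ j : α, ((bad ψ η j).ncard : ℝ) ≤ NN α * (η ^ 2 * Fintype.card α) := by
    rw [StA_swap2]
    refine (Finset.sum_le_card_nsmul univ _ _ fun τ _ => stA_fix ψ η hη h τ).trans_eq ?_
    rw [nsmul_eq_mul, card_univ]
    rfl
  have h3 := h1.trans h2
  have h4 : 0 < η * NN α := mul_pos hη hN
  rw [h0]
  refine le_of_mul_le_mul_right ?_ h4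
  refine h3.trans_eq ?_
  ring

end Pool.Agent.helper4.UP
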