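import Pool.Agent.helper4.UP.Defs

/-!
# UP-StB: the almost stabilizers are subgroups of small index

PROOF.  N = NN α = number of permutations (as a real), F_j = ev ψ j.  Ds is a metric on functions, invariant under sh τ
(bijection σ ↦ σ * τ), sh τ (sh κ F) = sh (τ * κ) F, Ds F_i F_j = N for i ≠ j (ψ σ is injective).
(dich) j good: less than N/2 permutations τ are bad, so (2η < 1) there is τ with τ and τ * κ not bad:
Ds F_j (sh κ F_j) = Ds (sh τ F_j) (sh (τ * κ) F_j), and sh τ F_j is within η N of F_{ψ τ j}, sh (τ * κ) F_j is within η N of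
F_{ψ (τ * κ) j}; the two points are equal (then ≤ 2 η N) or not (then ≥ N - 2 η N).
(sub) 4η < 1 - 2η: closed under products (Ds F_j (sh (κ * κ') F_j) ≤ 4 η N < (1 - 2η) N, use dich), inverses, contains 1.
Size: the at least (1-η) N not bad τ are mapped by τ ↦ ψ τ j to α; two with the same image satisfy
Ds (sh τ F_j) (sh τ' F_j) ≤ 2 η N, so τ⁻¹ * τ' ∈ H: each fibre is contained in a left coset of H.  So
(1-η) N ≤ n |H|, i.e. (1-η) * index ≤ n.
(conj) κ' = σ * κ * σ⁻¹: Ds F_{j'} (sh κ' F_{j'}) ≤ Ds F_{j'} (sh σ F_j) + Ds (sh σ F_j) (sh κ' (sh σ F_j)) +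
Ds (sh κ' (sh σ F_j)) (sh κ' F_{j'}) ≤ η N + 2 η N + η N = 4 η N < (1 - 2η) N, use dich for j'; the converse in the same way
with dich for j.
-/

set_option autoImplicit false

open Finset Filter Topology
open Equiv (Perm)
open scoped Pointwise

namespace Pool.Agent.helper4.UP

theorem Ds_ev_ne {α : Type*} [Fintype α] [DecidableEq α] (ψ : Perm α → Perm α) {i j : α} (h : i ≠ j) :
    (Ds (ev ψ i) (ev ψ j) : ℝ) = NN α := by
  have h1 : (univ.filter fun σ => ev ψ i σ ≠ ev ψ j σ) = (univ : Finset (Perm α)) := by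
    rw [Finset.filter_eq_self]
    intro σ _ hcon
    exact h ((ψ σ).injective hcon)
  unfold Ds NN
  rw [h1, Finset.card_univ]

theorem Ds_triangle {α : Type*} [Fintype α] [DecidableEq α] (F G K : Perm α → α) :
    Ds F K ≤ Ds F G + Ds G K := by
  unfold Ds
  refine (card_le_card ?_).trans (card_union_le _ _)
  intro i hi
  simp only [mem_filter, mem_univ, true_and, mem_union] at hi ⊢
  by_contra hcon
  push Not at hcon
  exact hi (hcon.1.trans hcon.2)

theorem Ds_comm {α : Type*} [Fintype α] [DecidableEq α] (F G : Perm α → α) : Ds F G = Ds G F := by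
  unfold Ds
  congr 1
  ext i
  simp [eq_comm]

theorem StB_self {α : Type*} [Fintype α] [DecidableEq α] (F : Perm α → α) : Ds F F = 0 := by simp [Ds]

theorem StB_sh_sh {α : Type*} (τ κ : Perm α) (F : Perm α → α) : sh τ (sh κ F) = sh (τ * κ) F := by
  funext σ
  simp only [sh, mul_assoc]

theorem StB_sh_one {α : Type*} (F : Perm α → α) : sh 1 F = F := by
  funext σ
  simp only [sh, mul_one]

theorem StB_inv {α : Type*} [Fintype α] [DecidableEq α] (τ : Perm α) (F G : Perm α → α) :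
    Ds (sh τ F) (sh τ G) = Ds F G := by
  unfold Ds
  refine card_bij (fun σ _ => σ * τ) ?_ ?_ ?_
  · intro σ hσ
    simpa [sh] using hσ
  · intro σ _ σ' _ h
    exact mul_right_cancel h
  · intro σ hσ
    refine ⟨σ * τ⁻¹, ?_, ?_⟩
    · simpa [sh] using hσ
    · simp

theorem StB_triR {α : Type*} [Fintype α] [DecidableEq α] (F G K : Perm α → α) :
    (Ds F K : ℝ) ≤ Ds F G + Ds G K := by
  exact_mod_cast Ds_triangle F G K

theorem StB_NNpos (α : Type*) [Fintype α] [DecidableEq α] : 0 < NN α := by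
  unfold NN
  exact_mod_cast Fintype.card_pos

theorem StB_exists {α : Type*} [Fintype α] [DecidableEq α] (ψ : Perm α → Perm α) (η : ℝ)
    (hη' : η ≤ 1 / 10) (j : α) (hj : Good ψ η j) (κ : Perm α) :
    ∃ τ, τ ∉ bad ψ η j ∧ τ * κ ∉ bad ψ η j := by
  classical
  by_contra hcon
  push Not at hcon
  have hN := StB_NNpos α
  have h1 : (Set.univ : Set (Perm α)) ⊆ bad ψ η j ∪ (fun τ => τ * κ) ⁻¹' bad ψ η j := by
    intro τ _
    by_cases h : τ ∈ bad ψ η j
    · exact Or.inl h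
    · exact Or.inr (hcon τ h)
  have h2 := Set.ncard_le_ncard h1 (Set.toFinite _)
  have h3 := h2.trans (Set.ncard_union_le _ _)
  have h4 : ((fun τ => τ * κ) ⁻¹' bad ψ η j).ncard = (bad ψ η j).ncard :=
    Set.ncard_preimage_of_injective_subset_range (mul_left_injective κ)
      (by intro τ _; exact ⟨τ * κ⁻¹, by simp⟩)
  rw [h4, Set.ncard_univ, Nat.card_eq_fintype_card] at h3
  have h5 : NN α ≤ (bad ψ η j).ncard + (bad ψ η j).ncard := by
    unfold NN
    exact_mod_cast h3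
  have h6 : ((bad ψ η j).ncard : ℝ) ≤ η * NN α := hj
  nlinarith

theorem StB_notbad {α : Type*} [Fintype α] [DecidableEq α] {ψ : Perm α → Perm α} {η : ℝ} {j : α}
    {τ : Perm α} (h : τ ∉ bad ψ η j) : (Ds (sh τ (ev ψ j)) (ev ψ (ψ τ j)) : ℝ) ≤ η * NN α := by
  simpa [bad] using h

theorem stB_dich {α : Type*} [Fintype α] [DecidableEq α] (ψ : Perm α → Perm α) (η : ℝ) (hη : 0 < η)
    (hη' : η ≤ 1 / 10) (j : α) (hj : Good ψ η j) (κ : Perm α) :
    (Ds (ev ψ j) (sh κ (ev ψ j)) : ℝ) ≤ 2 * η * NN α ∨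
      (1 - 2 * η) * NN α ≤ (Ds (ev ψ j) (sh κ (ev ψ j)) : ℝ) := by
  obtain ⟨τ, h1, h2⟩ := StB_exists ψ η hη' j hj κ
  have h1' := StB_notbad h1
  have h2' := StB_notbad h2
  have h3 : Ds (ev ψ j) (sh κ (ev ψ j)) = Ds (sh τ (ev ψ j)) (sh (τ * κ) (ev ψ j)) := by
    rw [← StB_inv τ, StB_sh_sh]
  rw [h3]
  by_cases h : ψ τ j = ψ (τ * κ) j
  · left
    rw [← h] at h2'
    have h4 := StB_triR (sh τ (ev ψ j)) (ev ψ (ψ τ j)) (sh (τ * κ) (ev ψ j))
    rw [Ds_comm (ev ψ (ψ τ j))] at h4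
    linarith
  · right
    have h5 := Ds_ev_ne ψ h
    have h6 := StB_triR (ev ψ (ψ τ j)) (sh τ (ev ψ j)) (ev ψ (ψ (τ * κ) j))
    have h7 := StB_triR (sh τ (ev ψ j)) (sh (τ * κ) (ev ψ j)) (ev ψ (ψ (τ * κ) j))
    rw [Ds_comm (ev ψ (ψ τ j)) (sh τ (ev ψ j))] at h6
    linarith

theorem StB_mul {α : Type*} [Fintype α] [DecidableEq α] (ψ : Perm α → Perm α) (η : ℝ) (hη : 0 < η)
    (hη' : η ≤ 1 / 10) (j : α) (hj : Good ψ η j) (κ : Perm α)
    (h : (Ds (ev ψ j) (sh κ (ev ψ j)) : ℝ) ≤ 4 * η * NN α) : κ ∈ Hs ψ η j := by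
  rcases stB_dich ψ η hη hη' j hj κ with h1 | h1
  · exact h1
  · exfalso
    have hN := StB_NNpos α
    nlinarith

/-- the almost stabilizer as a subgroup -/
def StB_H {α : Type*} [Fintype α] [DecidableEq α] (ψ : Perm α → Perm α) (η : ℝ) (hη : 0 < η)
    (hη' : η ≤ 1 / 10) (j : α) (hj : Good ψ η j) : Subgroup (Perm α) where
  carrier := Hs ψ η j
  one_mem' := by
    have hN := StB_NNpos α
    change (Ds (ev ψ j) (sh 1 (ev ψ j)) : ℝ) ≤ 2 * η * NN α
    rw [StB_sh_one, StB_self, Nat.cast_zero]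
    positivity
  mul_mem' := by
    intro κ κ' h h'
    have h1 : (Ds (ev ψ j) (sh κ (ev ψ j)) : ℝ) ≤ 2 * η * NN α := h
    have h2 : (Ds (ev ψ j) (sh κ' (ev ψ j)) : ℝ) ≤ 2 * η * NN α := h'
    refine StB_mul ψ η hη hη' j hj (κ * κ') ?_
    have h3 := StB_triR (ev ψ j) (sh κ (ev ψ j)) (sh (κ * κ') (ev ψ j))
    rw [← StB_sh_sh κ κ', StB_inv κ (ev ψ j) (sh κ' (ev ψ j)), StB_sh_sh] at h3
    linarith
  inv_mem' := by
    intro κ h
    have h1 : (Ds (ev ψ j) (sh κ (ev ψ j)) : ℝ) ≤ 2 * η * NN α := h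
    change (Ds (ev ψ j) (sh κ⁻¹ (ev ψ j)) : ℝ) ≤ 2 * η * NN α
    rw [← StB_inv κ, StB_sh_sh, mul_inv_cancel, StB_sh_one, Ds_comm]
    exact h1

theorem stB_sub {α : Type*} [Fintype α] [DecidableEq α] (ψ : Perm α → Perm α) (η : ℝ) (hη : 0 < η)
    (hη' : η ≤ 1 / 10) (j : α) (hj : Good ψ η j) :
    ∃ H : Subgroup (Perm α), (∀ κ, κ ∈ H ↔ κ ∈ Hs ψ η j) ∧ (1 - η) * (H.index : ℝ) ≤ Fintype.card α := by
  classical
  refine ⟨StB_H ψ η hη hη' j hj, fun κ => Iff.rfl, ?_⟩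
  set H := StB_H ψ η hη hη' j hj with hH
  have hN := StB_NNpos α
  -- the not bad permutations
  let B : Finset (Perm α) := univ.filter fun τ => τ ∉ bad ψ η j
  have hB1 : (1 - η) * NN α ≤ (B.card : ℝ) := by
    have h1 : (bad ψ η j).ncard + B.card = Fintype.card (Perm α) := by
      have h2 : (bad ψ η j).ncard = (univ.filter fun τ => τ ∈ bad ψ η j).card := by
        rw [Set.ncard_eq_toFinset_card (bad ψ η j) (Set.toFinite _)]
        congr 1
        ext τ
        simp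
      rw [h2, ← Finset.card_univ]
      exact Finset.card_filter_add_card_filter_not _
    have h3 : ((bad ψ η j).ncard : ℝ) + B.card = NN α := by
      unfold NN
      exact_mod_cast h1
    have h4 : ((bad ψ η j).ncard : ℝ) ≤ η * NN α := hj
    linarith
  have hB2 : B.card ≤ Nat.card H * (B.image fun τ => ψ τ j).card := by
    refine Finset.card_le_mul_card_image B _ ?_
    intro a ha
    rw [Finset.mem_image] at ha
    obtain ⟨τ, hτ, hτa⟩ := ha
    have hτ' : τ ∉ bad ψ η j := by simpa [B] using hτ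
    have hfib : ∀ τ' ∈ B.filter (fun τ' => ψ τ' j = a), τ⁻¹ * τ' ∈ H := by
      intro τ' h'
      rw [Finset.mem_filter] at h'
      have h1 : τ' ∉ bad ψ η j := by simpa [B] using h'.1
      have h2 := StB_notbad h1
      have h3 := StB_notbad hτ'
      rw [h'.2] at h2
      rw [hτa] at h3
      have h4 := StB_triR (sh τ (ev ψ j)) (ev ψ a) (sh τ' (ev ψ j))
      rw [Ds_comm (ev ψ a)] at h4
      change (Ds (ev ψ j) (sh (τ⁻¹ * τ') (ev ψ j)) : ℝ) ≤ 2 * η * NN α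
      rw [← StB_inv τ, StB_sh_sh, mul_inv_cancel_left]
      linarith
    have hinj : Function.Injective
        (fun x : {x // x ∈ B.filter (fun τ' => ψ τ' j = a)} => (⟨τ⁻¹ * x.1, hfib x.1 x.2⟩ : H)) := by
      intro x y hxy
      have h1 := congrArg Subtype.val hxy
      exact Subtype.ext (mul_left_cancel h1)
    have h5 := Nat.card_le_card_of_injective _ hinj
    rw [Nat.card_eq_fintype_card, Fintype.card_coe] at h5
    exact h5
  have hB3 : (B.image fun τ => ψ τ j).card ≤ Fintype.card α := by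
    rw [← Finset.card_univ]
    exact Finset.card_le_card (Finset.subset_univ _)
  have hcard : Nat.card H * H.index = Fintype.card (Perm α) := by
    rw [← Nat.card_eq_fintype_card]
    exact H.card_mul_index
  have hHpos : (0 : ℝ) < Nat.card H := by
    exact_mod_cast Nat.card_pos
  have h6 : (B.card : ℝ) ≤ Nat.card H * Fintype.card α := by
    have : B.card ≤ Nat.card H * Fintype.card α := hB2.trans (Nat.mul_le_mul_left _ hB3)
    exact_mod_cast this
  have h7 : (Nat.card H : ℝ) * H.index = NN α := by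
    unfold NN
    exact_mod_cast hcard
  have h8 : (Nat.card H : ℝ) * ((1 - η) * H.index) ≤ Nat.card H * Fintype.card α := by
    calc (Nat.card H : ℝ) * ((1 - η) * H.index) = (1 - η) * NN α := by rw [← h7]; ring
      _ ≤ B.card := hB1
      _ ≤ _ := h6
  exact le_of_mul_le_mul_left h8 hHpos

theorem stB_conj {α : Type*} [Fintype α] [DecidableEq α] (ψ : Perm α → Perm α) (η : ℝ) (hη : 0 < η)
    (hη' : η ≤ 1 / 10) (j j' : α) (hj : Good ψ η j) (hj' : Good ψ η j') (σ : Perm α)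
    (h : (Ds (sh σ (ev ψ j)) (ev ψ j') : ℝ) ≤ η * NN α) (κ : Perm α) :
    κ ∈ Hs ψ η j ↔ σ * κ * σ⁻¹ ∈ Hs ψ η j' := by
  have e1 : sh (σ * κ * σ⁻¹) (sh σ (ev ψ j)) = sh σ (sh κ (ev ψ j)) := by
    rw [StB_sh_sh, StB_sh_sh, inv_mul_cancel_right]
  have e2 : Ds (sh σ (ev ψ j)) (sh (σ * κ * σ⁻¹) (sh σ (ev ψ j))) = Ds (ev ψ j) (sh κ (ev ψ j)) := by
    rw [e1, StB_inv]
  have e3 : Ds (sh (σ * κ * σ⁻¹) (sh σ (ev ψ j))) (sh (σ * κ * σ⁻¹) (ev ψ j')) =
      Ds (sh σ (ev ψ j)) (ev ψ j') := StB_inv _ _ _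
  constructor
  · intro hκ
    have h1 : (Ds (ev ψ j) (sh κ (ev ψ j)) : ℝ) ≤ 2 * η * NN α := hκ
    refine StB_mul ψ η hη hη' j' hj' _ ?_
    have h2 := StB_triR (ev ψ j') (sh σ (ev ψ j)) (sh (σ * κ * σ⁻¹) (ev ψ j'))
    have h3 := StB_triR (sh σ (ev ψ j)) (sh (σ * κ * σ⁻¹) (sh σ (ev ψ j))) (sh (σ * κ * σ⁻¹) (ev ψ j'))
    rw [Ds_comm (ev ψ j') (sh σ (ev ψ j))] at h2
    rw [e2, e3] at h3
    linarith
  · intro hκ
    have h1 : (Ds (ev ψ j') (sh (σ * κ * σ⁻¹) (ev ψ j')) : ℝ) ≤ 2 * η * NN α := hκ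
    refine StB_mul ψ η hη hη' j hj _ ?_
    rw [← e2]
    have h2 := StB_triR (sh σ (ev ψ j)) (ev ψ j') (sh (σ * κ * σ⁻¹) (sh σ (ev ψ j)))
    have h3 := StB_triR (ev ψ j') (sh (σ * κ * σ⁻¹) (ev ψ j')) (sh (σ * κ * σ⁻¹) (sh σ (ev ψ j)))
    rw [Ds_comm (sh (σ * κ * σ⁻¹) (ev ψ j')), e3] at h3
    linarith

end Pool.Agent.helper4.UP
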