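import Pool.Agent.helper4.UP.Cls2
import Pool.Agent.helper4.UP.StA
import Pool.Agent.helper4.UP.StB
import Pool.Agent.helper4.UP.Comb

/-!
# UP-StF: uniform stability of the symmetric group

PROOF.  η = min (ε/15) (1/10), δ = η³, n0 = 16.  H j = subgroup of stB_sub for good j: (1-η) index ≤ n gives 3 index ≤ 4 n, so
cls: alternatingGroup ≤ H j, or H j = stabilizer of a point (not both, n ≥ 3; the point is unique).  Define p j = some i if j is
good and (∀ κ, κ ∈ Hs ψ η j ↔ κ i = i), p j = none if there is no such i or j is not good.  For σ: if j and ψ σ j are good and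
Ds (sh σ (ev ψ j)) (ev ψ (ψ σ j)) ≤ η N then stB_conj: κ ∈ Hs j ↔ σ κ σ⁻¹ ∈ Hs (ψ σ j), hence p (ψ σ j) = (p j).map σ.  The
exceptions are ≤ ηn (j not good) + ηn (ψ σ j not good, ψ σ is a bijection) + η² n ≤ 3 η n.  So comb with θ = 3 η.
Second alternative of comb: D (ψ σ) (g * σ * g⁻¹) = #{i : ψ σ (g i) ≠ g (σ i)} ≤ 15 η n ≤ ε n.
First: p j ≠ none for ≤ 6 η n points.  Let σ be even.  If j is good, p j = none (so alternatingGroup ≤ H j and
Ds (ev ψ j) (sh σ (ev ψ j)) ≤ 2 η N) and Ds (sh σ (ev ψ j)) (ev ψ (ψ σ j)) ≤ η N, then Ds (ev ψ j) (ev ψ (ψ σ j)) ≤ 3 η N < N, so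
ψ σ j = j (Ds_ev_ne).  The exceptions are ≤ 6ηn + ηn + η²n ≤ 8 η n ≤ ε n.
-/

set_option autoImplicit false

open Finset Filter Topology
open Equiv (Perm)
open scoped Pointwise

namespace Pool.Agent.helper4.UP

private theorem StF_D {α : Type*} [Fintype α] [DecidableEq α] (σ τ : Perm α) :
    D σ τ = ({i | σ i ≠ τ i} : Set α).ncard := by
  unfold D
  rw [← Set.ncard_coe_finset]
  congr 1
  ext i
  simp

private theorem StF_uniq {n : ℕ} (hn : 16 ≤ n) {i i' : Fin n} (h : ∀ κ : Perm (Fin n), κ i = i ↔ κ i' = i') :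
    i = i' := by
  by_contra hne
  obtain ⟨z, hz⟩ : ∃ z : Fin n, z ∉ ({i, i'} : Finset (Fin n)) := by
    by_contra hcon
    push Not at hcon
    have h1 : (univ : Finset (Fin n)) ⊆ {i, i'} := fun x _ => hcon x
    have h2 := card_le_card h1
    rw [card_univ, Fintype.card_fin] at h2
    have h3 := card_le_two (a := i) (b := i')
    omega
  simp only [mem_insert, mem_singleton, not_or] at hz
  have h1 : (Equiv.swap i' z) i = i := Equiv.swap_apply_of_ne_of_ne hne (Ne.symm hz.1)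
  have h2 := (h (Equiv.swap i' z)).1 h1
  rw [Equiv.swap_apply_left] at h2
  exact hz.2 h2

private theorem StF_good {n : ℕ} (hn : 16 ≤ n) (ψ : Perm (Fin n) → Perm (Fin n)) (η : ℝ) (hη : 0 < η)
    (hη' : η ≤ 1 / 10) (j : Fin n) (hj : Good ψ η j) :
    (∀ σ ∈ alternatingGroup (Fin n), σ ∈ Hs ψ η j) ∨ ∃ i : Fin n, ∀ κ : Perm (Fin n), κ ∈ Hs ψ η j ↔ κ i = i := by
  obtain ⟨H, hH, hind⟩ := stB_sub ψ η hη hη' j hj
  rw [Fintype.card_fin] at hind
  have h1 : 3 * H.index ≤ 4 * Fintype.card (Fin n) := by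
    rw [Fintype.card_fin]
    have h2 : (0 : ℝ) ≤ H.index := Nat.cast_nonneg _
    have h3 : (9 / 10 : ℝ) * (H.index : ℝ) ≤ n := by nlinarith
    have h4 : (3 : ℝ) * (H.index : ℝ) ≤ 4 * n := by
      have : (0 : ℝ) ≤ n := Nat.cast_nonneg _
      linarith
    exact_mod_cast h4
  rcases cls H (by rw [Fintype.card_fin]; exact hn) h1 with h | ⟨i, hi⟩
  · left
    intro σ hσ
    exact (hH σ).1 (h hσ)
  · right
    exact ⟨i, fun κ => (hH κ).symm.trans (hi κ)⟩

theorem stab (ε : ℝ) (hε : 0 < ε) : ∃ δ : ℝ, 0 < δ ∧ ∃ n0 : ℕ, ∀ n : ℕ, n0 ≤ n →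
    ∀ ψ : Perm (Fin n) → Perm (Fin n), (∀ σ τ, (D (ψ (σ * τ)) (ψ σ * ψ τ) : ℝ) ≤ δ * n) →
      (∃ g : Perm (Fin n), ∀ σ, (D (ψ σ) (g * σ * g⁻¹) : ℝ) ≤ ε * n) ∨
      (∀ σ ∈ alternatingGroup (Fin n), (D (ψ σ) 1 : ℝ) ≤ ε * n) := by
  classical
  set η : ℝ := min (ε / 15) (1 / 10) with hηdef
  have hη : 0 < η := by
    rw [hηdef]
    exact lt_min (by positivity) (by norm_num)
  have hη' : η ≤ 1 / 10 := min_le_right _ _
  have hηε : η ≤ ε / 15 := min_le_left _ _
  refine ⟨η ^ 3, by positivity, 16, fun n hn ψ h => ?_⟩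
  have hn0 : (0 : ℝ) ≤ n := Nat.cast_nonneg _
  have hcard : Fintype.card (Fin n) = n := Fintype.card_fin n
  have hh : ∀ σ τ, (D (ψ (σ * τ)) (ψ σ * ψ τ) : ℝ) ≤ η ^ 3 * Fintype.card (Fin n) := by
    rw [hcard]; exact h
  have hfix := stA_fix ψ η hη hh
  have hgood := stA_good ψ η hη hh
  rw [hcard] at hfix hgood
  have hNN : 0 < NN (Fin n) := by
    unfold NN
    exact_mod_cast Fintype.card_pos
  have hη2 : η ^ 2 * n ≤ η * n := by
    have : η ^ 2 ≤ η := by nlinarith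
    exact mul_le_mul_of_nonneg_right this hn0
  have hbij : ∀ σ : Perm (Fin n), (({j | ¬ Good ψ η (ψ σ j)} : Set (Fin n)).ncard : ℝ) ≤ η * n := by
    intro σ
    refine le_trans ?_ hgood
    have h1 : ((ψ σ) '' {j | ¬ Good ψ η (ψ σ j)}).ncard = ({j | ¬ Good ψ η (ψ σ j)} : Set (Fin n)).ncard :=
      Set.ncard_image_of_injective _ (ψ σ).injective
    rw [← h1]
    have h2 : (ψ σ) '' {j | ¬ Good ψ η (ψ σ j)} ⊆ {j | ¬ Good ψ η j} := by
      rintro _ ⟨j, hj, rfl⟩
      exact hj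
    exact_mod_cast Set.ncard_le_ncard h2 (Set.toFinite _)
  let Q : Fin n → Fin n → Prop := fun j i => Good ψ η j ∧ ∀ κ : Perm (Fin n), κ ∈ Hs ψ η j ↔ κ i = i
  let p : Fin n → Option (Fin n) := fun j => if hq : ∃ i, Q j i then some hq.choose else none
  have hp : ∀ j i, p j = some i ↔ Q j i := by
    intro j i
    constructor
    · intro hji
      by_cases hq : ∃ i, Q j i
      · have h1 : p j = some hq.choose := dif_pos hq
        rw [h1, Option.some_inj] at hji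
        rw [← hji]
        exact hq.choose_spec
      · have h1 : p j = none := dif_neg hq
        rw [h1] at hji
        exact absurd hji (by simp)
    · intro hQ
      have hq : ∃ i, Q j i := ⟨i, hQ⟩
      have h1 : p j = some hq.choose := dif_pos hq
      rw [h1, Option.some_inj]
      refine StF_uniq hn fun κ => ?_
      rw [← hq.choose_spec.2 κ, hQ.2 κ]
  have hpn : ∀ j, p j = none ↔ ∀ i, ¬ Q j i := by
    intro j
    constructor
    · intro hj i hQ
      rw [(hp j i).2 hQ] at hj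
      exact absurd hj (by simp)
    · intro hj
      exact dif_neg (by push Not; exact hj)
  have hmain : ∀ σ : Perm (Fin n), (({j | p (ψ σ j) ≠ (p j).map σ} : Set (Fin n)).ncard : ℝ) ≤ 3 * η * n := by
    intro σ
    have hsub : ({j | p (ψ σ j) ≠ (p j).map σ} : Set (Fin n)) ⊆
        ({j | ¬ Good ψ η j} ∪ {j | ¬ Good ψ η (ψ σ j)}) ∪
          {j | η * NN (Fin n) < (Ds (sh σ (ev ψ j)) (ev ψ (ψ σ j)) : ℝ)} := by
      intro j hj
      by_contra hcon
      simp only [Set.mem_union, Set.mem_ofPred_eq, not_or, not_not, not_lt] at hcon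
      obtain ⟨⟨hg1, hg2⟩, hd⟩ := hcon
      apply hj
      have hconj := stB_conj ψ η hη hη' j (ψ σ j) hg1 hg2 σ hd
      rcases hpj : p j with _ | i
      · rw [Option.map_none, hpn]
        intro i' hQ
        rw [hpn] at hpj
        refine hpj (σ⁻¹ i') ⟨hg1, fun κ => ?_⟩
        rw [hconj κ, hQ.2]
        simp only [Perm.coe_mul, Function.comp_apply]
        exact Equiv.Perm.eq_inv_iff_eq.symm
      · rw [Option.map_some, hp]
        rw [hp] at hpj
        refine ⟨hg2, fun κ => ?_⟩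
        have h1 := hconj (σ⁻¹ * κ * σ)
        have h2 : σ * (σ⁻¹ * κ * σ) * σ⁻¹ = κ := by group
        rw [h2] at h1
        rw [← h1, hpj.2]
        simp only [Perm.coe_mul, Function.comp_apply]
        exact Equiv.Perm.inv_eq_iff_eq
    have h1 : ({j | p (ψ σ j) ≠ (p j).map σ} : Set (Fin n)).ncard ≤
        (({j | ¬ Good ψ η j} : Set (Fin n)).ncard + ({j | ¬ Good ψ η (ψ σ j)} : Set (Fin n)).ncard) +
          ({j | η * NN (Fin n) < (Ds (sh σ (ev ψ j)) (ev ψ (ψ σ j)) : ℝ)} : Set (Fin n)).ncard := by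
      refine (Set.ncard_le_ncard hsub (Set.toFinite _)).trans ?_
      refine (Set.ncard_union_le _ _).trans ?_
      exact Nat.add_le_add_right (Set.ncard_union_le _ _) _
    have h2 : (({j | p (ψ σ j) ≠ (p j).map σ} : Set (Fin n)).ncard : ℝ) ≤
        ((({j | ¬ Good ψ η j} : Set (Fin n)).ncard : ℝ) + (({j | ¬ Good ψ η (ψ σ j)} : Set (Fin n)).ncard : ℝ)) +
          (({j | η * NN (Fin n) < (Ds (sh σ (ev ψ j)) (ev ψ (ψ σ j)) : ℝ)} : Set (Fin n)).ncard : ℝ) := by
      exact_mod_cast h1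
    have h3 := hbij σ
    have h4 := hfix σ
    linarith
  rcases comb n (by omega) (3 * η) (by positivity) ψ p hmain with hA | ⟨g, hg⟩
  · right
    intro σ hσ
    have hsub : ({j | ψ σ j ≠ (1 : Perm (Fin n)) j} : Set (Fin n)) ⊆
        ({j | p j ≠ none} ∪ {j | ¬ Good ψ η j}) ∪
          {j | η * NN (Fin n) < (Ds (sh σ (ev ψ j)) (ev ψ (ψ σ j)) : ℝ)} := by
      intro j hj
      by_contra hcon
      simp only [Set.mem_union, Set.mem_ofPred_eq, not_or, not_not, not_lt] at hcon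
      obtain ⟨⟨hpj, hg1⟩, hd⟩ := hcon
      rw [hpn] at hpj
      have h1 : σ ∈ Hs ψ η j := by
        rcases StF_good hn ψ η hη hη' j hg1 with h | ⟨i, hi⟩
        · exact h σ hσ
        · exact absurd ⟨hg1, hi⟩ (hpj i)
      have h2 : (Ds (ev ψ j) (sh σ (ev ψ j)) : ℝ) ≤ 2 * η * NN (Fin n) := h1
      have h3 : (Ds (ev ψ j) (ev ψ (ψ σ j)) : ℝ) ≤
          (Ds (ev ψ j) (sh σ (ev ψ j)) : ℝ) + (Ds (sh σ (ev ψ j)) (ev ψ (ψ σ j)) : ℝ) := by
        exact_mod_cast Ds_triangle _ _ _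
      have hne : j ≠ ψ σ j := fun h => hj (by rw [← h]; rfl)
      have h4 := Ds_ev_ne ψ hne
      rw [h4] at h3
      have h5 : η * NN (Fin n) ≤ 1 / 10 * NN (Fin n) := mul_le_mul_of_nonneg_right hη' hNN.le
      linarith
    have h1 : ({j | ψ σ j ≠ (1 : Perm (Fin n)) j} : Set (Fin n)).ncard ≤
        (({j | p j ≠ none} : Set (Fin n)).ncard + ({j | ¬ Good ψ η j} : Set (Fin n)).ncard) +
          ({j | η * NN (Fin n) < (Ds (sh σ (ev ψ j)) (ev ψ (ψ σ j)) : ℝ)} : Set (Fin n)).ncard := by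
      refine (Set.ncard_le_ncard hsub (Set.toFinite _)).trans ?_
      refine (Set.ncard_union_le _ _).trans ?_
      exact Nat.add_le_add_right (Set.ncard_union_le _ _) _
    have h2 : (({j | ψ σ j ≠ (1 : Perm (Fin n)) j} : Set (Fin n)).ncard : ℝ) ≤
        ((({j | p j ≠ none} : Set (Fin n)).ncard : ℝ) + (({j | ¬ Good ψ η j} : Set (Fin n)).ncard : ℝ)) +
          (({j | η * NN (Fin n) < (Ds (sh σ (ev ψ j)) (ev ψ (ψ σ j)) : ℝ)} : Set (Fin n)).ncard : ℝ) := by
      exact_mod_cast h1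
    have h4 := hfix σ
    rw [StF_D]
    have h5 : 15 * (η * n) ≤ ε * n := by
      have := mul_le_mul_of_nonneg_right hηε hn0
      linarith
    have h6 : 0 ≤ η * n := by positivity
    linarith
  · left
    refine ⟨g, fun σ => ?_⟩
    have h1 : D (ψ σ) (g * σ * g⁻¹) = D (ψ σ * g) (g * σ) := by
      have h2 := D_mul_right (ψ σ) (g * σ * g⁻¹) g
      rw [inv_mul_cancel_right] at h2
      exact h2.symm
    rw [h1, StF_D]
    have h2 := hg σ
    have h5 : 15 * (η * n) ≤ ε * n := by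
      have := mul_le_mul_of_nonneg_right hηε hn0
      linarith
    have h3 : ({i | (ψ σ * g) i ≠ (g * σ) i} : Set (Fin n)) = {i | ψ σ (g i) ≠ g (σ i)} := rfl
    rw [h3]
    linarith

end Pool.Agent.helper4.UP
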