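import Pool.Agent.helper4.UP.CDefs
import Pool.Agent.helper4.UP.Adv
import Pool.Agent.helper4.UP.Cent
import Pool.Agent.helper4.UP.StF

/-!
# UP-CInnA: a nontrivial endomorphism with a lift in the sense of Caus is inner on finite sets

PROOF.  Let 𝕌 be the list u 0, ..., u (I-1) together with the constant sequence 1 (call u' 0 = 1, u' (i+1) = u i).
(0) There is a sequence v of EVEN permutations and ε0 > 0 with D (f n v) 1 > ε0 n U-mostly (hφ; every class has an even representative,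
as Inn_even in Inn.lean; ultrafilter).
(1) Adversary: T n = Bool × Perm (Fin n) × Perm (Fin n) × Perm (Fin n).  For s : ∀ l, T l let vb l = v l if the bit is true and 1 otherwise, X1, X2, X3 the
three sequences of permutations.  For y : T n put ŝ = Function.update s n y.  V n s y is the sum of (all computed with ŝ)
 (R0) if y.1 then max (ε0 n - D (f n vb) 1) 0 else D (f n vb) 1
 (R1) D (f n (vb X1)) (f n vb * f n X1)
 (R3) D (f n (X1 X3)) (f n X1 * f n X3)
 and for every u in the list: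
 (R5) D (f n (u X2)) (f n u * f n X2)
 (R6) D (f n (X1 (u X2))) (f n X1 * f n (u X2))
 (R7) D (f n ((u X2) X3)) (f n (u X2) * f n X3)
(products of sequences pointwise).  V n s y depends only on s l, l < n, and y (Caus).  For every s, V n s (s n) ≤ δ n U-mostly
(update s n (s n) = s): R1 ... R7 by multiplicativity of φ; R0: if the bit is true U-mostly then cl vb = cl v, otherwise cl vb = 1.
adv gives s with ∀ δ > 0, U-mostly ∀ y, V n s y ≤ δ n.
(2) Fix such n.  P y = f n (update X1 n y), P2 z = f n (update X3 n z), Q3 w = f n (update (X1 X3) n w), for u in the list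
Pu z = f n (update (u X2) n z) (the present of X2 is (u n)⁻¹ z), Q6 w = f n (update (X1 u X2) n w), Q7 w = f n (update (u X2 X3) n w).
Then the hypotheses h3, h6, h7 of fin_lemma hold with k = ⌊δ n⌋.
biaff and stab (for ε' small): ψ y = P y (P 1)⁻¹ is 4 δ n-multiplicative, so (a) ∃ g, D (ψ y) (g y g⁻¹) ≤ ε' n for all y, or (b)
D (ψ y) 1 ≤ ε' n for all even y.  (b) is impossible: a1 = f n (update vb n (v n)), D a1 1 ≥ (ε0 - δ) n (R0, bit true); a0 = f n (update vb n 1),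
D a0 1 ≤ δ n (R0, bit false); R1 with (bit false, y = v n) and (bit true, y = 1) both have the product vb X1 with present v n at n:
a0 * P (v n) ≈ f n (update (vb X1) n (v n)) ≈ a1 * P 1, so ψ (v n) ≈ a1 (error 3 δ n), v n is even, contradiction if ε' + 4 δ < ε0.
(3) So (a), i.e. hg of fin_lemma with k = ⌊ε' n⌋ + ⌊δ n⌋, g' = (P 1)⁻¹ g: D (Pu z) (g' z g'⁻¹) ≤ 27 k + 3 for every u in the list; for
u = 1: f n (update X2 n z) ≈ g' z g'⁻¹, at z = 1 it is near 1.  R5 with present 1 of X2: f n (update (u X2) n (u n)) ≈ f n u * f n (update X2 n 1),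
the left side is Pu (u n) ≈ g' (u n) g'⁻¹, so f n u ≈ g' (u n) g'⁻¹, with total error ≤ 60 k + 10 ≤ ε n for large n (hU) and small ε', δ.
-/

set_option autoImplicit false

open Finset Filter Topology
open Equiv (Perm)
open scoped Pointwise

namespace Pool.Agent.helper4.UP

/-- an even permutation near a given one -/
private theorem CInnA_even (n : ℕ) (σ : Perm (Fin n)) : ∃ s : Perm (Fin n), 2 ≤ n →
    (s ∈ alternatingGroup (Fin n) ∧ D σ s ≤ 2) := by
  by_cases hn : 2 ≤ n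
  · by_cases hσ : σ ∈ alternatingGroup (Fin n)
    · exact ⟨σ, fun _ => ⟨hσ, by rw [D_self]; omega⟩⟩
    · have h01 : (⟨0, by omega⟩ : Fin n) ≠ ⟨1, by omega⟩ := by
        intro h
        simpa using congrArg Fin.val h
      refine ⟨σ * Equiv.swap (⟨0, by omega⟩ : Fin n) ⟨1, by omega⟩, fun _ => ⟨?_, ?_⟩⟩
      · rw [Equiv.Perm.mem_alternatingGroup] at hσ ⊢
        rcases Int.units_eq_one_or (Equiv.Perm.sign σ) with h1 | h1
        · exact absurd h1 hσ
        · rw [map_mul, h1, Equiv.Perm.sign_swap h01]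
          rfl
      · have h1 : D σ (σ * Equiv.swap (⟨0, by omega⟩ : Fin n) ⟨1, by omega⟩) =
            D 1 (Equiv.swap (⟨0, by omega⟩ : Fin n) ⟨1, by omega⟩) := by
          have := D_mul_left 1 (Equiv.swap (⟨0, by omega⟩ : Fin n) ⟨1, by omega⟩) σ
          rwa [mul_one] at this
        rw [h1]
        unfold D
        refine (card_le_card (t := {⟨0, by omega⟩, ⟨1, by omega⟩}) ?_).trans card_le_two
        intro i hi
        simp only [mem_filter, mem_univ, true_and] at hi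
        simp only [mem_insert, mem_singleton]
        by_contra hcon
        push Not at hcon
        exact hi (Equiv.swap_apply_of_ne_of_ne hcon.1 hcon.2).symm
  · exact ⟨1, fun h => absurd h hn⟩

/-- sequences of permutations -/
abbrev CInnA_SQ : Type := ∀ l : ℕ, Perm (Fin l)

/-- the moves of the adversary -/
abbrev CInnA_T (l : ℕ) : Type := Bool × Perm (Fin l) × Perm (Fin l) × Perm (Fin l)

/-- the switched sequence -/
def CInnA_vb (v : CInnA_SQ) (s : ∀ l, CInnA_T l) : CInnA_SQ := fun l => if (s l).1 = true then v l else 1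

/-- first sequence -/
def CInnA_x1 (s : ∀ l, CInnA_T l) : CInnA_SQ := fun l => (s l).2.1

/-- second sequence -/
def CInnA_x2 (s : ∀ l, CInnA_T l) : CInnA_SQ := fun l => (s l).2.2.1

/-- third sequence -/
def CInnA_x3 (s : ∀ l, CInnA_T l) : CInnA_SQ := fun l => (s l).2.2.2

theorem CInnA_vb_up (v : CInnA_SQ) (s : ∀ l, CInnA_T l) (n : ℕ) (y : CInnA_T n) :
    CInnA_vb v (Function.update s n y) = Function.update (CInnA_vb v s) n (if y.1 = true then v n else 1) := by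
  funext l
  by_cases h : l = n
  · subst h
    simp [CInnA_vb]
  · simp [CInnA_vb, Function.update_of_ne h]

theorem CInnA_x1_up (s : ∀ l, CInnA_T l) (n : ℕ) (y : CInnA_T n) :
    CInnA_x1 (Function.update s n y) = Function.update (CInnA_x1 s) n y.2.1 := by
  funext l
  by_cases h : l = n
  · subst h
    simp [CInnA_x1]
  · simp [CInnA_x1, Function.update_of_ne h]

theorem CInnA_x2_up (s : ∀ l, CInnA_T l) (n : ℕ) (y : CInnA_T n) :
    CInnA_x2 (Function.update s n y) = Function.update (CInnA_x2 s) n y.2.2.1 := by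
  funext l
  by_cases h : l = n
  · subst h
    simp [CInnA_x2]
  · simp [CInnA_x2, Function.update_of_ne h]

theorem CInnA_x3_up (s : ∀ l, CInnA_T l) (n : ℕ) (y : CInnA_T n) :
    CInnA_x3 (Function.update s n y) = Function.update (CInnA_x3 s) n y.2.2.2 := by
  funext l
  by_cases h : l = n
  · subst h
    simp [CInnA_x3]
  · simp [CInnA_x3, Function.update_of_ne h]

theorem CInnA_mul_up (a b : CInnA_SQ) (n : ℕ) (y z : Perm (Fin n)) :
    Function.update a n y * Function.update b n z = Function.update (a * b) n (y * z) := by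
  funext l
  by_cases h : l = n
  · subst h
    simp
  · simp [Function.update_of_ne h]

/-- the number of the points where the relations fail -/
noncomputable def CInnA_W (f : ∀ n : ℕ, CInnA_SQ → Perm (Fin n)) (v : CInnA_SQ) (u : ℕ → CInnA_SQ) (m : ℕ) (ε0 : ℝ)
    (n : ℕ) (s : ∀ l, CInnA_T l) : ℝ :=
  (if (s n).1 = true then max (ε0 * n - (D (f n (CInnA_vb v s)) 1 : ℝ)) 0 else (D (f n (CInnA_vb v s)) 1 : ℝ)) +
    (D (f n (CInnA_vb v s * CInnA_x1 s)) (f n (CInnA_vb v s) * f n (CInnA_x1 s)) : ℝ) +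
    (D (f n (CInnA_x1 s * CInnA_x3 s)) (f n (CInnA_x1 s) * f n (CInnA_x3 s)) : ℝ) +
    ∑ i ∈ range m, ((D (f n (u i * CInnA_x2 s)) (f n (u i) * f n (CInnA_x2 s)) : ℝ) +
      (D (f n (CInnA_x1 s * (u i * CInnA_x2 s))) (f n (CInnA_x1 s) * f n (u i * CInnA_x2 s)) : ℝ) +
      (D (f n ((u i * CInnA_x2 s) * CInnA_x3 s)) (f n (u i * CInnA_x2 s) * f n (CInnA_x3 s)) : ℝ))

theorem CInnA_W_congr (f : ∀ n : ℕ, CInnA_SQ → Perm (Fin n)) (hfc : Caus f) (v : CInnA_SQ) (u : ℕ → CInnA_SQ) (m : ℕ)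
    (ε0 : ℝ) (n : ℕ) (s s' : ∀ l, CInnA_T l) (h : ∀ l, l ≤ n → s l = s' l) :
    CInnA_W f v u m ε0 n s = CInnA_W f v u m ε0 n s' := by
  have e0 : (s n).1 = (s' n).1 := by rw [h n le_rfl]
  have e1 : f n (CInnA_vb v s) = f n (CInnA_vb v s') := hfc n _ _ fun l hl => by
    simp only [CInnA_vb, h l hl]
  have e2 : f n (CInnA_vb v s * CInnA_x1 s) = f n (CInnA_vb v s' * CInnA_x1 s') := hfc n _ _ fun l hl => by
    simp only [CInnA_vb, CInnA_x1, Pi.mul_apply, h l hl]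
  have e3 : f n (CInnA_x1 s) = f n (CInnA_x1 s') := hfc n _ _ fun l hl => by
    simp only [CInnA_x1, h l hl]
  have e4 : f n (CInnA_x1 s * CInnA_x3 s) = f n (CInnA_x1 s' * CInnA_x3 s') := hfc n _ _ fun l hl => by
    simp only [CInnA_x1, CInnA_x3, Pi.mul_apply, h l hl]
  have e5 : f n (CInnA_x3 s) = f n (CInnA_x3 s') := hfc n _ _ fun l hl => by
    simp only [CInnA_x3, h l hl]
  have e6 : f n (CInnA_x2 s) = f n (CInnA_x2 s') := hfc n _ _ fun l hl => by
    simp only [CInnA_x2, h l hl]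
  have e7 : ∀ i, f n (u i * CInnA_x2 s) = f n (u i * CInnA_x2 s') := fun i => hfc n _ _ fun l hl => by
    simp only [CInnA_x2, Pi.mul_apply, h l hl]
  have e8 : ∀ i, f n (CInnA_x1 s * (u i * CInnA_x2 s)) = f n (CInnA_x1 s' * (u i * CInnA_x2 s')) :=
    fun i => hfc n _ _ fun l hl => by
      simp only [CInnA_x1, CInnA_x2, Pi.mul_apply, h l hl]
  have e9 : ∀ i, f n ((u i * CInnA_x2 s) * CInnA_x3 s) = f n ((u i * CInnA_x2 s') * CInnA_x3 s') :=
    fun i => hfc n _ _ fun l hl => by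
      simp only [CInnA_x3, CInnA_x2, Pi.mul_apply, h l hl]
  unfold CInnA_W
  rw [e0, e1, e2, e3, e4, e5, e6]
  simp only [e7, e8, e9]

/-- small sequences -/
def CInnA_sm (U : Filter ℕ) (q : ℕ → ℝ) : Prop := ∀ δ : ℝ, 0 < δ → ∀ᶠ n : ℕ in U, q n ≤ δ * n

theorem CInnA_sm.add {U : Filter ℕ} {q r : ℕ → ℝ} (hq : CInnA_sm U q) (hr : CInnA_sm U r) :
    CInnA_sm U (fun n => q n + r n) := by
  intro δ hδ
  filter_upwards [hq (δ / 2) (by positivity), hr (δ / 2) (by positivity)] with n h1 h2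
  have : δ * (n : ℝ) = δ / 2 * n + δ / 2 * n := by ring
  linarith

theorem CInnA_sm.sum {U : Filter ℕ} {q : ℕ → ℕ → ℝ} (m : ℕ) (hq : ∀ i, CInnA_sm U (q i)) :
    CInnA_sm U (fun n => ∑ i ∈ range m, q i n) := by
  induction m with
  | zero =>
    intro δ hδ
    refine Eventually.of_forall fun n => ?_
    simp only [range_zero, sum_empty]
    positivity
  | succ m ih =>
    simp only [sum_range_succ]
    exact ih.add (hq m)

theorem CInnA_mult (U : Filter ℕ) (φ : GU U →* GU U) (f : ∀ n : ℕ, CInnA_SQ → Perm (Fin n))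
    (hf : ∀ σ : ∀ n : ℕ, Perm (Fin n), φ (cl U σ) = cl U (fun n => f n σ)) (σ τ : CInnA_SQ) :
    CInnA_sm U (fun n => (D (f n (σ * τ)) (f n σ * f n τ) : ℝ)) := by
  have e2 : cl U (σ * τ) = cl U σ * cl U τ := cl_mul _ _
  have e3 : cl U (fun n => f n σ * f n τ) = cl U (fun n => f n σ) * cl U (fun n => f n τ) := cl_mul _ _
  have e1 := hf (σ * τ)
  rw [e2, map_mul, hf, hf, ← e3] at e1
  exact (cl_eq_iff' _ _).1 e1.symm

theorem CInnA_R0 (U : Ultrafilter ℕ) (φ : GU (U : Filter ℕ) →* GU (U : Filter ℕ))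
    (f : ∀ n : ℕ, CInnA_SQ → Perm (Fin n))
    (hf : ∀ σ : ∀ n : ℕ, Perm (Fin n), φ (cl (U : Filter ℕ) σ) = cl (U : Filter ℕ) (fun n => f n σ))
    (v : CInnA_SQ) (ε0 : ℝ) (hv : ∀ᶠ n in (U : Filter ℕ), ε0 * n < (D (f n v) 1 : ℝ)) (s : ∀ l, CInnA_T l) :
    CInnA_sm (U : Filter ℕ) (fun n => if (s n).1 = true then max (ε0 * n - (D (f n (CInnA_vb v s)) 1 : ℝ)) 0
      else (D (f n (CInnA_vb v s)) 1 : ℝ)) := by
  intro δ hδ
  by_cases hb : ∀ᶠ n in (U : Filter ℕ), (s n).1 = true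
  · have e1 : cl (U : Filter ℕ) (CInnA_vb v s) = cl (U : Filter ℕ) v := by
      rw [cl_eq_iff']
      intro ε hε
      filter_upwards [hb] with n hn
      have : CInnA_vb v s n = v n := by simp [CInnA_vb, hn]
      rw [this, D_self]
      simp only [Nat.cast_zero]
      positivity
    have e2 := hf (CInnA_vb v s)
    rw [e1, hf] at e2
    have e3 := (cl_eq_iff' _ _).1 e2 δ hδ
    filter_upwards [hb, e3, hv] with n h1 h2 h3
    rw [if_pos h1]
    refine max_le ?_ (by positivity)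
    have h4 : (D (f n v) 1 : ℝ) ≤ (D (f n v) (f n (CInnA_vb v s)) : ℝ) + (D (f n (CInnA_vb v s)) 1 : ℝ) := by
      exact_mod_cast D_triangle _ _ _
    linarith
  · rw [← Ultrafilter.eventually_not] at hb
    have e1 : cl (U : Filter ℕ) (CInnA_vb v s) = 1 := by
      have e0 : (1 : GU (U : Filter ℕ)) = cl (U : Filter ℕ) (fun _ => 1) := rfl
      rw [e0, cl_eq_iff']
      intro ε hε
      filter_upwards [hb] with n hn
      have : CInnA_vb v s n = 1 := by
        unfold CInnA_vb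
        rw [if_neg hn]
      rw [this, D_self]
      simp only [Nat.cast_zero]
      positivity
    have e2 := hf (CInnA_vb v s)
    rw [e1, map_one] at e2
    have e0 : (1 : GU (U : Filter ℕ)) = cl (U : Filter ℕ) (fun _ => 1) := rfl
    rw [e0] at e2
    have e3 := (cl_eq_iff' _ _).1 e2.symm δ hδ
    filter_upwards [hb, e3] with n h1 h2
    rw [if_neg h1]
    exact h2

theorem CInnA_W_small (U : Ultrafilter ℕ) (φ : GU (U : Filter ℕ) →* GU (U : Filter ℕ))
    (f : ∀ n : ℕ, CInnA_SQ → Perm (Fin n))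
    (hf : ∀ σ : ∀ n : ℕ, Perm (Fin n), φ (cl (U : Filter ℕ) σ) = cl (U : Filter ℕ) (fun n => f n σ))
    (v : CInnA_SQ) (u : ℕ → CInnA_SQ) (m : ℕ) (ε0 : ℝ)
    (hv : ∀ᶠ n in (U : Filter ℕ), ε0 * n < (D (f n v) 1 : ℝ)) (s : ∀ l, CInnA_T l) :
    CInnA_sm (U : Filter ℕ) (fun n => CInnA_W f v u m ε0 n s) := by
  unfold CInnA_W
  exact (((CInnA_R0 U φ f hf v ε0 hv s).add (CInnA_mult _ φ f hf _ _)).add (CInnA_mult _ φ f hf _ _)).add
    (CInnA_sm.sum m fun i => ((CInnA_mult _ φ f hf _ _).add (CInnA_mult _ φ f hf _ _)).add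
      (CInnA_mult _ φ f hf _ _))

theorem CInnA_W_terms (f : ∀ n : ℕ, CInnA_SQ → Perm (Fin n)) (v : CInnA_SQ) (u : ℕ → CInnA_SQ) (m : ℕ)
    (ε0 c : ℝ) (n : ℕ) (s : ∀ l, CInnA_T l) (h : CInnA_W f v u m ε0 n s ≤ c) :
    (if (s n).1 = true then max (ε0 * n - (D (f n (CInnA_vb v s)) 1 : ℝ)) 0 else (D (f n (CInnA_vb v s)) 1 : ℝ)) ≤ c ∧
    (D (f n (CInnA_vb v s * CInnA_x1 s)) (f n (CInnA_vb v s) * f n (CInnA_x1 s)) : ℝ) ≤ c ∧
    (D (f n (CInnA_x1 s * CInnA_x3 s)) (f n (CInnA_x1 s) * f n (CInnA_x3 s)) : ℝ) ≤ c ∧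
    ∀ i < m, (D (f n (u i * CInnA_x2 s)) (f n (u i) * f n (CInnA_x2 s)) : ℝ) ≤ c ∧
      (D (f n (CInnA_x1 s * (u i * CInnA_x2 s))) (f n (CInnA_x1 s) * f n (u i * CInnA_x2 s)) : ℝ) ≤ c ∧
      (D (f n ((u i * CInnA_x2 s) * CInnA_x3 s)) (f n (u i * CInnA_x2 s) * f n (CInnA_x3 s)) : ℝ) ≤ c := by
  unfold CInnA_W at h
  have h0 : 0 ≤ (if (s n).1 = true then max (ε0 * n - (D (f n (CInnA_vb v s)) 1 : ℝ)) 0
      else (D (f n (CInnA_vb v s)) 1 : ℝ)) := by
    split_ifs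
    · exact le_max_right _ _
    · positivity
  have h1 : (0 : ℝ) ≤ (D (f n (CInnA_vb v s * CInnA_x1 s)) (f n (CInnA_vb v s) * f n (CInnA_x1 s)) : ℝ) :=
    Nat.cast_nonneg _
  have h2 : (0 : ℝ) ≤ (D (f n (CInnA_x1 s * CInnA_x3 s)) (f n (CInnA_x1 s) * f n (CInnA_x3 s)) : ℝ) :=
    Nat.cast_nonneg _
  have h3 : ∀ i ∈ range m, (0 : ℝ) ≤ ((D (f n (u i * CInnA_x2 s)) (f n (u i) * f n (CInnA_x2 s)) : ℝ) +
      (D (f n (CInnA_x1 s * (u i * CInnA_x2 s))) (f n (CInnA_x1 s) * f n (u i * CInnA_x2 s)) : ℝ) +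
      (D (f n ((u i * CInnA_x2 s) * CInnA_x3 s)) (f n (u i * CInnA_x2 s) * f n (CInnA_x3 s)) : ℝ)) :=
    fun i _ => by positivity
  have h4 := sum_nonneg h3
  refine ⟨by linarith, by linarith, by linarith, fun i hi => ?_⟩
  have h5 := single_le_sum h3 (mem_range.2 hi)
  have h6 : (0 : ℝ) ≤ (D (f n (u i * CInnA_x2 s)) (f n (u i) * f n (CInnA_x2 s)) : ℝ) := Nat.cast_nonneg _
  have h7 : (0 : ℝ) ≤ (D (f n (CInnA_x1 s * (u i * CInnA_x2 s))) (f n (CInnA_x1 s) * f n (u i * CInnA_x2 s)) : ℝ) :=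
    Nat.cast_nonneg _
  have h8 : (0 : ℝ) ≤ (D (f n ((u i * CInnA_x2 s) * CInnA_x3 s)) (f n (u i * CInnA_x2 s) * f n (CInnA_x3 s)) : ℝ) :=
    Nat.cast_nonneg _
  refine ⟨by linarith, by linarith, by linarith⟩

/-- the finite part -/
theorem CInnA_fin (n : ℕ) (k k' : ℕ) (ε0 εp δ : ℝ) (hk : (k : ℝ) ≤ δ * n) (hk' : (k' : ℝ) ≤ εp * n)
    (hn : 0 < n) (hε : εp + 4 * δ < ε0)
    (v1 : Perm (Fin n)) (hv1 : v1 ∈ alternatingGroup (Fin n))
    (m : ℕ) (un fu : ℕ → Perm (Fin n))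
    (P P2 Q3 : Perm (Fin n) → Perm (Fin n)) (Pu Q6 Q7 : ℕ → Perm (Fin n) → Perm (Fin n))
    (a0 a1 q1 : Perm (Fin n))
    (ha1 : ε0 * n - (D a1 1 : ℝ) ≤ δ * n) (ha0 : D a0 1 ≤ k)
    (hq0 : D q1 (a0 * P v1) ≤ k) (hq1 : D q1 (a1 * P 1) ≤ k)
    (hst : (∃ g : Perm (Fin n), ∀ σ, D (P σ * (P 1)⁻¹) (g * σ * g⁻¹) ≤ k') ∨
      (∀ σ ∈ alternatingGroup (Fin n), D (P σ * (P 1)⁻¹) 1 ≤ k'))
    (h3 : ∀ y z, D (Q3 (y * z)) (P y * P2 z) ≤ k)
    (h6 : ∀ i, i < m → ∀ y z, D (Q6 i (y * z)) (P y * Pu i z) ≤ k)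
    (h7 : ∀ i, i < m → ∀ y z, D (Q7 i (y * z)) (Pu i y * P2 z) ≤ k)
    (h5 : ∀ i, i < m → D (Pu i (un i)) (fu i * Pu 0 1) ≤ k) (hm : 0 < m) :
    ∃ g : Perm (Fin n), ∀ i, i < m → D (fu i) (g * un i * g⁻¹) ≤ 55 * (k + k') + 6 := by
  have hn' : (0 : ℝ) < n := by exact_mod_cast hn
  rcases hst with ⟨g, hg⟩ | hb
  · refine ⟨(P 1)⁻¹ * g, fun i hi => ?_⟩
    have hg' : ∀ y, D (P y) (g * y * g⁻¹ * P 1) ≤ k + k' := by
      intro y
      have h1 := D_mul_right (P y * (P 1)⁻¹) (g * y * g⁻¹) (P 1)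
      rw [inv_mul_cancel_right] at h1
      rw [h1]
      exact (hg y).trans (by omega)
    have hfl : ∀ j, j < m → ∀ y, D (Pu j y) (((P 1)⁻¹ * g) * y * ((P 1)⁻¹ * g)⁻¹) ≤ 27 * (k + k') + 3 := by
      intro j hj
      exact fin_lemma (k + k') g P (Pu j) P2 Q3 (Q6 j) (Q7 j) hg' (fun y z => (h3 y z).trans (by omega))
        (fun y z => (h6 j hj y z).trans (by omega)) (fun y z => (h7 j hj y z).trans (by omega))
    have e1 := hfl 0 hm 1
    rw [mul_one, mul_inv_cancel] at e1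
    have e2 := hfl i hi (un i)
    have e3 : D (fu i) (fu i * Pu 0 1) ≤ 27 * (k + k') + 3 := by
      have h1 := D_mul_left 1 (Pu 0 1) (fu i)
      rw [mul_one] at h1
      rw [h1, D_comm]
      exact e1
    have e4 : D (fu i * Pu 0 1) (Pu i (un i)) ≤ k := by
      rw [D_comm]
      exact h5 i hi
    have t1 := D_triangle (fu i) (fu i * Pu 0 1) (((P 1)⁻¹ * g) * un i * ((P 1)⁻¹ * g)⁻¹)
    have t2 := D_triangle (fu i * Pu 0 1) (Pu i (un i)) (((P 1)⁻¹ * g) * un i * ((P 1)⁻¹ * g)⁻¹)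
    omega
  · exfalso
    have e1 : D (a0 * P v1) (a1 * P 1) ≤ 2 * k := by
      have t1 := D_triangle (a0 * P v1) q1 (a1 * P 1)
      rw [D_comm (a0 * P v1) q1] at t1
      omega
    have e2 : D (P v1) (a0 * P v1) ≤ k := by
      have h1 := D_mul_right 1 a0 (P v1)
      rw [one_mul] at h1
      rw [h1, D_comm]
      exact ha0
    have e3 : D (P v1 * (P 1)⁻¹) a1 ≤ 3 * k := by
      have h1 := D_mul_right (P v1) (a1 * P 1) (P 1)⁻¹
      rw [mul_inv_cancel_right] at h1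
      rw [h1]
      have t1 := D_triangle (P v1) (a0 * P v1) (a1 * P 1)
      omega
    have e4 := hb v1 hv1
    have e5 : D a1 1 ≤ 3 * k + k' := by
      have t1 := D_triangle a1 (P v1 * (P 1)⁻¹) 1
      rw [D_comm a1 (P v1 * (P 1)⁻¹)] at t1
      omega
    have e6 : (D a1 1 : ℝ) ≤ 3 * (k : ℝ) + k' := by exact_mod_cast e5
    have e7 : ε0 * n ≤ (εp + 4 * δ) * n := by
      have : (εp + 4 * δ) * (n : ℝ) = εp * n + 4 * (δ * n) := by ring
      linarith
    have e8 := le_of_mul_le_mul_right e7 hn'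
    linarith

theorem cinnA (U : Ultrafilter ℕ) (hU : (U : Filter ℕ) ≤ atTop) (φ : GU (U : Filter ℕ) →* GU (U : Filter ℕ))
    (hφ : ∃ x, φ x ≠ 1) (f : ∀ n : ℕ, (∀ l : ℕ, Perm (Fin l)) → Perm (Fin n)) (hfc : Caus f)
    (hf : ∀ σ : ∀ n : ℕ, Perm (Fin n), φ (cl (U : Filter ℕ) σ) = cl (U : Filter ℕ) (fun n => f n σ))
    (u : ℕ → ∀ n : ℕ, Perm (Fin n)) (I : ℕ) (ε : ℝ) (hε : 0 < ε) :
    ∀ᶠ n : ℕ in (U : Filter ℕ), ∃ g : Perm (Fin n), ∀ i < I,
      (D (f n (u i)) (g * u i n * g⁻¹) : ℝ) ≤ ε * n := by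
  have hn : ∀ n0 : ℕ, ∀ᶠ n in (U : Filter ℕ), n0 ≤ n := fun n0 => hU (eventually_ge_atTop n0)
  -- (0) the sequence `v`
  obtain ⟨v, hve, ε0, hε0, hv⟩ : ∃ v : CInnA_SQ, (∀ n, 2 ≤ n → v n ∈ alternatingGroup (Fin n)) ∧ ∃ ε0 : ℝ, 0 < ε0 ∧
      ∀ᶠ n in (U : Filter ℕ), ε0 * n < (D (f n v) 1 : ℝ) := by
    obtain ⟨x, hx⟩ := hφ
    obtain ⟨σ, rfl⟩ := cl_surj x
    choose s hs using fun n => CInnA_even n (σ n)
    have e1 : cl (U : Filter ℕ) σ = cl (U : Filter ℕ) s := by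
      rw [cl_eq_iff']
      intro ε hε
      filter_upwards [hn 2, hn ⌈2 / ε⌉₊] with n hn1 hn2
      have h4 := (hs n hn1).2
      have h5 : 2 / ε ≤ n := (Nat.le_ceil _).trans (by exact_mod_cast hn2)
      rw [div_le_iff₀ hε] at h5
      have h6 : (D (σ n) (s n) : ℝ) ≤ 2 := by exact_mod_cast h4
      linarith
    refine ⟨s, fun n hn2 => (hs n hn2).1, ?_⟩
    by_contra hcon
    apply hx
    rw [e1, hf]
    have e2 : (1 : GU (U : Filter ℕ)) = cl (U : Filter ℕ) (fun _ => 1) := rfl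
    rw [e2, cl_eq_iff']
    intro ε hε
    by_contra hc
    rw [← Ultrafilter.eventually_not] at hc
    refine hcon ⟨ε, hε, ?_⟩
    filter_upwards [hc] with n h1
    exact not_le.1 h1
  -- parameters
  set εp : ℝ := min (ε / 220) (ε0 / 4) with hεp
  have hεp0 : 0 < εp := by
    rw [hεp]
    exact lt_min (by positivity) (by positivity)
  have hεp1 : εp ≤ ε / 220 := min_le_left _ _
  have hεp2 : εp ≤ ε0 / 4 := min_le_right _ _
  obtain ⟨δ1, hδ1, n0, hst⟩ := stab εp hεp0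
  set δ : ℝ := min (δ1 / 4) (min (ε / 220) (ε0 / 16)) with hδdef
  have hδ : 0 < δ := by
    rw [hδdef]
    exact lt_min (by positivity) (lt_min (by positivity) (by positivity))
  have hδa : δ ≤ δ1 / 4 := min_le_left _ _
  have hδb : δ ≤ ε / 220 := (min_le_right _ _).trans (min_le_left _ _)
  have hδc : δ ≤ ε0 / 16 := (min_le_right _ _).trans (min_le_right _ _)
  let u' : ℕ → CInnA_SQ := fun i => match i with
    | 0 => 1
    | i + 1 => u i
  -- (1) the adversary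
  obtain ⟨s, hs⟩ := adv (T := CInnA_T) (U : Filter ℕ)
    (fun n s y => CInnA_W f v u' (I + 1) ε0 n (Function.update s n y))
    (by
      intro n x x' y h
      refine CInnA_W_congr f hfc v u' (I + 1) ε0 n _ _ fun l hl => ?_
      rcases lt_or_eq_of_le hl with h1 | h1
      · rw [Function.update_of_ne h1.ne, Function.update_of_ne h1.ne, h l h1]
      · subst h1
        rw [Function.update_self, Function.update_self])
    (by
      intro x δ' hδ'
      have h1 := CInnA_W_small U φ f hf v u' (I + 1) ε0 hv x δ' hδ'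
      filter_upwards [h1] with n h2
      rw [Function.update_eq_self]
      exact h2)
  filter_upwards [hs δ hδ, hn n0, hn 2, hn ⌈12 / ε⌉₊] with n hV hn1 hn2 hn3
  have hn0 : (0 : ℝ) ≤ n := Nat.cast_nonneg n
  have hkR : ((⌊δ * n⌋₊ : ℕ) : ℝ) ≤ δ * n := Nat.floor_le (by positivity)
  have hkR' : ((⌊εp * n⌋₊ : ℕ) : ℝ) ≤ εp * n := Nat.floor_le (by positivity)
  have hT := fun y : CInnA_T n => CInnA_W_terms f v u' (I + 1) ε0 (δ * n) n (Function.update s n y) (hV y)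
  simp only [CInnA_vb_up, CInnA_x1_up, CInnA_x2_up, CInnA_x3_up, Function.update_self] at hT
  -- the relations
  have hu : ∀ i, u' i = Function.update (u' i) n (u' i n) := fun i => (Function.update_eq_self n (u' i)).symm
  have hux : ∀ (i : ℕ) (z : Perm (Fin n)), u' i * Function.update (CInnA_x2 s) n ((u' i n)⁻¹ * z) =
      Function.update (u' i * CInnA_x2 s) n z := by
    intro i z
    conv_lhs => rw [hu i]
    rw [CInnA_mul_up, Function.update_self, mul_inv_cancel_left]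
  have F3 : ∀ y z, D (f n (Function.update (CInnA_x1 s * CInnA_x3 s) n (y * z)))
      (f n (Function.update (CInnA_x1 s) n y) * f n (Function.update (CInnA_x3 s) n z)) ≤ ⌊δ * n⌋₊ := by
    intro y z
    have h1 := (hT (true, y, 1, z)).2.2.1
    rw [CInnA_mul_up] at h1
    exact Nat.le_floor h1
  have F6 : ∀ i, i < I + 1 → ∀ y z, D (f n (Function.update (CInnA_x1 s * (u' i * CInnA_x2 s)) n (y * z)))
      (f n (Function.update (CInnA_x1 s) n y) * f n (Function.update (u' i * CInnA_x2 s) n z)) ≤ ⌊δ * n⌋₊ := by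
    intro i hi y z
    have h1 := ((hT (true, y, (u' i n)⁻¹ * z, 1)).2.2.2 i hi).2.1
    simp only [hux] at h1
    rw [CInnA_mul_up] at h1
    exact Nat.le_floor h1
  have F7 : ∀ i, i < I + 1 → ∀ y z, D (f n (Function.update ((u' i * CInnA_x2 s) * CInnA_x3 s) n (y * z)))
      (f n (Function.update (u' i * CInnA_x2 s) n y) * f n (Function.update (CInnA_x3 s) n z)) ≤ ⌊δ * n⌋₊ := by
    intro i hi y z
    have h1 := ((hT (true, 1, (u' i n)⁻¹ * y, z)).2.2.2 i hi).2.2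
    simp only [hux] at h1
    rw [CInnA_mul_up] at h1
    exact Nat.le_floor h1
  have F5 : ∀ i, i < I + 1 → D (f n (Function.update (u' i * CInnA_x2 s) n (u' i n)))
      (f n (u' i) * f n (Function.update (u' 0 * CInnA_x2 s) n 1)) ≤ ⌊δ * n⌋₊ := by
    intro i hi
    have h1 := ((hT (true, 1, 1, 1)).2.2.2 i hi).1
    have h2 := hux i (u' i n)
    rw [inv_mul_cancel] at h2
    have h3 : u' 0 * CInnA_x2 s = CInnA_x2 s := one_mul _
    rw [h3]
    simp only [h2] at h1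
    exact Nat.le_floor h1
  have F1t := (hT (true, 1, 1, 1)).2.1
  have F1f := (hT (false, v n, 1, 1)).2.1
  have F0t := (hT (true, 1, 1, 1)).1
  have F0f := (hT (false, 1, 1, 1)).1
  simp only [if_true, CInnA_mul_up, mul_one] at F1t
  simp only [Bool.false_eq_true, if_false, CInnA_mul_up, one_mul] at F1f
  simp only [if_true] at F0t
  simp only [Bool.false_eq_true, if_false] at F0f
  have hbi := biaff ⌊δ * n⌋₊ (fun y => f n (Function.update (CInnA_x1 s) n y))
    (fun z => f n (Function.update (CInnA_x3 s) n z)) (fun w => f n (Function.update (CInnA_x1 s * CInnA_x3 s) n w)) F3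
  have hst' := hst n hn1 (fun y => f n (Function.update (CInnA_x1 s) n y) * (f n (Function.update (CInnA_x1 s) n 1))⁻¹)
    (by
      intro σ τ
      have h1 := hbi σ τ
      have h2 : (D (f n (Function.update (CInnA_x1 s) n (σ * τ)) * (f n (Function.update (CInnA_x1 s) n 1))⁻¹)
        ((f n (Function.update (CInnA_x1 s) n σ) * (f n (Function.update (CInnA_x1 s) n 1))⁻¹) *
          (f n (Function.update (CInnA_x1 s) n τ) * (f n (Function.update (CInnA_x1 s) n 1))⁻¹)) : ℝ) ≤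
            4 * ((⌊δ * n⌋₊ : ℕ) : ℝ) := by exact_mod_cast h1
      have h3 : δ * n ≤ δ1 / 4 * n := mul_le_mul_of_nonneg_right hδa hn0
      refine h2.trans ?_
      linarith)
  obtain ⟨g, hg⟩ := CInnA_fin n ⌊δ * n⌋₊ ⌊εp * n⌋₊ ε0 εp δ hkR hkR' (by omega) (by linarith)
    (v n) (hve n hn2) (I + 1) (fun i => u' i n) (fun i => f n (u' i))
    (fun y => f n (Function.update (CInnA_x1 s) n y)) (fun z => f n (Function.update (CInnA_x3 s) n z))
    (fun w => f n (Function.update (CInnA_x1 s * CInnA_x3 s) n w))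
    (fun i z => f n (Function.update (u' i * CInnA_x2 s) n z))
    (fun i w => f n (Function.update (CInnA_x1 s * (u' i * CInnA_x2 s)) n w))
    (fun i w => f n (Function.update ((u' i * CInnA_x2 s) * CInnA_x3 s) n w))
    (f n (Function.update (CInnA_vb v s) n 1)) (f n (Function.update (CInnA_vb v s) n (v n)))
    (f n (Function.update (CInnA_vb v s * CInnA_x1 s) n (v n)))
    ((le_max_left _ _).trans F0t) (Nat.le_floor F0f) (Nat.le_floor F1f) (Nat.le_floor F1t)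
    (by
      rcases hst' with ⟨g, hg⟩ | hb
      · left
        exact ⟨g, fun σ => Nat.le_floor (hg σ)⟩
      · right
        exact fun σ hσ => Nat.le_floor (hb σ hσ))
    F3 F6 F7 F5 (by omega)
  refine ⟨g, fun i hi => ?_⟩
  have h1 : D (f n (u i)) (g * u i n * g⁻¹) ≤ 55 * (⌊δ * n⌋₊ + ⌊εp * n⌋₊) + 6 := hg (i + 1) (by omega)
  have h2 : (D (f n (u i)) (g * u i n * g⁻¹) : ℝ) ≤ 55 * (((⌊δ * n⌋₊ : ℕ) : ℝ) + ((⌊εp * n⌋₊ : ℕ) : ℝ)) + 6 := by
    exact_mod_cast h1
  have h3 : 12 / ε ≤ n := (Nat.le_ceil _).trans (by exact_mod_cast hn3)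
  rw [div_le_iff₀ hε] at h3
  have h4 : δ * n ≤ ε / 220 * n := mul_le_mul_of_nonneg_right hδb hn0
  have h5 : εp * n ≤ ε / 220 * n := mul_le_mul_of_nonneg_right hεp1 hn0
  have h6 : ε / 220 * (n : ℝ) = ε * n / 220 := by ring
  rw [h6] at h4 h5
  have h7 : (n : ℝ) * ε = ε * n := mul_comm _ _
  rw [h7] at h3
  linarith

end Pool.Agent.helper4.UP
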