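import Pool.Agent.helper4.UP.TFb

/-!
# UP-TFc: countably many elements of G_U with trivial centralizer

PROOF.  test_fin for ε = 1/(m+1) gives r_m, δ_m, n0_m and t^m_n : Fin r_m → Perm (Fin n) for n ≥ n0_m.  t (Nat.pair m i) n = t^m_n i if n0_m ≤ n and
i < r_m, 1 otherwise.  If g = cl γ commutes with all cl (t j) then for every m, U-mostly D (γ n * t) (t * γ n) ≤ δ_m n for the finitely many
i < r_m, so D (γ n) 1 ≤ n/(m+1) U-mostly; g = 1 by cl_eq_iff'.
-/

set_option autoImplicit false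

open Finset Filter Topology
open Equiv (Perm)
open scoped Pointwise

namespace Pool.Agent.helper4.UP

theorem test_fam (U : Filter ℕ) (hU : U ≤ atTop) : ∃ t : ℕ → ∀ n : ℕ, Perm (Fin n),
    ∀ g : GU U, (∀ i, g * cl U (t i) = cl U (t i) * g) → g = 1 := by
  choose r δ hδ n0 ht using fun m : ℕ => test_fin (1 / ((m : ℝ) + 1)) (by positivity)
  choose T hT using ht
  refine ⟨fun k n => if h : n0 k.unpair.1 ≤ n ∧ k.unpair.2 < r k.unpair.1 then
    T k.unpair.1 n h.1 ⟨k.unpair.2, h.2⟩ else 1, ?_⟩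
  intro g hg
  obtain ⟨γ, rfl⟩ := cl_surj g
  change cl U γ = cl U (fun n => 1)
  rw [cl_eq_iff']
  intro ε hε
  obtain ⟨m, hm⟩ := exists_nat_one_div_lt hε
  have hcomm : ∀ i : Fin (r m), ∀ᶠ n in U, ∀ h : n0 m ≤ n,
      (D (γ n * T m n h i) (T m n h i * γ n) : ℝ) ≤ δ m * n := by
    intro i
    have h1 := hg (Nat.pair m i)
    rw [← cl_mul, ← cl_mul, cl_eq_iff'] at h1
    filter_upwards [h1 (δ m) (hδ m)] with n hn h
    have h2 : n0 (Nat.pair m i).unpair.1 ≤ n ∧ (Nat.pair m i).unpair.2 < r (Nat.pair m i).unpair.1 := by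
      rw [Nat.unpair_pair]
      exact ⟨h, i.2⟩
    rw [dif_pos h2] at hn
    have h3 : ∀ (a b : ℕ) (e : (a, b) = (m, (i : ℕ))) (ha : n0 a ≤ n) (hb : b < r a),
        T a n ha ⟨b, hb⟩ = T m n h i := by
      intro a b e ha hb
      obtain ⟨rfl, rfl⟩ := Prod.mk.inj e
      rfl
    rw [h3 _ _ (by rw [Nat.unpair_pair]) h2.1 h2.2] at hn
    exact hn
  have hall : ∀ᶠ n in U, ∀ i : Fin (r m), ∀ h : n0 m ≤ n,
      (D (γ n * T m n h i) (T m n h i * γ n) : ℝ) ≤ δ m * n := eventually_all.2 hcomm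
  have hbig : ∀ᶠ n in U, n0 m ≤ n := hU (eventually_ge_atTop (n0 m))
  filter_upwards [hall, hbig] with n h1 h2
  have h3 := hT m n h2 (γ n) (fun i => h1 i h2)
  refine h3.trans ?_
  gcongr

end Pool.Agent.helper4.UP
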