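import Pool.Agent.helper4.UP.CInnA
import Pool.Agent.helper4.UP.TFc

/-!
# UP-CInnB: assembly, nontrivial endomorphisms with a lift in the sense of Caus are inner

PROOF.  cinnB: choose g n minimizing W n g = ∑ i < n, (1/4)^i * D (f n (u i)) (g * u i n * g⁻¹) (finite).  For i0 and ε choose M with (1/2)^M
small and apply cinnA with I = M and a small ε': there is g with W n g ≤ 2 ε' n + 2 (1/2)^M n, so D (f n (u i0)) (...) ≤ 4^i0 * that ≤ ε n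
U-mostly; cl_eq_iff'.
cinn: t from test_fam; g from cinnB for the list t.  For x = cl σ apply cinnB to the list σ, t 0, t 1, ...: g'.  Then g⁻¹ g' commutes
with all cl (t i), so g = g', φ x = g x g⁻¹.
-/

set_option autoImplicit false

open Finset Filter Topology
open Equiv (Perm)
open scoped Pointwise

namespace Pool.Agent.helper4.UP

/-- the weighted sum -/
theorem CInnB_sum (n M : ℕ) (e N : ℝ) (hN : 0 ≤ N) (he : 0 ≤ e) (c : ℕ → ℝ)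
    (hc : ∀ i, c i ≤ N) (hcM : ∀ i < M, c i ≤ e * N) :
    ∑ i ∈ range n, (1 / 4 : ℝ) ^ i * c i ≤ (2 * e + 2 * (1 / 2 : ℝ) ^ M) * N := by
  have h1 : ∀ i ∈ range n, (1 / 4 : ℝ) ^ i * c i ≤ (1 / 2 : ℝ) ^ i * ((e + (1 / 2 : ℝ) ^ M) * N) := by
    intro i _
    have h2 : (1 / 4 : ℝ) ^ i = (1 / 2 : ℝ) ^ i * (1 / 2 : ℝ) ^ i := by
      rw [← mul_pow]; norm_num
    have h3 : (1 / 2 : ℝ) ^ i ≤ 1 := pow_le_one₀ (by norm_num) (by norm_num)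
    have h4 : (0 : ℝ) < (1 / 2 : ℝ) ^ i := by positivity
    have h5 : (0 : ℝ) < (1 / 2 : ℝ) ^ M := by positivity
    rw [h2, mul_assoc]
    refine mul_le_mul_of_nonneg_left ?_ h4.le
    rcases lt_or_ge i M with hi | hi
    · calc (1 / 2 : ℝ) ^ i * c i ≤ (1 / 2 : ℝ) ^ i * (e * N) := by
            exact mul_le_mul_of_nonneg_left (hcM i hi) h4.le
        _ ≤ 1 * (e * N) := mul_le_mul_of_nonneg_right h3 (mul_nonneg he hN)
        _ ≤ (e + (1 / 2 : ℝ) ^ M) * N := by nlinarith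
    · have h6 : (1 / 2 : ℝ) ^ i ≤ (1 / 2 : ℝ) ^ M :=
        pow_le_pow_of_le_one (by norm_num) (by norm_num) hi
      calc (1 / 2 : ℝ) ^ i * c i ≤ (1 / 2 : ℝ) ^ i * N := mul_le_mul_of_nonneg_left (hc i) h4.le
        _ ≤ (1 / 2 : ℝ) ^ M * N := mul_le_mul_of_nonneg_right h6 hN
        _ ≤ (e + (1 / 2 : ℝ) ^ M) * N := by nlinarith
  refine (sum_le_sum h1).trans ?_
  rw [← sum_mul]
  have h7 := sum_geometric_two_le n
  have h8 : 0 ≤ (e + (1 / 2 : ℝ) ^ M) * N := by positivity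
  calc (∑ i ∈ range n, (1 / 2 : ℝ) ^ i) * ((e + (1 / 2 : ℝ) ^ M) * N)
      ≤ 2 * ((e + (1 / 2 : ℝ) ^ M) * N) := mul_le_mul_of_nonneg_right h7 h8
    _ = _ := by ring

theorem cinnB (U : Ultrafilter ℕ) (hU : (U : Filter ℕ) ≤ atTop) (φ : GU (U : Filter ℕ) →* GU (U : Filter ℕ))
    (hφ : ∃ x, φ x ≠ 1) (f : ∀ n : ℕ, (∀ l : ℕ, Perm (Fin l)) → Perm (Fin n)) (hfc : Caus f)
    (hf : ∀ σ : ∀ n : ℕ, Perm (Fin n), φ (cl (U : Filter ℕ) σ) = cl (U : Filter ℕ) (fun n => f n σ))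
    (u : ℕ → ∀ n : ℕ, Perm (Fin n)) :
    ∃ g : GU (U : Filter ℕ), ∀ i, φ (cl (U : Filter ℕ) (u i)) = g * cl (U : Filter ℕ) (u i) * g⁻¹ := by
  have hmin : ∀ n : ℕ, ∃ g : Perm (Fin n), ∀ g' : Perm (Fin n),
      ∑ i ∈ range n, (1 / 4 : ℝ) ^ i * (D (f n (u i)) (g * u i n * g⁻¹) : ℝ) ≤
        ∑ i ∈ range n, (1 / 4 : ℝ) ^ i * (D (f n (u i)) (g' * u i n * g'⁻¹) : ℝ) := fun n =>
    Finite.exists_min fun g : Perm (Fin n) =>
      ∑ i ∈ range n, (1 / 4 : ℝ) ^ i * (D (f n (u i)) (g * u i n * g⁻¹) : ℝ)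
  choose g hg using hmin
  refine ⟨cl (U : Filter ℕ) g, fun i0 => ?_⟩
  have e1 : cl (U : Filter ℕ) g * cl (U : Filter ℕ) (u i0) * (cl (U : Filter ℕ) g)⁻¹ =
      cl (U : Filter ℕ) (fun n => g n * u i0 n * (g n)⁻¹) := rfl
  rw [hf, e1, cl_eq_iff']
  intro ε hε
  have h4 : (0 : ℝ) < 4 ^ i0 := by positivity
  have hη : 0 < ε / (4 * 4 ^ i0) := by positivity
  obtain ⟨M, hM⟩ := exists_pow_lt_of_lt_one hη (by norm_num : (1 / 2 : ℝ) < 1)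
  have hn : ∀ᶠ n in (U : Filter ℕ), i0 + 1 ≤ n := hU (eventually_ge_atTop (i0 + 1))
  filter_upwards [cinnA U hU φ hφ f hfc hf u M (ε / (4 * 4 ^ i0)) hη, hn] with n hn1 hn2
  obtain ⟨g', hg'⟩ := hn1
  have h5 := CInnB_sum n M (ε / (4 * 4 ^ i0)) n (Nat.cast_nonneg n) hη.le
    (fun i => (D (f n (u i)) (g' * u i n * g'⁻¹) : ℝ)) (fun i => by
      have := D_le_card (f n (u i)) (g' * u i n * g'⁻¹)
      rw [Fintype.card_fin] at this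
      exact_mod_cast this) hg'
  have h6 := (hg n g').trans h5
  have h7 : (1 / 4 : ℝ) ^ i0 * (D (f n (u i0)) (g n * u i0 n * (g n)⁻¹) : ℝ) ≤
      ∑ i ∈ range n, (1 / 4 : ℝ) ^ i * (D (f n (u i)) (g n * u i n * (g n)⁻¹) : ℝ) :=
    single_le_sum (f := fun i => (1 / 4 : ℝ) ^ i * (D (f n (u i)) (g n * u i n * (g n)⁻¹) : ℝ))
      (fun i _ => by positivity) (mem_range.2 hn2)
  have h8 := h7.trans h6
  have h9 : (2 * (ε / (4 * 4 ^ i0)) + 2 * (1 / 2 : ℝ) ^ M) * (n : ℝ) ≤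
      (1 / 4 : ℝ) ^ i0 * (ε * n) := by
    have h10 : 2 * (ε / (4 * 4 ^ i0)) + 2 * (1 / 2 : ℝ) ^ M ≤ (1 / 4 : ℝ) ^ i0 * ε := by
      have h11 : (1 / 4 : ℝ) ^ i0 * ε = 4 * (ε / (4 * 4 ^ i0)) := by
        rw [one_div, inv_pow]
        field_simp
      rw [h11]
      linarith
    rw [← mul_assoc]
    exact mul_le_mul_of_nonneg_right h10 (Nat.cast_nonneg n)
  exact le_of_mul_le_mul_left (h8.trans h9) (by positivity)

theorem cinn (U : Ultrafilter ℕ) (hU : (U : Filter ℕ) ≤ atTop) (φ : GU (U : Filter ℕ) →* GU (U : Filter ℕ))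
    (hφ : ∃ x, φ x ≠ 1) (h : CI (U : Filter ℕ) φ (fun _ => Set.univ)) :
    ∃ g : GU (U : Filter ℕ), ∀ x, φ x = g * x * g⁻¹ := by
  obtain ⟨f, hfc, hf0⟩ := h
  have hf : ∀ σ : ∀ n : ℕ, Perm (Fin n), φ (cl (U : Filter ℕ) σ) = cl (U : Filter ℕ) (fun n => f n σ) :=
    fun σ => hf0 σ (Eventually.of_forall fun n => Set.mem_univ _)
  obtain ⟨t, ht⟩ := test_fam (U : Filter ℕ) hU
  obtain ⟨g, hg⟩ := cinnB U hU φ hφ f hfc hf t
  refine ⟨g, fun x => ?_⟩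
  obtain ⟨σ, rfl⟩ := cl_surj x
  obtain ⟨g', hg'⟩ := cinnB U hU φ hφ f hfc hf (fun i => Nat.casesOn i σ t)
  have h0 : φ (cl (U : Filter ℕ) σ) = g' * cl (U : Filter ℕ) σ * g'⁻¹ := hg' 0
  have h1 : ∀ i, φ (cl (U : Filter ℕ) (t i)) = g' * cl (U : Filter ℕ) (t i) * g'⁻¹ :=
    fun i => hg' (i + 1)
  have h2 : g⁻¹ * g' = 1 := by
    refine ht _ fun i => ?_
    have h3 := (hg i).symm.trans (h1 i)
    calc g⁻¹ * g' * cl (U : Filter ℕ) (t i)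
        = g⁻¹ * (g' * cl (U : Filter ℕ) (t i) * g'⁻¹) * g' := by group
      _ = g⁻¹ * (g * cl (U : Filter ℕ) (t i) * g⁻¹) * g' := by rw [← h3]
      _ = cl (U : Filter ℕ) (t i) * (g⁻¹ * g') := by group
  have h3 : g' = g := by
    rw [inv_mul_eq_one] at h2
    exact h2.symm
  rw [h0, h3]

end Pool.Agent.helper4.UP
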