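import Pool.Agent.helper4.UP.Defs

/-!
# UP-Cls1: a subgroup of index at most 4n/3 of the symmetric group contains a 3-cycle

PROOF.  G = Perm α, n = card α ≥ 16, m = H.index ≤ 4n/3.  Suppose no a, b, c distinct with
swap a b * swap a c ∈ H ((*)).  For x ∈ α the n - 1 left cosets (swap x y) H, y ≠ x, are distinct
((swap x y)⁻¹ * swap x z = swap x y * swap x z ∈ H contradicts (*)).  Hence for x ≠ u the two sets
S x = {(swap x y) H : y ≠ x} and S u have at least 2(n-1) - m ≥ 2n/3 - 2 > 8 cosets in common.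
(1) Take x ≠ x' and a common coset different from (swap x x') H: swap x y * swap x' y' ∈ H with y ≠ x', y' ≠ x
(otherwise (*) fails), y ≠ y' (otherwise (*) fails).  (2) Take u ∉ {x, y, x', y'} and a common coset of S x, S u of the
form (swap x v) H = (swap u w) H with v ∉ {u, x', y, y'}, w ∉ {x, x', y, y'} (at most 8 cosets are excluded); v ≠ w by (*).
So s = swap x y * swap x' y' ∈ H, s' = swap x v * swap u w ∈ H, and
s * (s' * s * s'⁻¹) = swap x y * swap x' y' * swap v y * swap x' y' = swap x y * swap v y = swap y x * swap y v ∈ H,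
contradiction to (*).
(Index: card (Perm α ⧸ H) = H.index; use Finset.card_union_add_card_inter or card_inter bounds for images in G ⧸ H.)
-/

set_option autoImplicit false

open Finset Filter Topology
open Equiv (Perm)
open scoped Pointwise

namespace Pool.Agent.helper4.UP

theorem cls_three {α : Type*} [Fintype α] [DecidableEq α] (H : Subgroup (Perm α))
    (hn : 16 ≤ Fintype.card α) (hH : 3 * H.index ≤ 4 * Fintype.card α) :
    ∃ a b c : α, a ≠ b ∧ a ≠ c ∧ b ≠ c ∧ Equiv.swap a b * Equiv.swap a c ∈ H := by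
  classical
  by_contra hcon
  push Not at hcon
  have : Fintype (Perm α ⧸ H) := Fintype.ofFinite _
  obtain ⟨m, hm⟩ : ∃ m, m = Fintype.card (Perm α ⧸ H) := ⟨_, rfl⟩
  have hidx : H.index = m := by
    rw [hm, Subgroup.index_eq_card, Nat.card_eq_fintype_card]
  rw [hidx] at hH
  obtain ⟨n, hnn⟩ : ∃ n, n = Fintype.card α := ⟨_, rfl⟩
  rw [← hnn] at hn hH
  -- the coset of a transposition
  let q : α → α → Perm α ⧸ H := fun x y => (QuotientGroup.mk (Equiv.swap x y) : Perm α ⧸ H)
  have hq : ∀ x y z w, q x y = q z w → Equiv.swap x y * Equiv.swap z w ∈ H := by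
    intro x y z w h
    have h1 := QuotientGroup.eq.mp h
    rwa [Equiv.swap_inv] at h1
  have hqc : ∀ x y, q x y = q y x := by
    intro x y
    show (QuotientGroup.mk (Equiv.swap x y) : Perm α ⧸ H) = QuotientGroup.mk (Equiv.swap y x)
    rw [Equiv.swap_comm]
  have hinj : ∀ x y z, x ≠ y → x ≠ z → q x y = q x z → y = z := by
    intro x y z hy hz h
    by_contra hne
    exact hcon x y z hy hz hne (hq _ _ _ _ h)
  let S : α → Finset (Perm α ⧸ H) := fun x => (univ.erase x).image (q x)
  have hS : ∀ x, (S x).card = n - 1 := by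
    intro x
    show ((univ.erase x).image (q x)).card = n - 1
    rw [card_image_of_injOn, card_erase_of_mem (mem_univ x), card_univ, ← hnn]
    intro y hy z hz h
    have hy' : y ≠ x := by simpa using hy
    have hz' : z ≠ x := by simpa using hz
    exact hinj x y z hy'.symm hz'.symm h
  have hint : ∀ x u, 9 ≤ (S x ∩ S u).card := by
    intro x u
    have h1 := card_union_add_card_inter (S x) (S u)
    have h2 : (S x ∪ S u).card ≤ m := by
      rw [hm]
      exact card_le_univ _
    rw [hS, hS] at h1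
    omega
  -- first pair of transpositions
  obtain ⟨x, x', hxx⟩ : ∃ x x' : α, x ≠ x' := by
    have : 1 < Fintype.card α := by omega
    exact Fintype.exists_pair_of_one_lt_card this
  obtain ⟨c, hc, hc'⟩ := exists_mem_notMem_of_card_lt_card (s := {q x x'}) (t := S x ∩ S x')
    (by rw [card_singleton]; have := hint x x'; omega)
  rw [mem_inter] at hc
  obtain ⟨hc1, hc2⟩ := hc
  obtain ⟨y, hy, hyc⟩ := mem_image.mp hc1
  obtain ⟨y', hy', hyc'⟩ := mem_image.mp hc2
  have hyx : y ≠ x := by simpa using hy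
  have hyx' : y' ≠ x' := by simpa using hy'
  rw [mem_singleton] at hc'
  have hy1 : y ≠ x' := by
    rintro rfl
    exact hc' hyc.symm
  have hy2 : y' ≠ x := by
    rintro rfl
    exact hc' (by rw [← hyc', hqc])
  have hs : Equiv.swap x y * Equiv.swap x' y' ∈ H := hq _ _ _ _ (hyc.trans hyc'.symm)
  have hyy : y ≠ y' := by
    rintro rfl
    apply hcon y x x' hyx hy1 hxx
    rwa [Equiv.swap_comm y x, Equiv.swap_comm y x']
  -- the second pair
  obtain ⟨u, -, hu⟩ := exists_mem_notMem_of_card_lt_card (s := ({x, y, x', y'} : Finset α)) (t := univ)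
    (by
      rw [card_univ, ← hnn]
      have : ({x, y, x', y'} : Finset α).card ≤ 4 := card_le_four
      omega)
  have hux : u ≠ x := fun h => hu (by simp [h])
  have huy : u ≠ y := fun h => hu (by simp [h])
  have hux' : u ≠ x' := fun h => hu (by simp [h])
  have huy' : u ≠ y' := fun h => hu (by simp [h])
  obtain ⟨e, he, he'⟩ := exists_mem_notMem_of_card_lt_card
    (s := ({u, x', y, y'} : Finset α).image (q x) ∪ ({x, x', y, y'} : Finset α).image (q u)) (t := S x ∩ S u)
    (by
      have h1 : (({u, x', y, y'} : Finset α).image (q x)).card ≤ 4 := card_image_le.trans card_le_four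
      have h2 : (({x, x', y, y'} : Finset α).image (q u)).card ≤ 4 := card_image_le.trans card_le_four
      have h3 := card_union_le (({u, x', y, y'} : Finset α).image (q x)) (({x, x', y, y'} : Finset α).image (q u))
      have := hint x u
      omega)
  rw [mem_inter] at he
  obtain ⟨he1, he2⟩ := he
  obtain ⟨v, hv, hve⟩ := mem_image.mp he1
  obtain ⟨w, hw, hwe⟩ := mem_image.mp he2
  have hvx : v ≠ x := by simpa using hv
  have hwu : w ≠ u := by simpa using hw
  rw [mem_union, not_or] at he'
  obtain ⟨he3, he4⟩ := he'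
  have hv1 : v ∉ ({u, x', y, y'} : Finset α) := fun h => he3 (mem_image.mpr ⟨v, h, hve⟩)
  have hw1 : w ∉ ({x, x', y, y'} : Finset α) := fun h => he4 (mem_image.mpr ⟨w, h, hwe⟩)
  simp only [mem_insert, mem_singleton, not_or] at hv1 hw1
  obtain ⟨hvu, hvx', hvy, hvy'⟩ : v ≠ u ∧ v ≠ x' ∧ v ≠ y ∧ v ≠ y' := hv1
  obtain ⟨hwx, hwx', hwy, hwy'⟩ : w ≠ x ∧ w ≠ x' ∧ w ≠ y ∧ w ≠ y' := hw1
  have hs' : Equiv.swap x v * Equiv.swap u w ∈ H := hq _ _ _ _ (hve.trans hwe.symm)
  have hvw : v ≠ w := by
    rintro rfl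
    apply hcon v x u hvx hwu hux.symm
    rwa [Equiv.swap_comm v x, Equiv.swap_comm v u]
  -- the commutator
  obtain ⟨s', hs'e⟩ : ∃ s', s' = Equiv.swap x v * Equiv.swap u w := ⟨_, rfl⟩
  rw [← hs'e] at hs'
  have k1 : s' x = v := by
    rw [hs'e, Equiv.Perm.mul_apply, Equiv.swap_apply_of_ne_of_ne hux.symm hwx.symm, Equiv.swap_apply_left]
  have k2 : s' y = y := by
    rw [hs'e, Equiv.Perm.mul_apply, Equiv.swap_apply_of_ne_of_ne huy.symm hwy.symm,
      Equiv.swap_apply_of_ne_of_ne hyx hvy.symm]
  have k3 : s' x' = x' := by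
    rw [hs'e, Equiv.Perm.mul_apply, Equiv.swap_apply_of_ne_of_ne hux'.symm hwx'.symm,
      Equiv.swap_apply_of_ne_of_ne hxx.symm hvx'.symm]
  have k4 : s' y' = y' := by
    rw [hs'e, Equiv.Perm.mul_apply, Equiv.swap_apply_of_ne_of_ne huy'.symm hwy'.symm,
      Equiv.swap_apply_of_ne_of_ne hy2 hvy'.symm]
  have hconj : s' * (Equiv.swap x y * Equiv.swap x' y') * s'⁻¹ = Equiv.swap v y * Equiv.swap x' y' := by
    have c1 : s' * Equiv.swap x y * s'⁻¹ = Equiv.swap v y := by
      rw [← k1, ← Equiv.swap_apply_apply, k1, k2]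
    have c2 : s' * Equiv.swap x' y' * s'⁻¹ = Equiv.swap x' y' := by
      rw [← Equiv.swap_apply_apply, k3, k4]
    calc s' * (Equiv.swap x y * Equiv.swap x' y') * s'⁻¹
        = (s' * Equiv.swap x y * s'⁻¹) * (s' * Equiv.swap x' y' * s'⁻¹) := by group
      _ = _ := by rw [c1, c2]
  have hfin : (Equiv.swap x y * Equiv.swap x' y') * (s' * (Equiv.swap x y * Equiv.swap x' y') * s'⁻¹) =
      Equiv.swap y x * Equiv.swap y v := by
    rw [hconj]
    have hcomm : Equiv.swap x' y' * Equiv.swap v y = Equiv.swap v y * Equiv.swap x' y' := by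
      have hd : Equiv.Perm.Disjoint (Equiv.swap x' y') (Equiv.swap v y) := by
        intro z
        by_cases h1 : z = x'
        · right
          rw [h1]
          exact Equiv.swap_apply_of_ne_of_ne hvx'.symm hy1.symm
        · by_cases h2 : z = y'
          · right
            rw [h2]
            exact Equiv.swap_apply_of_ne_of_ne hvy'.symm hyy.symm
          · left
            exact Equiv.swap_apply_of_ne_of_ne h1 h2
      exact hd.commute.eq
    calc Equiv.swap x y * Equiv.swap x' y' * (Equiv.swap v y * Equiv.swap x' y')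
        = Equiv.swap x y * (Equiv.swap x' y' * Equiv.swap v y) * Equiv.swap x' y' := by group
      _ = Equiv.swap x y * Equiv.swap v y * (Equiv.swap x' y' * Equiv.swap x' y') := by rw [hcomm]; group
      _ = Equiv.swap y x * Equiv.swap y v := by
          rw [Equiv.swap_mul_self, mul_one, Equiv.swap_comm y x, Equiv.swap_comm y v]
  have hmem : (Equiv.swap x y * Equiv.swap x' y') * (s' * (Equiv.swap x y * Equiv.swap x' y') * s'⁻¹) ∈ H :=
    H.mul_mem hs (H.mul_mem (H.mul_mem hs' hs) (H.inv_mem hs'))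
  rw [hfin] at hmem
  exact hcon y x v hyx hvy.symm hvx.symm hmem

end Pool.Agent.helper4.UP
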