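import Pool.Agent.helper4.UP.Cls1

/-!
# UP-Cls2: subgroups of index at most 4n/3 of the symmetric group

PROOF.  T(a,b,c) := swap a b * swap a c ∈ H (a, b, c distinct); T does not depend on the order of a, b, c
(swap a b * swap a c = swap b c * swap a b = swap a c * swap b c, and inverses).  Define a ~ b iff a = b or T(a,b,z)
for some z ∉ {a, b}.
(1) a ~ b, b ~ c, a, b, c distinct ⇒ T(a,b,c): let T(a,b,z), T(b,c,v).  If z = c or v = a: done.  If z = v: the swaps a b,
b z, b c are in one left coset of H, so swap a b * swap b c ∈ H (each swap is its own inverse).  If z ≠ v (and z ≠ c,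
v ≠ a): the supports {a,b,z}, {b,c,v} meet in b only; choose s' ∈ H the 3-cycle on {b,c,v} with s' b = c (both
orientations are in H); conjugating swap b a * swap b z ∈ H by s' gives swap c a * swap c z ∈ H, so T(c,a,z); together
with T(a,b,z) (common swap a z) all swaps of {a,b,c,z} with these pairs are in one left coset, hence T(a,b,c).
So ~ is an equivalence relation and T holds for all distinct a, b, c of a class.
(2) h ∈ H, a ~ b ⇒ h a ~ h b (conjugation).
(3) Let B be the class of a point of a 3-cycle in H (cls_three); b = card B ≥ 3.  The left cosets (swap x y) H, x ∈ B,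
y ∉ B, are distinct: if h = swap x y * swap x' y' ∈ H with (x,y) ≠ (x',y'): x = x' gives T(x,y,y'), so x ~ y; y = y' gives
T(y,x,x'), so x ~ y; otherwise take z ∈ B different from x, x': h z = z, and h (x') = y' (x ≠ x', y ≠ y') so
y' = h x' ~ h z = z, contradiction.  Hence b (n - b) ≤ H.index ≤ 4n/3, and 3 ≤ b, n ≥ 16 give b ≥ n - 1.
(4) b = n: all 3-cycles are in H (Equiv.Perm.closure_three_cycles_eq_alternating), alternatingGroup α ≤ H.
b = n - 1: let i be the point outside B.  h ∈ H fixes i (if h i = x ∈ B take z ∈ B, z ≠ x: x ~ z so i = h⁻¹ x ~ h⁻¹ z ≠ i,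
so i ~ a point of B, contradiction).  So H ≤ stabilizer of i =: K, H.index = (H.relIndex K) * K.index, K.index = n
(orbit-stabilizer), 3 * relIndex * n ≤ 4 n, so relIndex = 1 and K ≤ H.
-/

set_option autoImplicit false

open Finset Filter Topology
open Equiv (Perm)
open scoped Pointwise

namespace Pool.Agent.helper4.UP

section Cls2

variable {α : Type*} [DecidableEq α] {H : Subgroup (Perm α)}

/-- the 3-cycle `T(a,b,c)` belongs to `H` -/
def Cls2_T (H : Subgroup (Perm α)) (a b c : α) : Prop := Equiv.swap a b * Equiv.swap a c ∈ H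

theorem Cls2_T.swap {a b c : α} (h : Cls2_T H a b c) : Cls2_T H a c b := by
  have h1 := H.inv_mem h
  rwa [mul_inv_rev, Equiv.swap_inv, Equiv.swap_inv] at h1

theorem Cls2_rot_eq {a b c : α} (hab : a ≠ b) (hac : a ≠ c) (hbc : b ≠ c) :
    Equiv.swap a b * Equiv.swap a c = Equiv.swap b c * Equiv.swap b a := by
  ext x
  simp only [Perm.mul_apply, Equiv.swap_apply_def]
  split_ifs <;> simp_all

theorem Cls2_T.rot {a b c : α} (h : Cls2_T H a b c) (hab : a ≠ b) (hac : a ≠ c) (hbc : b ≠ c) :
    Cls2_T H b c a := by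
  unfold Cls2_T at h ⊢
  rwa [← Cls2_rot_eq hab hac hbc]

theorem Cls2_T.conj {a b c : α} (h : Cls2_T H a b c) {s : Perm α} (hs : s ∈ H) :
    Cls2_T H (s a) (s b) (s c) := by
  unfold Cls2_T at h ⊢
  rw [Equiv.swap_apply_apply, Equiv.swap_apply_apply]
  have h1 := H.mul_mem (H.mul_mem hs h) (H.inv_mem hs)
  have h2 : s * (Equiv.swap a b * Equiv.swap a c) * s⁻¹ =
      s * Equiv.swap a b * s⁻¹ * (s * Equiv.swap a c * s⁻¹) := by group
  rwa [h2] at h1

theorem Cls2_T.tr {x p q r : α} (h : Cls2_T H x p q) (h' : Cls2_T H x q r) : Cls2_T H x p r := by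
  unfold Cls2_T at h h' ⊢
  have h1 := H.mul_mem h h'
  have h2 : Equiv.swap x p * Equiv.swap x q * (Equiv.swap x q * Equiv.swap x r) =
      Equiv.swap x p * (Equiv.swap x q * Equiv.swap x q) * Equiv.swap x r := by group
  rwa [h2, Equiv.swap_mul_self, mul_one] at h1

/-- the relation -/
def Cls2_R (H : Subgroup (Perm α)) (a b : α) : Prop := a = b ∨ ∃ z, z ≠ a ∧ z ≠ b ∧ Cls2_T H a b z

theorem Cls2_T_of {a b c : α} (hab : a ≠ b) (hac : a ≠ c) (hbc : b ≠ c) (h : Cls2_R H a b)
    (h' : Cls2_R H b c) : Cls2_T H a b c := by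
  obtain ⟨z, hza, hzb, hz⟩ := h.resolve_left hab
  obtain ⟨v, hvb, hvc, hv⟩ := h'.resolve_left hbc
  by_cases h1 : z = c
  · rwa [h1] at hz
  by_cases h2 : v = a
  · rw [h2] at hv
    exact (hv.rot hbc hab.symm hac.symm).rot hac.symm hbc.symm hab
  have hbaz : Cls2_T H b a z := by
    have := hz.rot hab hza.symm hzb.symm
    exact this.swap
  by_cases h3 : z = v
  · subst h3
    have h4 : Cls2_T H b a c := hbaz.tr hv.swap
    exact (h4.swap.rot hbc hab.symm hac.symm).rot hac.symm hbc.symm hab
  · have hs : Equiv.swap b v * Equiv.swap b c ∈ H := hv.swap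
    have h4 := hbaz.conj hs
    have hsb : (Equiv.swap b v * Equiv.swap b c) b = c := by
      rw [Perm.mul_apply, Equiv.swap_apply_left, Equiv.swap_apply_of_ne_of_ne hbc.symm hvc.symm]
    have hsa : (Equiv.swap b v * Equiv.swap b c) a = a := by
      rw [Perm.mul_apply, Equiv.swap_apply_of_ne_of_ne hab hac,
        Equiv.swap_apply_of_ne_of_ne hab (Ne.symm h2)]
    have hsz : (Equiv.swap b v * Equiv.swap b c) z = z := by
      rw [Perm.mul_apply, Equiv.swap_apply_of_ne_of_ne hzb h1,
        Equiv.swap_apply_of_ne_of_ne hzb h3]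
    rw [hsb, hsa, hsz] at h4
    have h5 : Cls2_T H a z c := h4.rot hac.symm (Ne.symm h1) hza.symm
    exact hz.tr h5

theorem Cls2_R.symm {a b : α} (h : Cls2_R H a b) : Cls2_R H b a := by
  rcases h with h | ⟨z, hza, hzb, hz⟩
  · exact Or.inl h.symm
  · by_cases hab : a = b
    · exact Or.inl hab.symm
    · exact Or.inr ⟨z, hzb, hza, (hz.rot hab hza.symm hzb.symm).swap⟩

theorem Cls2_R.trans {a b c : α} (h : Cls2_R H a b) (h' : Cls2_R H b c) : Cls2_R H a c := by
  by_cases hab : a = b
  · rwa [hab]
  by_cases hbc : b = c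
  · rwa [← hbc]
  by_cases hac : a = c
  · exact Or.inl hac
  exact Or.inr ⟨b, Ne.symm hab, hbc, (Cls2_T_of hab hac hbc h h').swap⟩

theorem Cls2_R.map {a b : α} (h : Cls2_R H a b) {s : Perm α} (hs : s ∈ H) :
    Cls2_R H (s a) (s b) := by
  rcases h with h | ⟨z, hza, hzb, hz⟩
  · exact Or.inl (by rw [h])
  · exact Or.inr ⟨s z, fun h => hza (s.injective h), fun h => hzb (s.injective h), hz.conj hs⟩

theorem Cls2_threeCycle [Fintype α] {σ : Perm α} (hσ : σ.IsThreeCycle) :
    ∃ a b c : α, a ≠ b ∧ a ≠ c ∧ b ≠ c ∧ σ = Equiv.swap a b * Equiv.swap a c := by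
  obtain ⟨x, y, z, hxy, hxz, hyz, h⟩ := Finset.card_eq_three.1 hσ.card_support
  have hx : σ x ≠ x := Perm.mem_support.1 (by rw [h]; simp)
  have hy : σ y ≠ y := Perm.mem_support.1 (by rw [h]; simp)
  have hz : σ z ≠ z := Perm.mem_support.1 (by rw [h]; simp)
  have hx' : σ x ∈ ({x, y, z} : Finset α) := by rw [← h, Perm.apply_mem_support, h]; simp
  have hy' : σ y ∈ ({x, y, z} : Finset α) := by rw [← h, Perm.apply_mem_support, h]; simp
  have hz' : σ z ∈ ({x, y, z} : Finset α) := by rw [← h, Perm.apply_mem_support, h]; simp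
  have hne : ∀ u, u ≠ x → u ≠ y → u ≠ z → σ u = u := by
    intro u h1 h2 h3
    by_contra h4
    have h5 : u ∈ σ.support := Perm.mem_support.2 h4
    rw [h] at h5
    simp [h1, h2, h3] at h5
  simp only [mem_insert, mem_singleton] at hx' hy' hz'
  have hinj := σ.injective
  rcases hx'.resolve_left hx with h1 | h1
  · -- x → y
    have h2 : σ y = z := by
      rcases hy' with h2 | h2 | h2
      · exfalso
        rcases hz' with h3 | h3 | h3
        · exact hyz (hinj (h2.trans h3.symm))
        · exact hxz (hinj (h1.trans h3.symm))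
        · exact hz h3
      · exact absurd h2 hy
      · exact h2
    have h3 : σ z = x := by
      rcases hz' with h3 | h3 | h3
      · exact h3
      · exact absurd (hinj (h1.trans h3.symm)) hxz
      · exact absurd h3 hz
    refine ⟨x, z, y, hxz, hxy, hyz.symm, ?_⟩
    ext u
    by_cases hu1 : u = x
    · subst hu1
      rw [Perm.mul_apply, Equiv.swap_apply_left, Equiv.swap_apply_of_ne_of_ne hxy.symm hyz, h1]
    by_cases hu2 : u = y
    · subst hu2
      rw [Perm.mul_apply, Equiv.swap_apply_right, Equiv.swap_apply_left, h2]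
    by_cases hu3 : u = z
    · subst hu3
      rw [Perm.mul_apply, Equiv.swap_apply_of_ne_of_ne hxz.symm hyz.symm, Equiv.swap_apply_right, h3]
    rw [Perm.mul_apply, Equiv.swap_apply_of_ne_of_ne hu1 hu2, Equiv.swap_apply_of_ne_of_ne hu1 hu3,
      hne u hu1 hu2 hu3]
  · -- x → z
    have h2 : σ z = y := by
      rcases hz' with h2 | h2 | h2
      · exfalso
        rcases hy' with h3 | h3 | h3
        · exact hyz (hinj (h3.trans h2.symm))
        · exact hy h3
        · exact hxy (hinj (h1.trans h3.symm))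
      · exact h2
      · exact absurd h2 hz
    have h3 : σ y = x := by
      rcases hy' with h3 | h3 | h3
      · exact h3
      · exact absurd h3 hy
      · exact absurd (hinj (h1.trans h3.symm)) hxy
    refine ⟨x, y, z, hxy, hxz, hyz, ?_⟩
    ext u
    by_cases hu1 : u = x
    · subst hu1
      rw [Perm.mul_apply, Equiv.swap_apply_left, Equiv.swap_apply_of_ne_of_ne hxz.symm hyz.symm, h1]
    by_cases hu3 : u = z
    · subst hu3
      rw [Perm.mul_apply, Equiv.swap_apply_right, Equiv.swap_apply_left, h2]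
    by_cases hu2 : u = y
    · subst hu2
      rw [Perm.mul_apply, Equiv.swap_apply_of_ne_of_ne hxy.symm hyz, Equiv.swap_apply_right, h3]
    rw [Perm.mul_apply, Equiv.swap_apply_of_ne_of_ne hu1 hu3, Equiv.swap_apply_of_ne_of_ne hu1 hu2,
      hne u hu1 hu2 hu3]

end Cls2

theorem cls {α : Type*} [Fintype α] [DecidableEq α] (H : Subgroup (Perm α))
    (hn : 16 ≤ Fintype.card α) (hH : 3 * H.index ≤ 4 * Fintype.card α) :
    alternatingGroup α ≤ H ∨ ∃ i : α, ∀ σ : Perm α, σ ∈ H ↔ σ i = i := by
  classical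
  obtain ⟨a₀, b₀, c₀, hab, hac, hbc, h0⟩ := cls_three H hn hH
  set B : Finset α := univ.filter fun x => Cls2_R H a₀ x with hB
  have hBm : ∀ x, x ∈ B ↔ Cls2_R H a₀ x := fun x => by simp [hB]
  have hBR : ∀ x ∈ B, ∀ y ∈ B, Cls2_R H x y := fun x hx y hy =>
    ((hBm x).1 hx).symm.trans ((hBm y).1 hy)
  have hBcl : ∀ x ∈ B, ∀ y, Cls2_R H x y → y ∈ B := fun x hx y hxy =>
    (hBm y).2 (((hBm x).1 hx).trans hxy)
  have hB3 : 3 ≤ B.card := by
    have h1 : ({a₀, b₀, c₀} : Finset α) ⊆ B := by
      intro x hx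
      simp only [mem_insert, mem_singleton] at hx
      rw [hBm]
      rcases hx with rfl | rfl | rfl
      · exact Or.inl rfl
      · exact Or.inr ⟨c₀, hac.symm, hbc.symm, h0⟩
      · exact Or.inr ⟨b₀, hab.symm, hbc, Cls2_T.swap (H := H) h0⟩
    have h2 := card_le_card h1
    rwa [card_insert_of_notMem (by simp [hab, hac]), card_pair hbc] at h2
  -- the number of cosets
  have hcard : B.card * Bᶜ.card ≤ H.index := by
    rw [← card_product, Subgroup.index, Nat.card_eq_fintype_card, ← card_univ]
    refine card_le_card_of_injOn (fun p : α × α => (QuotientGroup.mk (Equiv.swap p.1 p.2) : Perm α ⧸ H))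
      (fun _ _ => mem_coe.2 (mem_univ _)) ?_
    rintro ⟨x, y⟩ hxy ⟨x', y'⟩ hxy' heq
    rw [mem_coe, mem_product, mem_compl] at hxy hxy'
    obtain ⟨hx, hy⟩ := hxy
    obtain ⟨hx', hy'⟩ := hxy'
    simp only at hx hy hx' hy' heq
    rw [QuotientGroup.eq, Equiv.swap_inv] at heq
    have hxy : x ≠ y := fun h => hy (h ▸ hx)
    have hxy' : x ≠ y' := fun h => hy' (h ▸ hx)
    have hx'y : x' ≠ y := fun h => hy (h ▸ hx')
    have hx'y' : x' ≠ y' := fun h => hy' (h ▸ hx')
    by_cases h1 : x = x'
    · by_cases h2 : y = y'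
      · rw [h1, h2]
      · exfalso
        rw [← h1] at heq
        exact hy (hBcl x hx y (Or.inr ⟨y', hxy'.symm, Ne.symm h2, heq⟩))
    · exfalso
      by_cases h2 : y = y'
      · rw [← h2, Equiv.swap_comm x y, Equiv.swap_comm x' y] at heq
        have h3 : Cls2_R H y x := Or.inr ⟨x', hx'y, Ne.symm h1, heq⟩
        exact hy (hBcl x hx y h3.symm)
      · obtain ⟨z, hz, hzx⟩ : ∃ z ∈ B, z ∉ ({x, x'} : Finset α) := by
          by_contra hcon
          push Not at hcon
          have h3 := card_le_card (show B ⊆ {x, x'} from hcon)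
          have h4 : ({x, x'} : Finset α).card ≤ 2 := card_le_two
          omega
        simp only [mem_insert, mem_singleton, not_or] at hzx
        have hzy : z ≠ y := fun h => hy (h ▸ hz)
        have hzy' : z ≠ y' := fun h => hy' (h ▸ hz)
        have h3 : (Equiv.swap x y * Equiv.swap x' y') z = z := by
          rw [Perm.mul_apply, Equiv.swap_apply_of_ne_of_ne hzx.2 hzy',
            Equiv.swap_apply_of_ne_of_ne hzx.1 hzy]
        have h4 : (Equiv.swap x y * Equiv.swap x' y') x' = y' := by
          rw [Perm.mul_apply, Equiv.swap_apply_left,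
            Equiv.swap_apply_of_ne_of_ne hxy'.symm (Ne.symm h2)]
        have h5 := (hBR z hz x' hx').map heq
        rw [h3, h4] at h5
        exact hy' (hBcl z hz y' h5)
  have hBn : B.card ≤ Fintype.card α := card_le_univ B
  have hBc : Bᶜ.card = Fintype.card α - B.card := card_compl B
  have hbig : Fintype.card α ≤ B.card + 1 := by
    by_contra hcon
    push Not at hcon
    obtain ⟨m, hm⟩ : ∃ m, Fintype.card α = B.card + m := ⟨Fintype.card α - B.card, by omega⟩
    rw [hBc, hm] at hcard
    have h1 : B.card + m - B.card = m := by omega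
    rw [h1] at hcard
    rw [hm] at hn hH hcon
    have h2 : 2 ≤ m := by omega
    obtain ⟨p, hp⟩ : ∃ p, B.card = p + 3 := ⟨B.card - 3, by omega⟩
    obtain ⟨q, rfl⟩ : ∃ q, m = q + 2 := ⟨m - 2, by omega⟩
    rw [hp] at hcard hn hH
    nlinarith [Nat.zero_le (p * q)]
  rcases Nat.lt_or_ge B.card (Fintype.card α) with hlt | hge
  · right
    have h1 : Bᶜ.card = 1 := by omega
    obtain ⟨i, hi⟩ := card_eq_one.1 h1
    have hiB : i ∉ B := mem_compl.1 (by rw [hi]; exact mem_singleton_self i)
    have hne : ∀ x, x ≠ i → x ∈ B := fun x hx => by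
      by_contra h2
      have h3 : x ∈ Bᶜ := mem_compl.2 h2
      rw [hi, mem_singleton] at h3
      exact hx h3
    have hle : H ≤ MulAction.stabilizer (Perm α) i := by
      intro h hh
      rw [MulAction.mem_stabilizer_iff, Perm.smul_def]
      by_contra hcon
      have hx : h i ∈ B := hne _ hcon
      obtain ⟨z, hz, hzx⟩ : ∃ z ∈ B, z ∉ ({h i} : Finset α) := by
        by_contra hcon'
        push Not at hcon'
        have h3 := card_le_card (show B ⊆ {h i} from hcon')
        rw [card_singleton] at h3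
        omega
      rw [mem_singleton] at hzx
      have h3 := (hBR _ hx z hz).map (H.inv_mem hh)
      rw [show h⁻¹ (h i) = i by simp] at h3
      have h4 : h⁻¹ z ∈ B := hne _ fun h5 => hzx (by rw [← h5]; simp)
      exact hiB (hBcl _ h4 i h3.symm)
    have hidx : (MulAction.stabilizer (Perm α) i).index = Fintype.card α := by
      rw [MulAction.index_stabilizer_of_transitive, Nat.card_eq_fintype_card]
    have hrel := Subgroup.relIndex_mul_index hle
    rw [hidx] at hrel
    have hone : H.relIndex (MulAction.stabilizer (Perm α) i) = 1 := by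
      have h2 : H.index ≠ 0 := Subgroup.index_ne_zero_of_finite
      have h3 : H.relIndex (MulAction.stabilizer (Perm α) i) ≠ 0 := by
        intro h4
        rw [h4, zero_mul] at hrel
        exact h2 hrel.symm
      have h4 : H.relIndex (MulAction.stabilizer (Perm α) i) < 2 := by
        by_contra h5
        push Not at h5
        have h6 := Nat.mul_le_mul_right (Fintype.card α) h5
        omega
      omega
    rw [Subgroup.relIndex_eq_one] at hone
    refine ⟨i, fun σ => ⟨fun h2 => ?_, fun h2 => ?_⟩⟩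
    · have h3 := hle h2
      rwa [MulAction.mem_stabilizer_iff, Perm.smul_def] at h3
    · exact hone (by rwa [MulAction.mem_stabilizer_iff, Perm.smul_def])
  · left
    have hall : ∀ x, x ∈ B := by
      have h1 : B = univ := eq_univ_of_card B (le_antisymm hBn hge)
      intro x
      rw [h1]
      exact mem_univ x
    rw [← Perm.closure_three_cycles_eq_alternating, Subgroup.closure_le]
    intro σ hσ
    obtain ⟨a, b, c, h1, h2, h3, rfl⟩ := Cls2_threeCycle hσ
    exact Cls2_T_of h1 h2 h3 (hBR a (hall a) b (hall b)) (hBR b (hall b) c (hall c))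

end Pool.Agent.helper4.UP
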