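import Pool.Agent.helper4.UP.Defs

/-!
# UP-Conc: concentration of measure on the symmetric group (Maurey)
-/

set_option autoImplicit false

open Finset Filter Topology
open Equiv (Perm)
open scoped Pointwise

namespace Pool.Agent.helper4.UP

theorem Conc_exp (x : ℝ) : Real.exp x ≤ x + Real.exp (x ^ 2) := by
  have h1 : x ^ 2 + 1 ≤ Real.exp (x ^ 2) := Real.add_one_le_exp _
  rcases le_or_gt |x| 1 with h | h
  · have h2 := (abs_le.1 (Real.abs_exp_sub_one_sub_id_le h)).2
    linarith
  · rcases lt_abs.1 h with h2 | h2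
    · have h3 : Real.exp x ≤ Real.exp (x ^ 2) := Real.exp_le_exp.2 (by nlinarith)
      linarith
    · have h3 : Real.exp x ≤ 1 := Real.exp_le_one_iff.2 (by linarith)
      nlinarith

theorem Conc_avg {ι : Type*} [Fintype ι] [Nonempty ι] (m : ι → ℝ) (h : ∀ k l, |m k - m l| ≤ 3)
    (t : ℝ) : ∑ k, Real.exp (t * (m k - (∑ l, m l) / Fintype.card ι)) ≤
      Real.exp (9 * t ^ 2) * Fintype.card ι := by
  have hc : (0 : ℝ) < Fintype.card ι := by exact_mod_cast Fintype.card_pos
  set a : ℝ := (∑ l, m l) / Fintype.card ι with ha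
  have ha' : ∑ l, m l = a * Fintype.card ι := (div_mul_cancel₀ _ hc.ne').symm
  have h1 : ∀ k, |m k - a| ≤ 3 := by
    intro k
    have h2 : (m k - a) * Fintype.card ι = ∑ l, (m k - m l) := by
      rw [sum_sub_distrib, sum_const, card_univ, nsmul_eq_mul, ha']
      ring
    have h3 : |m k - a| * Fintype.card ι ≤ 3 * Fintype.card ι := by
      rw [← abs_of_pos hc, ← abs_mul, abs_of_pos hc, h2]
      calc |∑ l, (m k - m l)| ≤ ∑ l, |m k - m l| := abs_sum_le_sum_abs _ _
        _ ≤ ∑ _l : ι, (3 : ℝ) := sum_le_sum fun l _ => h k l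
        _ = 3 * Fintype.card ι := by rw [sum_const, card_univ, nsmul_eq_mul, mul_comm]
    exact le_of_mul_le_mul_right h3 hc
  have h2 : ∑ k, t * (m k - a) = 0 := by
    rw [← mul_sum, sum_sub_distrib, sum_const, card_univ, nsmul_eq_mul, ha']
    ring
  calc ∑ k, Real.exp (t * (m k - a))
      ≤ ∑ k, (t * (m k - a) + Real.exp (9 * t ^ 2)) := by
        refine sum_le_sum fun k _ => (Conc_exp _).trans ?_
        gcongr
        have h3 := sq_abs (m k - a)
        have h4 := abs_nonneg (m k - a)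
        have h5 : (m k - a) ^ 2 ≤ 9 := by
          rw [← h3]
          nlinarith [h1 k]
        rw [mul_pow]
        nlinarith [sq_nonneg t]
    _ = Real.exp (9 * t ^ 2) * Fintype.card ι := by
        rw [sum_add_distrib, h2, sum_const, card_univ, nsmul_eq_mul]
        ring

theorem Conc_dec {n : ℕ} (k : Fin (n + 1)) (s : Perm (Fin n)) :
    Equiv.Perm.decomposeFin.symm (k, s) = Equiv.swap 0 k * Equiv.Perm.decomposeFin.symm (0, s) := by
  ext x
  refine Fin.cases ?_ (fun i => ?_) x
  · simp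
  · simp

theorem Conc_D1 {n : ℕ} (k : Fin (n + 1)) (s s' : Perm (Fin n)) :
    D (Equiv.Perm.decomposeFin.symm (k, s)) (Equiv.Perm.decomposeFin.symm (k, s')) ≤ D s s' := by
  rw [Conc_dec k s, Conc_dec k s', D_mul_left]
  unfold D
  refine (card_le_card (t := (univ.filter fun i => s i ≠ s' i).image Fin.succ) ?_).trans
    card_image_le
  intro x hx
  rw [mem_filter] at hx
  revert hx
  refine Fin.cases ?_ (fun i => ?_) x
  · simp
  · intro hx
    simp only [Equiv.Perm.decomposeFin_symm_apply_succ, Equiv.swap_self, Equiv.refl_apply] at hx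
    exact mem_image.2 ⟨i, mem_filter.2 ⟨mem_univ _, fun h => hx.2 (by rw [h])⟩, rfl⟩

theorem Conc_D2 {n : ℕ} (k l : Fin (n + 1)) (s : Perm (Fin n)) :
    D (Equiv.Perm.decomposeFin.symm (k, s)) (Equiv.Perm.decomposeFin.symm (l, s)) ≤ 3 := by
  rw [Conc_dec k s, Conc_dec l s, D_mul_right]
  unfold D
  refine (card_le_card (t := {0, k, l}) ?_).trans card_le_three
  intro x hx
  rw [mem_filter] at hx
  by_contra h
  simp only [mem_insert, mem_singleton, not_or] at h
  exact hx.2 (by rw [Equiv.swap_apply_of_ne_of_ne h.1 h.2.1, Equiv.swap_apply_of_ne_of_ne h.1 h.2.2])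

theorem Conc_fin (n : ℕ) : ∀ f : Perm (Fin n) → ℝ, (∀ σ τ, |f σ - f τ| ≤ (D σ τ : ℝ)) → ∀ t : ℝ,
    ∑ σ, Real.exp (t * (f σ - (∑ τ, f τ) / Fintype.card (Perm (Fin n)))) ≤
      Real.exp (9 * t ^ 2 * n) * Fintype.card (Perm (Fin n)) := by
  induction n with
  | zero =>
    intro f _ t
    simp
  | succ n ih =>
    intro f hf t
    set N : ℝ := (Fintype.card (Perm (Fin n)) : ℝ) with hN
    have hN0 : 0 < N := by
      rw [hN]; exact_mod_cast Fintype.card_pos
    have hn0 : (0 : ℝ) < (n : ℝ) + 1 := by positivity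
    have hcard : (Fintype.card (Perm (Fin (n + 1))) : ℝ) = ((n : ℝ) + 1) * N := by
      rw [hN, Fintype.card_perm, Fintype.card_perm, Fintype.card_fin, Fintype.card_fin,
        Nat.factorial_succ]
      push_cast
      ring
    set g : Fin (n + 1) → Perm (Fin n) → ℝ :=
      fun k s => f (Equiv.Perm.decomposeFin.symm (k, s)) with hg
    set m : Fin (n + 1) → ℝ := fun k => (∑ s, g k s) / N with hm
    have hsum : ∀ F : Perm (Fin (n + 1)) → ℝ, ∑ σ, F σ =
        ∑ k, ∑ s, F (Equiv.Perm.decomposeFin.symm (k, s)) := by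
      intro F
      rw [← Fintype.sum_prod_type']
      exact (Equiv.sum_comp (Equiv.Perm.decomposeFin (n := n)).symm F).symm
    have hmean : (∑ τ, f τ) / Fintype.card (Perm (Fin (n + 1))) =
        (∑ k, m k) / Fintype.card (Fin (n + 1)) := by
      rw [hsum f, hcard, hm, ← sum_div, Fintype.card_fin]
      push_cast
      field_simp
      rfl
    rw [hmean, hsum]
    set a : ℝ := (∑ k, m k) / Fintype.card (Fin (n + 1)) with ha
    have hm3 : ∀ k l, |m k - m l| ≤ 3 := by
      intro k l
      rw [hm]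
      simp only
      rw [← sub_div, ← sum_sub_distrib, abs_div, abs_of_pos hN0, div_le_iff₀ hN0]
      calc |∑ s, (g k s - g l s)| ≤ ∑ s, |g k s - g l s| := abs_sum_le_sum_abs _ _
        _ ≤ ∑ _s : Perm (Fin n), (3 : ℝ) := by
            refine sum_le_sum fun s _ => (hf _ _).trans ?_
            exact_mod_cast Conc_D2 k l s
        _ = 3 * N := by rw [sum_const, card_univ, nsmul_eq_mul, mul_comm]
    have hk : ∀ k, ∑ s, Real.exp (t * (f (Equiv.Perm.decomposeFin.symm (k, s)) - a)) ≤
        Real.exp (9 * t ^ 2 * n) * N * Real.exp (t * (m k - a)) := by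
      intro k
      have h1 := ih (g k) (fun σ τ => (hf _ _).trans (by exact_mod_cast Conc_D1 k σ τ)) t
      calc ∑ s, Real.exp (t * (f (Equiv.Perm.decomposeFin.symm (k, s)) - a))
          = (∑ s, Real.exp (t * (g k s - (∑ τ, g k τ) / N))) * Real.exp (t * (m k - a)) := by
            rw [sum_mul]
            refine sum_congr rfl fun s _ => ?_
            rw [← Real.exp_add]
            congr 1
            simp only [hg, hm]
            ring
        _ ≤ _ := by gcongr
    calc ∑ k, ∑ s, Real.exp (t * (f (Equiv.Perm.decomposeFin.symm (k, s)) - a))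
        ≤ ∑ k, Real.exp (9 * t ^ 2 * n) * N * Real.exp (t * (m k - a)) := sum_le_sum fun k _ => hk k
      _ = Real.exp (9 * t ^ 2 * n) * N * ∑ k, Real.exp (t * (m k - a)) := by rw [mul_sum]
      _ ≤ Real.exp (9 * t ^ 2 * n) * N * (Real.exp (9 * t ^ 2) * Fintype.card (Fin (n + 1))) := by
          have := Conc_avg m hm3 t
          gcongr
      _ = _ := by
          rw [hcard, Fintype.card_fin]
          push_cast
          rw [show 9 * t ^ 2 * ((n : ℝ) + 1) = 9 * t ^ 2 * n + 9 * t ^ 2 by ring, Real.exp_add]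
          ring

theorem Conc_D {α β : Type*} [Fintype α] [DecidableEq α] [Fintype β] [DecidableEq β] (e : α ≃ β)
    (σ τ : Perm β) : D (e.permCongr.symm σ) (e.permCongr.symm τ) ≤ D σ τ := by
  unfold D
  refine card_le_card_of_injOn e ?_ e.injective.injOn
  intro i hi
  simp only [coe_filter, mem_univ, true_and, Set.mem_ofPred_eq] at hi ⊢
  intro h
  exact hi (by simp [Equiv.permCongr_symm, Equiv.permCongr_apply, h])

theorem conc {α : Type*} [Fintype α] [DecidableEq α] (f : Perm α → ℝ)
    (hf : ∀ σ τ, |f σ - f τ| ≤ (D σ τ : ℝ)) (t : ℝ) :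
    ∑ σ, Real.exp (t * (f σ - (∑ τ, f τ) / NN α)) ≤
      Real.exp (9 * t ^ 2 * Fintype.card α) * NN α := by
  have e := Fintype.equivFin α
  have h1 := Conc_fin (Fintype.card α) (fun σ => f (e.permCongr.symm σ))
    (fun σ τ => (hf _ _).trans (by exact_mod_cast Conc_D e σ τ)) t
  have h2 : ∀ F : Perm α → ℝ, ∑ σ, F (e.permCongr.symm σ) = ∑ σ, F σ := fun F =>
    Equiv.sum_comp e.permCongr.symm F
  have h3 : (Fintype.card (Perm (Fin (Fintype.card α))) : ℝ) = NN α := by
    rw [NN, Fintype.card_congr e.permCongr]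
  rw [h3, h2 f, h2 (fun σ => Real.exp (t * (f σ - (∑ τ, f τ) / NN α)))] at h1
  exact h1

end Pool.Agent.helper4.UP
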