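import Mathlib

/-!
# Metric ultraproducts of symmetric groups (MP_753cb1_lc): definitions
-/

set_option autoImplicit false

open Finset Filter Topology
open Equiv (Perm)

namespace Pool.Agent.helper4.UP

/-- the number of points where two permutations differ -/
def D {α : Type*} [Fintype α] [DecidableEq α] (σ τ : Perm α) : ℕ :=
  (univ.filter fun i => σ i ≠ τ i).card

section Dlem

variable {α : Type*} [Fintype α] [DecidableEq α] (σ τ ρ : Perm α)

theorem D_self : D σ σ = 0 := by simp [D]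

theorem D_comm : D σ τ = D τ σ := by
  unfold D
  congr 1
  ext i
  simp [eq_comm]

theorem D_triangle : D σ ρ ≤ D σ τ + D τ ρ := by
  unfold D
  refine (card_le_card ?_).trans (card_union_le _ _)
  intro i hi
  simp only [mem_filter, mem_univ, true_and, mem_union] at hi ⊢
  by_contra hcon
  push Not at hcon
  exact hi (hcon.1.trans hcon.2)

theorem D_mul_left : D (ρ * σ) (ρ * τ) = D σ τ := by
  unfold D
  congr 1
  ext i
  simp

theorem D_mul_right : D (σ * ρ) (τ * ρ) = D σ τ := by
  unfold D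
  refine card_bij (fun i _ => ρ i) ?_ ?_ ?_
  · intro i hi
    simpa using hi
  · intro i _ j _ h
    exact ρ.injective h
  · intro i hi
    refine ⟨ρ⁻¹ i, ?_, ?_⟩
    · simpa using hi
    · simp

theorem D_mul_le (σ' τ' : Perm α) : D (σ * τ) (σ' * τ') ≤ D σ σ' + D τ τ' := by
  have h := D_triangle (σ * τ) (σ' * τ) (σ' * τ')
  rwa [D_mul_right, D_mul_left] at h

theorem D_inv : D σ⁻¹ τ⁻¹ = D σ τ := by
  have h1 : D σ⁻¹ τ⁻¹ = D (σ * σ⁻¹ * τ) (σ * τ⁻¹ * τ) := by
    rw [D_mul_right, D_mul_left]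
  rw [h1]
  simp [D_comm]

theorem D_conj : D (ρ * σ * ρ⁻¹) (ρ * τ * ρ⁻¹) = D σ τ := by
  rw [D_mul_right, D_mul_left]

theorem D_le_card : D σ τ ≤ Fintype.card α := (card_filter_le _ _).trans card_univ.le

end Dlem

/-- the normal subgroup `N_U` of the product of the symmetric groups: the sequences of permutations whose
normalized Hamming distance to the identity tends to `0` along `U` -/
def NU (U : Filter ℕ) : Subgroup (∀ n : ℕ, Perm (Fin n)) where
  carrier := {σ | Tendsto (fun n => (D (σ n) 1 : ℝ) / n) U (𝓝 0)}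
  one_mem' := by
    simp [D_self, tendsto_const_nhds]
  mul_mem' := by
    intro σ τ hσ hτ
    change Tendsto (fun n => (D (σ n) 1 : ℝ) / n) U (𝓝 0) at hσ
    change Tendsto (fun n => (D (τ n) 1 : ℝ) / n) U (𝓝 0) at hτ
    change Tendsto (fun n => (D (σ n * τ n) 1 : ℝ) / n) U (𝓝 0)
    refine squeeze_zero (fun n => by positivity) (fun n => ?_) (by simpa using hσ.add hτ)
    rw [← add_div]
    have h := D_mul_le (σ n) (τ n) 1 1
    rw [mul_one] at h
    gcongr
    exact_mod_cast h
  inv_mem' := by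
    intro σ hσ
    change Tendsto (fun n => (D (σ n) 1 : ℝ) / n) U (𝓝 0) at hσ
    change Tendsto (fun n => (D (σ n)⁻¹ 1 : ℝ) / n) U (𝓝 0)
    refine hσ.congr fun n => ?_
    have h := D_inv (σ n) 1
    rw [inv_one] at h
    rw [h]

instance NU_normal (U : Filter ℕ) : (NU U).Normal where
  conj_mem := by
    intro σ hσ ρ
    change Tendsto (fun n => (D (ρ n * σ n * (ρ n)⁻¹) 1 : ℝ) / n) U (𝓝 0)
    have hσ' : Tendsto (fun n => (D (σ n) 1 : ℝ) / n) U (𝓝 0) := hσ
    refine hσ'.congr fun n => ?_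
    have h := D_conj (σ n) 1 (ρ n)
    rw [mul_one, mul_inv_cancel] at h
    rw [h]

/-- the metric ultraproduct of the symmetric groups `Perm (Fin n)` along `U` -/
abbrev GU (U : Filter ℕ) : Type := (∀ n : ℕ, Perm (Fin n)) ⧸ NU U

/-- the class of a sequence of permutations -/
def cl (U : Filter ℕ) (σ : ∀ n : ℕ, Perm (Fin n)) : GU U := QuotientGroup.mk σ

section cl

variable {U : Filter ℕ}

theorem cl_surj (x : GU U) : ∃ σ, cl U σ = x := QuotientGroup.mk_surjective x

theorem cl_mul (σ τ : ∀ n : ℕ, Perm (Fin n)) : cl U (fun n => σ n * τ n) = cl U σ * cl U τ := rfl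

theorem cl_inv (σ : ∀ n : ℕ, Perm (Fin n)) : cl U (fun n => (σ n)⁻¹) = (cl U σ)⁻¹ := rfl

theorem cl_eq_iff (σ τ : ∀ n : ℕ, Perm (Fin n)) :
    cl U σ = cl U τ ↔ Tendsto (fun n => (D (σ n) (τ n) : ℝ) / n) U (𝓝 0) := by
  unfold cl
  rw [QuotientGroup.eq]
  change Tendsto (fun n => (D ((σ n)⁻¹ * τ n) 1 : ℝ) / n) U (𝓝 0) ↔ _
  have h : ∀ n, D ((σ n)⁻¹ * τ n) 1 = D (σ n) (τ n) := by
    intro n
    have h1 := D_mul_left ((σ n)⁻¹ * τ n) 1 (σ n)
    rw [← mul_assoc, mul_inv_cancel, one_mul, mul_one, D_comm] at h1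
    exact h1.symm
  simp only [h]

theorem cl_eq_iff' (σ τ : ∀ n : ℕ, Perm (Fin n)) :
    cl U σ = cl U τ ↔ ∀ ε : ℝ, 0 < ε → ∀ᶠ n in U, (D (σ n) (τ n) : ℝ) ≤ ε * n := by
  rw [cl_eq_iff]
  constructor
  · intro h ε hε
    have h1 := h.eventually (Iio_mem_nhds hε)
    filter_upwards [h1] with n hn
    rcases Nat.eq_zero_or_pos n with rfl | hn0
    · have h0 : D (σ 0) (τ 0) ≤ Fintype.card (Fin 0) := D_le_card _ _
      simp only [Fintype.card_fin, Nat.le_zero] at h0
      simp [h0]
    · have h2 : (0 : ℝ) < n := by exact_mod_cast hn0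
      have h3 : (D (σ n) (τ n) : ℝ) / n < ε := hn
      rw [div_lt_iff₀ h2] at h3
      exact h3.le
  · intro h
    rw [Metric.tendsto_nhds]
    intro ε hε
    filter_upwards [h (ε / 2) (by positivity)] with n hn
    rw [Real.dist_eq, sub_zero, abs_of_nonneg (by positivity)]
    rcases Nat.eq_zero_or_pos n with rfl | hn0
    · simpa using hε
    · have h2 : (0 : ℝ) < n := by exact_mod_cast hn0
      rw [div_lt_iff₀ h2]
      nlinarith

end cl

/-- the homomorphism `φ` is given by maps of the symmetric groups on the sequences which belong to `S` -/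
def Intl (U : Filter ℕ) (φ : GU U →* GU U) (S : ∀ n : ℕ, Set (Perm (Fin n))) : Prop :=
  ∃ f : ∀ n : ℕ, Perm (Fin n) → Perm (Fin n), ∀ σ : ∀ n : ℕ, Perm (Fin n),
    (∀ᶠ n in U, σ n ∈ S n) → φ (cl U σ) = cl U (fun n => f n (σ n))

/-- the permutations supported in `A` -/
def SymOn {α : Type*} (A : Finset α) : Set (Perm α) := {σ | ∀ i, i ∉ A → σ i = i}

/-- the number of permutations where two functions on the symmetric group differ -/
def Ds {α : Type*} [Fintype α] [DecidableEq α] (F G : Perm α → α) : ℕ :=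
  (univ.filter fun σ => F σ ≠ G σ).card

/-- translation -/
def sh {α : Type*} (τ : Perm α) (F : Perm α → α) : Perm α → α := fun σ => F (σ * τ)

/-- evaluation at a point -/
def ev {α : Type*} (ψ : Perm α → Perm α) (j : α) : Perm α → α := fun σ => ψ σ j

/-- the order of the symmetric group, as a real number -/
noncomputable def NN (α : Type*) [Fintype α] [DecidableEq α] : ℝ := (Fintype.card (Perm α) : ℝ)

/-- the permutations `τ` for which `τ` does not nearly map the function of `j` to the function of `ψ τ j` -/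
def bad {α : Type*} [Fintype α] [DecidableEq α] (ψ : Perm α → Perm α) (η : ℝ) (j : α) : Set (Perm α) :=
  {τ | η * NN α < (Ds (sh τ (ev ψ j)) (ev ψ (ψ τ j)) : ℝ)}

/-- the points with few bad permutations -/
def Good {α : Type*} [Fintype α] [DecidableEq α] (ψ : Perm α → Perm α) (η : ℝ) (j : α) : Prop :=
  ((bad ψ η j).ncard : ℝ) ≤ η * NN α

/-- the almost stabilizer of the function of `j` -/
def Hs {α : Type*} [Fintype α] [DecidableEq α] (ψ : Perm α → Perm α) (η : ℝ) (j : α) : Set (Perm α) :=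
  {κ | (Ds (ev ψ j) (sh κ (ev ψ j)) : ℝ) ≤ 2 * η * NN α}

end Pool.Agent.helper4.UP
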