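import Pool.Agent.helper4.UP.Pow
import Pool.Agent.helper4.UP.Cls2

/-!
# UP-PosP: a set of positive proportion of the permutations of A generates nearly everything in boundedly many steps

PROOF.  S is nonempty (0 < A.card ! ≤ C * S.ncard).  T = S * S⁻¹ is symmetric, contains 1, T.ncard ≥ S.ncard (right translate of S).
Γ = the subgroup of the permutations supported in A (image of Equiv.Perm.ofSubtype : Perm {x // x ∈ A} →* Perm α, injective), of order
A.card !.  pow_closed: K = closure T ⊆ T ^ (3 * C), K ≤ Γ.  K' = K.comap ofSubtype ≤ Perm {x // x ∈ A}: card K' = card K ≥ T.ncard,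
so K'.index ≤ C < A.card.  cls for K' (3 index ≤ 4 card): K' ≥ alternatingGroup, or K' = stabilizer of a point, of index A.card > C, which
is impossible.  For σ ∈ SymOn A, σ = ofSubtype σ': if σ' is even, τ = σ.  Otherwise σ' * swap a b is even for a ≠ b in A, and
τ = σ * swap a b, D σ τ = D 1 (swap a b) ≤ 2.
-/

set_option autoImplicit false

open Finset Filter Topology
open Equiv (Perm)
open scoped Pointwise

namespace Pool.Agent.helper4.UP

theorem PosP_lift {α : Type*} [Fintype α] [DecidableEq α] (A : Finset α) {σ : Perm α}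
    (hσ : σ ∈ SymOn A) : ∃ σ' : Perm {x // x ∈ A}, Equiv.Perm.ofSubtype σ' = σ := by
  have h1 : ∀ i, i ∈ A ↔ σ i ∈ A := by
    intro i
    constructor
    · intro hi
      by_contra hc
      have h2 : σ (σ i) = σ i := hσ (σ i) hc
      exact hc (by rw [σ.injective h2]; exact hi)
    · intro hi
      by_contra hc
      rw [hσ i hc] at hi
      exact hc hi
  refine ⟨σ.subtypePerm fun i => (h1 i).symm, ?_⟩
  apply Equiv.Perm.ofSubtype_subtypePerm
  intro i hi
  by_contra hc
  exact hi (hσ i hc)

theorem PosP_swap {α : Type*} [Fintype α] [DecidableEq α] (a b : α) : D 1 (Equiv.swap a b) ≤ 2 := by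
  unfold D
  have h1 : (univ.filter fun i => (1 : Perm α) i ≠ Equiv.swap a b i) ⊆ {a, b} := by
    intro i hi
    rw [mem_filter] at hi
    rw [mem_insert, mem_singleton]
    by_contra hc
    push Not at hc
    apply hi.2
    rw [Equiv.swap_apply_of_ne_of_ne hc.1 hc.2]
    rfl
  exact (card_le_card h1).trans card_le_two

theorem posp {α : Type*} [Fintype α] [DecidableEq α] (A : Finset α) (S : Set (Perm α))
    (hS : S ⊆ SymOn A) (C : ℕ) (hC : Nat.factorial A.card ≤ C * S.ncard) (hA : 16 ≤ A.card) (hA' : C < A.card) :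
    ∀ σ ∈ SymOn A, ∃ τ ∈ (S * S⁻¹) ^ (3 * C), D σ τ ≤ 2 := by
  classical
  -- `S` is not empty
  have hSne : S.Nonempty := by
    by_contra hne
    rw [Set.not_nonempty_iff_eq_empty] at hne
    rw [hne, Set.ncard_empty, mul_zero] at hC
    have := Nat.factorial_pos A.card
    omega
  obtain ⟨s0, hs0⟩ := hSne
  set T : Set (Perm α) := S * S⁻¹ with hT
  have h1 : (1 : Perm α) ∈ T := by
    rw [hT, Set.mem_mul]
    exact ⟨s0, hs0, s0⁻¹, Set.inv_mem_inv.2 hs0, mul_inv_cancel s0⟩
  have hinv : ∀ x ∈ T, x⁻¹ ∈ T := by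
    intro x hx
    rw [hT, Set.mem_mul] at hx
    obtain ⟨a, ha, b, hb, rfl⟩ := hx
    rw [hT, Set.mem_mul]
    exact ⟨b⁻¹, Set.mem_inv.1 hb, a⁻¹, Set.inv_mem_inv.2 ha, by rw [mul_inv_rev]⟩
  have hTcard : S.ncard ≤ T.ncard := by
    refine Set.ncard_le_ncard_of_injOn (fun s => s * s0⁻¹) ?_ ?_ (Set.toFinite T)
    · intro s hs
      exact Set.mul_mem_mul hs (Set.inv_mem_inv.2 hs0)
    · intro s _ t _ h
      exact mul_right_cancel h
  -- the group of the permutations supported in `A`
  let ι : Perm {x // x ∈ A} →* Perm α := Equiv.Perm.ofSubtype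
  have hι : Function.Injective ι := Equiv.Perm.ofSubtype_injective
  have hmem : ∀ σ ∈ SymOn A, σ ∈ ι.range := fun σ hσ => PosP_lift A hσ
  have hcardA : Nat.card (Perm {x // x ∈ A}) = Nat.factorial A.card := by
    rw [Nat.card_eq_fintype_card, Fintype.card_perm, Fintype.card_coe]
  have hΓ : Nat.card ι.range = Nat.factorial A.card := by
    rw [← hcardA]
    exact Nat.card_congr (MonoidHom.ofInjective hι).toEquiv.symm
  have hTΓ : T ⊆ (ι.range : Set (Perm α)) := by
    intro x hx
    rw [hT, Set.mem_mul] at hx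
    obtain ⟨a, ha, b, hb, rfl⟩ := hx
    have h2 := ι.range.inv_mem (hmem _ (hS (Set.mem_inv.1 hb)))
    rw [inv_inv] at h2
    exact ι.range.mul_mem (hmem _ (hS ha)) h2
  have hclosed := pow_closed T h1 hinv C ι.range hTΓ
    (by rw [hΓ]; exact hC.trans (Nat.mul_le_mul_left C hTcard))
  set K := Subgroup.closure T with hK
  have hKΓ : K ≤ ι.range := by
    rw [hK, Subgroup.closure_le]
    exact hTΓ
  set K' := K.comap ι with hK'
  have hmap : K'.map ι = K := Subgroup.map_comap_eq_self hKΓ
  have hcardK : Nat.card K' = Nat.card K := by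
    rw [← hmap]
    exact Nat.card_congr (K'.equivMapOfInjective ι hι).toEquiv
  have hKT : T.ncard ≤ Nat.card K := by
    have h2 : Nat.card K = (K : Set (Perm α)).ncard := rfl
    rw [h2]
    exact Set.ncard_le_ncard Subgroup.subset_closure (Set.toFinite _)
  have hidx : K'.index ≤ C := by
    have h2 := K'.card_mul_index
    rw [hcardA] at h2
    have h3 : 0 < Nat.card K' := Nat.card_pos
    have h4 : Nat.card K' * K'.index ≤ Nat.card K' * C := by
      rw [h2]
      calc Nat.factorial A.card ≤ C * S.ncard := hC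
        _ ≤ C * Nat.card K' := by
            rw [hcardK]
            exact Nat.mul_le_mul_left C (hTcard.trans hKT)
        _ = Nat.card K' * C := mul_comm _ _
    exact Nat.le_of_mul_le_mul_left h4 h3
  have hcardA' : Fintype.card {x // x ∈ A} = A.card := Fintype.card_coe A
  have halt : alternatingGroup {x // x ∈ A} ≤ K' := by
    rcases cls K' (by rw [hcardA']; exact hA) (by rw [hcardA']; omega) with h2 | ⟨i, hi⟩
    · exact h2
    · exfalso
      have h3 : K' = MulAction.stabilizer (Perm {x // x ∈ A}) i := by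
        ext σ
        rw [hi σ, MulAction.mem_stabilizer_iff, Equiv.Perm.smul_def]
      have h4 := MulAction.index_stabilizer_of_transitive (Perm {x // x ∈ A}) i
      rw [← h3, Nat.card_eq_fintype_card, hcardA'] at h4
      omega
  have hin : ∀ ρ : Perm {x // x ∈ A}, ρ ∈ K' → ι ρ ∈ T ^ (3 * C) := fun ρ hρ => hclosed hρ
  intro σ hσ
  obtain ⟨σ', hσ'⟩ := PosP_lift A hσ
  rcases Int.units_eq_one_or (Equiv.Perm.sign σ') with hs | hs
  · refine ⟨σ, ?_, ?_⟩
    · have h2 := hin σ' (halt (Equiv.Perm.mem_alternatingGroup.2 hs))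
      rw [← hσ']
      exact h2
    · rw [D_self]
      exact Nat.zero_le 2
  · obtain ⟨a, b, hab⟩ : ∃ a b : {x // x ∈ A}, a ≠ b := by
      have h2 : 1 < Fintype.card {x // x ∈ A} := by rw [hcardA']; omega
      exact Fintype.exists_pair_of_one_lt_card h2
    refine ⟨σ * Equiv.swap (a : α) (b : α), ?_, ?_⟩
    · have h2 : Equiv.Perm.sign (σ' * Equiv.swap a b) = 1 := by
        rw [Equiv.Perm.sign_mul, hs, Equiv.Perm.sign_swap hab]
        rfl
      have h3 := hin (σ' * Equiv.swap a b) (halt (Equiv.Perm.mem_alternatingGroup.2 h2))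
      rw [map_mul] at h3
      have h4 : ι (Equiv.swap a b) = Equiv.swap (a : α) (b : α) := Equiv.Perm.ofSubtype_swap_eq a b
      rw [h4] at h3
      have h5 : ι σ' = σ := hσ'
      rw [h5] at h3
      exact h3
    · have h2 := D_mul_left 1 (Equiv.swap (a : α) (b : α)) σ
      rw [mul_one] at h2
      rw [h2]
      exact PosP_swap _ _

end Pool.Agent.helper4.UP
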