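import Pool.Agent.helper4.UP.Inn
import Pool.Agent.helper4.UP.Grow
import Pool.Agent.helper4.UP.PosP

/-!
# UP-Fin: assembly
-/

set_option autoImplicit false

open Finset Filter Topology
open Equiv (Perm)
open scoped Pointwise

namespace Pool.Agent.helper4.UP

theorem main (U : Ultrafilter ℕ) (hU : (U : Filter ℕ) ≤ atTop) (φ : GU (U : Filter ℕ) →* GU (U : Filter ℕ))
    (hφ : ∃ x, φ x ≠ 1) (a c : ℝ) (ha : 0 < a) (hc : 0 < c)
    (A : ∀ n : ℕ, Finset (Fin n)) (hA : ∀ᶠ n : ℕ in U, a * n ≤ ((A n).card : ℝ))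
    (S : ∀ n : ℕ, Set (Perm (Fin n))) (hS : ∀ᶠ n : ℕ in U, S n ⊆ SymOn (A n))
    (hS' : ∀ᶠ n : ℕ in U, c * (Nat.factorial (A n).card : ℝ) ≤ ((S n).ncard : ℝ))
    (f : ∀ n : ℕ, Perm (Fin n) → Perm (Fin n))
    (hf : ∀ σ : ∀ n : ℕ, Perm (Fin n), (∀ᶠ n in U, σ n ∈ S n) →
      φ (cl U σ) = cl U (fun n => f n (σ n))) :
    ∃ g : GU (U : Filter ℕ), ∀ x, φ x = g * x * g⁻¹ := by
  have h0 : Intl (U : Filter ℕ) φ S := ⟨f, hf⟩
  obtain ⟨C, hC⟩ := exists_nat_ge (1 / c)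
  have h1 : Intl (U : Filter ℕ) φ (fun n => (S n * (S n)⁻¹) ^ (3 * C)) := (h0.mul h0.inv).pow (3 * C)
  have hbig : ∀ᶠ n : ℕ in (U : Filter ℕ), 16 ≤ (A n).card ∧ C < (A n).card := by
    have h2 : ∀ᶠ n : ℕ in (U : Filter ℕ), ((16 + C + 1 : ℕ) : ℝ) / a ≤ n :=
      hU (tendsto_natCast_atTop_atTop.eventually (eventually_ge_atTop _))
    filter_upwards [h2, hA] with n hn hn'
    rw [div_le_iff₀ ha] at hn
    have h3 : ((16 + C + 1 : ℕ) : ℝ) ≤ ((A n).card : ℝ) := hn.trans (by linarith)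
    have h4 : 16 + C + 1 ≤ (A n).card := by exact_mod_cast h3
    constructor <;> omega
  have h2 : Intl (U : Filter ℕ) φ (fun n => SymOn (A n)) := by
    refine h1.near hU ?_
    filter_upwards [hS, hS', hbig] with n hn hn' hn2
    refine posp (A n) (S n) hn C ?_ hn2.1 hn2.2
    have h3 : (Nat.factorial (A n).card : ℝ) ≤ (C : ℝ) * ((S n).ncard : ℝ) := by
      have h4 : 1 ≤ (C : ℝ) * c := by
        rw [div_le_iff₀ hc] at hC
        exact hC
      have h5 : (0 : ℝ) ≤ (Nat.factorial (A n).card : ℝ) := by positivity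
      calc (Nat.factorial (A n).card : ℝ) ≤ (C : ℝ) * c * (Nat.factorial (A n).card : ℝ) := by nlinarith
        _ = (C : ℝ) * (c * (Nat.factorial (A n).card : ℝ)) := by ring
        _ ≤ (C : ℝ) * ((S n).ncard : ℝ) := by gcongr
    exact_mod_cast h3
  exact inn U hU φ hφ (grow (U : Filter ℕ) hU φ A a ha hA h2)

end Pool.Agent.helper4.UP
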