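import Pool.Agent.helper4.UP.StF

/-!
# UP-Inn: internal nontrivial endomorphisms are inner

PROOF.  φ (cl σ) = cl (f n (σ n)).  (1) For every δ > 0, for U-most n: ∀ σ τ : Perm (Fin n), D (f n (σ * τ)) (f n σ * f n τ) ≤ δ n.
Otherwise (ultrafilter) for U-most n there are σ_n, τ_n with the opposite inequality; but
cl (f (σ τ)) = φ (cl σ * cl τ) = cl (f σ) cl (f τ), cl_eq_iff' gives a contradiction.  (2) stab: for every ε > 0, U-mostly
(a ε): ∃ g ∀ σ, D (f n σ) (g σ g⁻¹) ≤ ε n, or (b ε): ∀ σ even, D (f n σ) 1 ≤ ε n.  If (b ε) holds U-mostly for every ε > 0 then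
φ (cl σ) = 1 for all sequences of even permutations, and every cl σ is the class of such a sequence (multiply the odd ones
by a transposition, D ≤ 2, n ≥ 2), so φ = 1, contradiction to hφ.  So for some ε0 (b ε0) fails U-mostly, hence (b ε) fails U-mostly and
(a ε) holds U-mostly for all ε ≤ ε0, hence for all ε > 0.  (3) Choose g_n minimizing sup_σ D (f n σ) (g σ g⁻¹) (finite set of naturals;
Finset.exists_min_image); then for every ε > 0 U-mostly ∀ σ, D (f n σ) (g_n σ g_n⁻¹) ≤ ε n, so φ (cl σ) = cl g * cl σ * (cl g)⁻¹.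
-/

set_option autoImplicit false

open Finset Filter Topology
open Equiv (Perm)
open scoped Pointwise

namespace Pool.Agent.helper4.UP

/-- an even permutation near a given one -/
private theorem Inn_even (n : ℕ) (σ : Perm (Fin n)) : ∃ s : Perm (Fin n), 2 ≤ n →
    (s ∈ alternatingGroup (Fin n) ∧ D σ s ≤ 2) := by
  by_cases hn : 2 ≤ n
  · by_cases hσ : σ ∈ alternatingGroup (Fin n)
    · exact ⟨σ, fun _ => ⟨hσ, by rw [D_self]; omega⟩⟩
    · have h01 : (⟨0, by omega⟩ : Fin n) ≠ ⟨1, by omega⟩ := by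
        intro h
        simpa using congrArg Fin.val h
      refine ⟨σ * Equiv.swap (⟨0, by omega⟩ : Fin n) ⟨1, by omega⟩, fun _ => ⟨?_, ?_⟩⟩
      · rw [Equiv.Perm.mem_alternatingGroup] at hσ ⊢
        rcases Int.units_eq_one_or (Equiv.Perm.sign σ) with h1 | h1
        · exact absurd h1 hσ
        · rw [map_mul, h1, Equiv.Perm.sign_swap h01]
          rfl
      · have h1 : D σ (σ * Equiv.swap (⟨0, by omega⟩ : Fin n) ⟨1, by omega⟩) =
            D 1 (Equiv.swap (⟨0, by omega⟩ : Fin n) ⟨1, by omega⟩) := by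
          have := D_mul_left 1 (Equiv.swap (⟨0, by omega⟩ : Fin n) ⟨1, by omega⟩) σ
          rwa [mul_one] at this
        rw [h1]
        unfold D
        refine (card_le_card (t := {⟨0, by omega⟩, ⟨1, by omega⟩}) ?_).trans card_le_two
        intro i hi
        simp only [mem_filter, mem_univ, true_and] at hi
        simp only [mem_insert, mem_singleton]
        by_contra hcon
        push Not at hcon
        exact hi (Equiv.swap_apply_of_ne_of_ne hcon.1 hcon.2).symm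
  · exact ⟨1, fun h => absurd h hn⟩

theorem inn (U : Ultrafilter ℕ) (hU : (U : Filter ℕ) ≤ atTop) (φ : GU (U : Filter ℕ) →* GU (U : Filter ℕ))
    (hφ : ∃ x, φ x ≠ 1) (h : Intl (U : Filter ℕ) φ (fun _ => Set.univ)) :
    ∃ g : GU (U : Filter ℕ), ∀ x, φ x = g * x * g⁻¹ := by
  obtain ⟨f, hf0⟩ := h
  have hf : ∀ σ : ∀ n : ℕ, Perm (Fin n), φ (cl (U : Filter ℕ) σ) = cl (U : Filter ℕ) (fun n => f n (σ n)) :=
    fun σ => hf0 σ (Eventually.of_forall fun n => Set.mem_univ _)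
  -- (1) `f n` is nearly multiplicative
  have h1 : ∀ δ : ℝ, 0 < δ → ∀ᶠ n in (U : Filter ℕ), ∀ σ τ : Perm (Fin n),
      (D (f n (σ * τ)) (f n σ * f n τ) : ℝ) ≤ δ * n := by
    intro δ hδ
    by_contra hcon
    rw [← Ultrafilter.eventually_not] at hcon
    have hch : ∀ n, ∃ p : Perm (Fin n) × Perm (Fin n),
        (¬ ∀ σ τ : Perm (Fin n), (D (f n (σ * τ)) (f n σ * f n τ) : ℝ) ≤ δ * n) →
          ¬ (D (f n (p.1 * p.2)) (f n p.1 * f n p.2) : ℝ) ≤ δ * n := by
      intro n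
      by_cases hh : ∀ σ τ : Perm (Fin n), (D (f n (σ * τ)) (f n σ * f n τ) : ℝ) ≤ δ * n
      · exact ⟨(1, 1), fun h' => absurd hh h'⟩
      · push Not at hh
        obtain ⟨σ, τ, hh⟩ := hh
        exact ⟨(σ, τ), fun _ => not_le.2 hh⟩
    choose p hp using hch
    have e1 := hf (fun n => (p n).1 * (p n).2)
    have e2 : cl (U : Filter ℕ) (fun n => (p n).1 * (p n).2) =
        cl (U : Filter ℕ) (fun n => (p n).1) * cl (U : Filter ℕ) (fun n => (p n).2) := cl_mul _ _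
    have e3 : cl (U : Filter ℕ) (fun n => f n (p n).1 * f n (p n).2) =
        cl (U : Filter ℕ) (fun n => f n (p n).1) * cl (U : Filter ℕ) (fun n => f n (p n).2) := cl_mul _ _
    rw [e2, map_mul, hf, hf, ← e3] at e1
    have e4 := (cl_eq_iff' _ _).1 e1.symm δ hδ
    obtain ⟨n, hn1, hn2⟩ := (e4.and hcon).exists
    exact hp n hn2 hn1
  have hn : ∀ n0 : ℕ, ∀ᶠ n in (U : Filter ℕ), n0 ≤ n := fun n0 => hU (eventually_ge_atTop n0)
  -- (2) the first alternative of `stab`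
  have h2 : ∀ ε : ℝ, 0 < ε →
      (∀ᶠ n in (U : Filter ℕ), ∃ g : Perm (Fin n), ∀ σ, (D (f n σ) (g * σ * g⁻¹) : ℝ) ≤ ε * n) ∨
      (∀ᶠ n in (U : Filter ℕ), ∀ σ ∈ alternatingGroup (Fin n), (D (f n σ) 1 : ℝ) ≤ ε * n) := by
    intro ε hε
    obtain ⟨δ, hδ, n0, hst⟩ := stab ε hε
    rw [← Ultrafilter.eventually_or]
    filter_upwards [h1 δ hδ, hn n0] with n hn1 hn2
    exact hst n hn2 (f n) hn1
  have h3 : ¬ ∀ ε : ℝ, 0 < ε →
      ∀ᶠ n in (U : Filter ℕ), ∀ σ ∈ alternatingGroup (Fin n), (D (f n σ) 1 : ℝ) ≤ ε * n := by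
    intro hb
    obtain ⟨x, hx⟩ := hφ
    apply hx
    obtain ⟨σ, rfl⟩ := cl_surj x
    choose s hs using fun n => Inn_even n (σ n)
    have e1 : cl (U : Filter ℕ) σ = cl (U : Filter ℕ) s := by
      rw [cl_eq_iff']
      intro ε hε
      filter_upwards [hn 2, hn ⌈2 / ε⌉₊] with n hn1 hn2
      have h4 := (hs n hn1).2
      have h5 : 2 / ε ≤ n := (Nat.le_ceil _).trans (by exact_mod_cast hn2)
      rw [div_le_iff₀ hε] at h5
      have h6 : (D (σ n) (s n) : ℝ) ≤ 2 := by exact_mod_cast h4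
      linarith
    rw [e1, hf]
    have e2 : (1 : GU (U : Filter ℕ)) = cl (U : Filter ℕ) (fun _ => 1) := rfl
    rw [e2, cl_eq_iff']
    intro ε hε
    filter_upwards [hn 2, hb ε hε] with n hn1 hn2
    exact hn2 _ (hs n hn1).1
  have h4 : ∀ ε : ℝ, 0 < ε →
      ∀ᶠ n in (U : Filter ℕ), ∃ g : Perm (Fin n), ∀ σ, (D (f n σ) (g * σ * g⁻¹) : ℝ) ≤ ε * n := by
    push Not at h3
    obtain ⟨ε0, hε0, hb⟩ := h3
    intro ε hε
    rcases h2 (min ε ε0) (lt_min hε hε0) with ha | hb'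
    · filter_upwards [ha] with n hg
      obtain ⟨g, hg⟩ := hg
      exact ⟨g, fun σ => (hg σ).trans (mul_le_mul_of_nonneg_right (min_le_left _ _) (Nat.cast_nonneg n))⟩
    · exfalso
      obtain ⟨n, ⟨σ, hσ, hb1⟩, hb2⟩ := (hb.and hb').exists
      have := (hb2 σ hσ).trans (mul_le_mul_of_nonneg_right (min_le_right ε ε0) (Nat.cast_nonneg n))
      linarith
  -- (3) the best choice of `g`
  have hg : ∀ n : ℕ, ∃ g : Perm (Fin n), ∀ g' : Perm (Fin n),
      (univ.sup fun σ : Perm (Fin n) => D (f n σ) (g * σ * g⁻¹)) ≤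
        univ.sup fun σ : Perm (Fin n) => D (f n σ) (g' * σ * g'⁻¹) := by
    intro n
    obtain ⟨g, -, hg⟩ := Finset.exists_min_image (univ : Finset (Perm (Fin n)))
      (fun g => univ.sup fun σ : Perm (Fin n) => D (f n σ) (g * σ * g⁻¹)) ⟨1, mem_univ _⟩
    exact ⟨g, fun g' => hg g' (mem_univ _)⟩
  choose g hg using hg
  refine ⟨cl (U : Filter ℕ) g, fun x => ?_⟩
  obtain ⟨σ, rfl⟩ := cl_surj x
  rw [hf]
  have e1 : cl (U : Filter ℕ) g * cl (U : Filter ℕ) σ * (cl (U : Filter ℕ) g)⁻¹ =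
      cl (U : Filter ℕ) (fun n => g n * σ n * (g n)⁻¹) := rfl
  rw [e1, cl_eq_iff']
  intro ε hε
  filter_upwards [h4 ε hε] with n hn1
  obtain ⟨g', hg'⟩ := hn1
  have h5 : D (f n (σ n)) (g n * σ n * (g n)⁻¹) ≤
      univ.sup fun τ : Perm (Fin n) => D (f n τ) (g n * τ * (g n)⁻¹) :=
    Finset.le_sup (f := fun τ : Perm (Fin n) => D (f n τ) (g n * τ * (g n)⁻¹)) (mem_univ (σ n))
  have h6 : (univ.sup fun τ : Perm (Fin n) => D (f n τ) (g' * τ * g'⁻¹)) ≤ ⌊ε * n⌋₊ :=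
    Finset.sup_le fun τ _ => Nat.le_floor (hg' τ)
  have h7 : (D (f n (σ n)) (g n * σ n * (g n)⁻¹) : ℝ) ≤ (⌊ε * n⌋₊ : ℕ) := by
    exact_mod_cast (h5.trans (hg n g')).trans h6
  exact h7.trans (Nat.floor_le (by positivity))

end Pool.Agent.helper4.UP
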