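import Pool.Agent.helper4.UP.NPa

/-!
# UP-NPb: the same for the permutations supported in A

PROOF.  β = {x // x ∈ A}, ι = Equiv.Perm.ofSubtype : Perm β →* Perm α, injective, with range SymOn A
(NN β = A.card !), and D (ι σ) (ι τ) = D σ τ.  S' = ι⁻¹' S has S'.ncard = S.ncard (hS).  near_univ for S'.
-/

set_option autoImplicit false

open Finset Filter Topology
open Equiv (Perm)
open scoped Pointwise

namespace Pool.Agent.helper4.UP

/-- the extension by the identity keeps the number of points where two permutations differ -/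
theorem NPb_D {α : Type*} [Fintype α] [DecidableEq α] (A : Finset α) (σ τ : Perm {x // x ∈ A}) :
    D (Equiv.Perm.ofSubtype σ) (Equiv.Perm.ofSubtype τ) = D σ τ := by
  unfold D
  symm
  refine card_bij (fun i _ => (i : α)) ?_ ?_ ?_
  · intro i hi
    simp only [mem_filter, mem_univ, true_and] at hi ⊢
    rw [Equiv.Perm.ofSubtype_apply_coe, Equiv.Perm.ofSubtype_apply_coe]
    exact fun h => hi (Subtype.ext h)
  · intro i _ j _ h
    exact Subtype.ext h
  · intro i hi
    simp only [mem_filter, mem_univ, true_and] at hi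
    by_cases hA : i ∈ A
    · refine ⟨⟨i, hA⟩, ?_, rfl⟩
      simp only [mem_filter, mem_univ, true_and]
      intro h
      apply hi
      have h1 := Equiv.Perm.ofSubtype_apply_coe σ ⟨i, hA⟩
      have h2 := Equiv.Perm.ofSubtype_apply_coe τ ⟨i, hA⟩
      simp only at h1 h2
      rw [h1, h2, h]
    · exfalso
      apply hi
      rw [Equiv.Perm.ofSubtype_apply_of_not_mem σ hA, Equiv.Perm.ofSubtype_apply_of_not_mem τ hA]

/-- every permutation supported in `A` is the extension of a permutation of `A` -/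
theorem NPb_surj {α : Type*} [Fintype α] [DecidableEq α] (A : Finset α) (σ : Perm α)
    (hσ : σ ∈ SymOn A) : ∃ σ' : Perm {x // x ∈ A}, Equiv.Perm.ofSubtype σ' = σ := by
  have hσ' : ∀ i, i ∉ A → σ i = i := hσ
  have h1 : ∀ x, x ∈ A ↔ σ x ∈ A := by
    intro x
    constructor
    · intro hx
      by_contra hcon
      have h2 := hσ' (σ x) hcon
      have h3 := σ.injective h2
      rw [h3] at hcon
      exact hcon hx
    · intro hx
      by_contra hcon
      rw [hσ' x hcon] at hx
      exact hcon hx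
  refine ⟨σ.subtypePerm (fun x => (h1 x).symm), ?_⟩
  refine Equiv.Perm.ofSubtype_subtypePerm _ ?_
  intro x hx
  by_contra hcon
  exact hx (hσ' x hcon)

theorem near_prod {α : Type*} [Fintype α] [DecidableEq α] (A : Finset α) (S : Set (Perm α))
    (hS : S ⊆ SymOn A) (ε N : ℝ) (hε : 0 < ε) (hN : (A.card : ℝ) ≤ N)
    (h : Real.exp (-(ε * N)) * (Nat.factorial A.card : ℝ) ≤ (S.ncard : ℝ)) :
    ∀ σ ∈ SymOn A, ∃ τ ∈ S * S, (D σ τ : ℝ) ≤ 60 * Real.sqrt ε * N := by
  intro σ hσ
  obtain ⟨σ', rfl⟩ := NPb_surj A σ hσ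
  have hinj : Function.Injective (Equiv.Perm.ofSubtype : Perm {x // x ∈ A} →* Perm α) :=
    Equiv.Perm.ofSubtype_injective
  have himg : (Equiv.Perm.ofSubtype : Perm {x // x ∈ A} →* Perm α) ''
      ((Equiv.Perm.ofSubtype : Perm {x // x ∈ A} →* Perm α) ⁻¹' S) = S := by
    apply Set.image_preimage_eq_of_subset
    intro s hs
    exact NPb_surj A s (hS hs)
  have hcard : ((Equiv.Perm.ofSubtype : Perm {x // x ∈ A} →* Perm α) ⁻¹' S).ncard = S.ncard := by
    conv_rhs => rw [← himg]
    exact (Set.ncard_image_of_injective _ hinj).symm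
  have hNN : NN {x // x ∈ A} = (Nat.factorial A.card : ℝ) := by
    unfold NN
    rw [Fintype.card_perm, Fintype.card_coe]
  obtain ⟨τ, hτ, hD⟩ := near_univ ((Equiv.Perm.ofSubtype : Perm {x // x ∈ A} →* Perm α) ⁻¹' S) ε N hε
    (by rw [Fintype.card_coe]; exact hN) (by rw [hNN, hcard]; exact h) σ'
  obtain ⟨τ1, h1, τ2, h2, rfl⟩ := Set.mem_mul.1 hτ
  refine ⟨Equiv.Perm.ofSubtype τ1 * Equiv.Perm.ofSubtype τ2, Set.mul_mem_mul h1 h2, ?_⟩
  rw [← map_mul, NPb_D]
  exact hD

end Pool.Agent.helper4.UP
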