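import Pool.Agent.helper4.UP.Defs

/-!
# UP-Pow: bounded powers of a large symmetric set are subgroups

PROOF.  T ^ k is increasing in k (1 ∈ T), T ^ k ⊆ Γ.  If T ^ (j + 1) = T ^ j for some j ≤ 3 * C then T ^ (3 * C) * T = T ^ (3 * C), so
T ^ (3 * C) contains 1, T and is closed under multiplication by T (and T = T⁻¹), so it contains the closure of T.
Otherwise choose g_i ∈ T ^ (3 i + 1) \ T ^ (3 i) for i = 0, ..., C.  g_i T ⊆ T ^ (3 i + 2), and for i ≥ 1
g_i T ∩ T ^ (3 i - 1) = ∅ (else g_i ∈ T ^ (3 i - 1) * T⁻¹ = T ^ (3 i)).  So the C + 1 sets g_i T ⊆ Γ are pairwise disjoint, of size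
T.ncard: (C + 1) * T.ncard ≤ card Γ ≤ C * T.ncard, contradiction as T is nonempty and finite.
-/

set_option autoImplicit false

open Finset Filter Topology
open Equiv (Perm)
open scoped Pointwise

namespace Pool.Agent.helper4.UP

theorem Pow_mono {G : Type*} [Group G] {T : Set G} (h1 : 1 ∈ T) {m n : ℕ} (h : m ≤ n) :
    T ^ m ⊆ T ^ n := by
  induction n, h using Nat.le_induction with
  | base => exact le_refl _
  | succ n _ ih =>
    intro x hx
    rw [pow_succ]
    exact ⟨x, ih hx, 1, h1, mul_one x⟩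

theorem Pow_sub {G : Type*} [Group G] {T : Set G} {Γ : Subgroup G} (hT : T ⊆ (Γ : Set G)) (n : ℕ) :
    T ^ n ⊆ (Γ : Set G) := by
  induction n with
  | zero =>
    intro x hx
    rw [pow_zero, Set.mem_one] at hx
    rw [hx]
    exact Γ.one_mem
  | succ n ih =>
    rw [pow_succ]
    rintro _ ⟨x, hx, y, hy, rfl⟩
    exact Γ.mul_mem (ih hx) (hT hy)

theorem Pow_stable {G : Type*} [Group G] {T : Set G} {j : ℕ} (h : T ^ (j + 1) = T ^ j) (k : ℕ) :
    T ^ (j + k) = T ^ j := by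
  induction k with
  | zero => rfl
  | succ k ih => rw [← add_assoc, pow_succ, ih, ← pow_succ, h]

theorem pow_closed {G : Type*} [Group G] [Finite G] (T : Set G) (h1 : 1 ∈ T) (hinv : ∀ x ∈ T, x⁻¹ ∈ T)
    (C : ℕ) (Γ : Subgroup G) (hT : T ⊆ (Γ : Set G)) (hC : Nat.card Γ ≤ C * T.ncard) :
    (Subgroup.closure T : Set G) ⊆ T ^ (3 * C) := by
  by_cases hj : ∃ j ≤ 3 * C, T ^ (j + 1) = T ^ j
  · obtain ⟨j, hj1, hj2⟩ := hj
    obtain ⟨k, hk⟩ := Nat.exists_eq_add_of_le hj1
    have h2 : T ^ (3 * C) = T ^ j := by rw [hk]; exact Pow_stable hj2 k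
    have h3 : T ^ (3 * C) * T = T ^ (3 * C) := by rw [h2, ← pow_succ, hj2]
    have h4 : ∀ x ∈ T ^ (3 * C), ∀ y ∈ T, x * y ∈ T ^ (3 * C) := fun x hx y hy => by
      rw [← h3]
      exact ⟨x, hx, y, hy, rfl⟩
    have h5 : (1 : G) ∈ T ^ (3 * C) := by
      apply Pow_mono h1 (Nat.zero_le _)
      rw [pow_zero]
      exact Set.mem_one.mpr rfl
    intro x hx
    refine Subgroup.closure_induction_right (p := fun x _ => x ∈ T ^ (3 * C)) h5
      (fun x _ y hy hp => h4 x hp y hy) (fun x _ y hy hp => h4 x hp y⁻¹ (hinv y hy)) hx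
  · exfalso
    push Not at hj
    have hg : ∀ i : Fin (C + 1), ∃ g, g ∈ T ^ (3 * (i : ℕ) + 1) ∧ g ∉ T ^ (3 * (i : ℕ)) := fun i => by
      have h2 := hj (3 * (i : ℕ)) (by have := i.2; omega)
      by_contra h3
      push Not at h3
      exact h2 (Set.Subset.antisymm h3 (Pow_mono h1 (Nat.le_succ _)))
    choose g hg1 hg2 using hg
    have hlt : ∀ i j : Fin (C + 1), i < j → ∀ t ∈ T, ∀ t' ∈ T, g i * t ≠ g j * t' := by
      intro i j hij t ht t' ht' h2
      apply hg2 j
      have h3 : g j = g i * t * t'⁻¹ := by rw [h2, mul_inv_cancel_right]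
      have h4 : g i * t * t'⁻¹ ∈ T ^ (3 * (i : ℕ) + 1 + 1 + 1) := by
        rw [pow_succ, pow_succ]
        exact ⟨_, ⟨_, hg1 i, t, ht, rfl⟩, _, hinv t' ht', rfl⟩
      rw [h3]
      have h5 : (i : ℕ) < j := hij
      exact Pow_mono h1 (by omega) h4
    let f : Fin (C + 1) × T → Γ := fun p => ⟨g p.1 * p.2,
      Γ.mul_mem (Pow_sub hT _ (hg1 p.1)) (hT p.2.2)⟩
    have hf : Function.Injective f := by
      rintro ⟨i, t, ht⟩ ⟨j, t', ht'⟩ h2
      have h3 : g i * t = g j * t' := congrArg Subtype.val h2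
      rcases lt_trichotomy i j with h | h | h
      · exact (hlt i j h t ht t' ht' h3).elim
      · subst h
        have h4 := mul_left_cancel h3
        subst h4
        rfl
      · exact (hlt j i h t' ht' t ht h3.symm).elim
    have h2 := Nat.card_le_card_of_injective f hf
    rw [Nat.card_prod, Nat.card_fin, Nat.card_coe_set_eq] at h2
    have h3 : 0 < T.ncard := (Set.ncard_pos (Set.toFinite T)).mpr ⟨1, h1⟩
    have h4 := h2.trans hC
    have h5 := Nat.le_of_mul_le_mul_right h4 h3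
    omega

end Pool.Agent.helper4.UP
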