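import Pool.Agent.helper4.UP.Defs

/-!
# UP-SymU: Sym(A ∪ B) = Sym(A) Sym(B) Sym(A) if card (B \ A) ≤ card (A ∩ B)

PROOF.  σ ∈ SymOn (A ∪ B) (σ maps A ∪ B to itself).  R = B \ A.  The set X = {x ∈ A : σ x ∈ R} has at most card R ≤ card (A ∩ B)
elements, so there is ρ3 ∈ SymOn A with ρ3 X ⊆ A ∩ B.  The map ρ3 x ↦ σ x on ρ3 '' (σ⁻¹ R) (a subset of B: for x ∈ X by choice, for
x ∈ B \ A as ρ3 x = x) to R is injective; extend it to ρ2 ∈ SymOn B.  So ρ2 (ρ3 x) = σ x whenever σ x ∈ R.  τ = σ * (ρ2 * ρ3)⁻¹ fixes R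
and everything outside A ∪ B, so τ ∈ SymOn A, and σ = τ * ρ2 * ρ3.
(Useful auxiliary lemma: if X, Y ⊆ A finsets, X.card ≤ Y.card resp. f : injective on X with values in A then there is a permutation in
SymOn A extending f on X: work in Perm {x // x ∈ A} with Finset.exists_equiv_extend_of_card_eq / Equiv.extendSubtype and ofSubtype.)
-/

set_option autoImplicit false

open Finset Filter Topology
open Equiv (Perm)
open scoped Pointwise

namespace Pool.Agent.helper4.UP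

/-- extension of an injective map to a permutation supported in `A` -/
theorem SymU_ext {α : Type*} [Fintype α] [DecidableEq α] (A X : Finset α) (hX : X ⊆ A) (f : α → α)
    (hf : ∀ x ∈ X, f x ∈ A) (hi : ∀ x ∈ X, ∀ y ∈ X, f x = f y → x = y) :
    ∃ ρ : Perm α, ρ ∈ SymOn A ∧ ∀ x ∈ X, ρ x = f x := by
  have hc : Fintype.card {x // x ∈ A} = A.card := Fintype.card_coe A
  obtain ⟨g, hg⟩ := Finset.exists_equiv_extend_of_card_eq (t := A) hc
    (s := univ.filter fun x : {x // x ∈ A} => x.1 ∈ X) (f := fun x => f x.1) (by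
      intro y hy
      obtain ⟨x, hx, rfl⟩ := Finset.mem_image.1 hy
      exact hf _ (Finset.mem_filter.1 hx).2) (by
      intro x hx y hy hxy
      have hx' : x.1 ∈ X := (Finset.mem_filter.1 (Finset.mem_coe.1 hx)).2
      have hy' : y.1 ∈ X := (Finset.mem_filter.1 (Finset.mem_coe.1 hy)).2
      exact Subtype.ext (hi _ hx' _ hy' hxy))
  obtain ⟨g', hg'⟩ : ∃ g' : Perm {x // x ∈ A}, ∀ x, g' x = g x := ⟨g, fun _ => rfl⟩
  refine ⟨Equiv.Perm.ofSubtype g', fun i hiA => ?_, fun x hx => ?_⟩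
  · exact Equiv.Perm.ofSubtype_apply_of_not_mem g' hiA
  · rw [Equiv.Perm.ofSubtype_apply_of_mem g' (hX hx), hg']
    exact hg ⟨x, hX hx⟩ (Finset.mem_filter.2 ⟨Finset.mem_univ _, hx⟩)

theorem symu {α : Type*} [Fintype α] [DecidableEq α] (A B : Finset α)
    (h : (B \ A).card ≤ (A ∩ B).card) :
    (SymOn (A ∪ B) : Set (Perm α)) ⊆ SymOn A * SymOn B * SymOn A := by
  intro σ hσ
  have hσ' : ∀ i, i ∉ A ∪ B → σ i = i := hσ
  obtain ⟨X, hX⟩ : ∃ X, X = A.filter fun x => σ x ∈ B \ A := ⟨_, rfl⟩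
  have hXm : ∀ x, x ∈ X ↔ x ∈ A ∧ σ x ∈ B \ A := fun x => by rw [hX, Finset.mem_filter]
  have hcX : X.card ≤ (A ∩ B).card := by
    refine le_trans ?_ h
    exact Finset.card_le_card_of_injOn σ (fun x hx => ((hXm x).1 hx).2) σ.injective.injOn
  obtain ⟨Y, hYs, hYc⟩ := Finset.exists_subset_card_eq hcX
  obtain ⟨e, -⟩ : ∃ e : {x // x ∈ X} ≃ {x // x ∈ Y}, True := ⟨Finset.equivOfCardEq hYc.symm, trivial⟩
  obtain ⟨f1, hf1⟩ : ∃ f1 : α → α, ∀ x (hx : x ∈ X), f1 x = (e ⟨x, hx⟩).1 := by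
    refine ⟨fun x => if hx : x ∈ X then (e ⟨x, hx⟩).1 else x, fun x hx => ?_⟩
    simp only [hx, dite_true]
  have hf1Y : ∀ x ∈ X, f1 x ∈ A ∩ B := fun x hx => by
    rw [hf1 x hx]
    exact hYs (e ⟨x, hx⟩).2
  obtain ⟨ρ3, hρ3, hρ3x⟩ := SymU_ext A X (fun x hx => ((hXm x).1 hx).1) f1
    (fun x hx => (Finset.mem_inter.1 (hf1Y x hx)).1) (by
      intro x hx y hy hxy
      rw [hf1 x hx, hf1 y hy] at hxy
      have h1 := e.injective (Subtype.ext hxy)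
      exact congrArg Subtype.val h1)
  have hρ3' : ∀ i, i ∉ A → ρ3 i = i := hρ3
  obtain ⟨W, hW⟩ : ∃ W, W = univ.filter fun w => σ (ρ3⁻¹ w) ∈ B \ A := ⟨_, rfl⟩
  have hWm : ∀ w, w ∈ W ↔ σ (ρ3⁻¹ w) ∈ B \ A := fun w => by
    rw [hW, Finset.mem_filter]
    exact and_iff_right (Finset.mem_univ w)
  have hWB : W ⊆ B := by
    intro w hw
    have h1 := (hWm w).1 hw
    obtain ⟨x, hx⟩ : ∃ x, x = ρ3⁻¹ w := ⟨_, rfl⟩
    have hx' : w = ρ3 x := by rw [hx]; simp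
    rw [← hx] at h1
    rw [hx']
    by_cases hxA : x ∈ A
    · have h2 : x ∈ X := (hXm x).2 ⟨hxA, h1⟩
      rw [hρ3x x h2]
      exact (Finset.mem_inter.1 (hf1Y x h2)).2
    · rw [hρ3' x hxA]
      by_contra hxB
      have h3 := hσ' x (by
        rw [Finset.mem_union]
        tauto)
      rw [h3] at h1
      exact hxB (Finset.mem_sdiff.1 h1).1
  obtain ⟨ρ2, hρ2, hρ2w⟩ := SymU_ext B W hWB (fun w => σ (ρ3⁻¹ w))
    (fun w hw => (Finset.mem_sdiff.1 ((hWm w).1 hw)).1) (fun x _ y _ hxy => by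
      exact (ρ3⁻¹).injective (σ.injective hxy))
  have hρ2' : ∀ i, i ∉ B → ρ2 i = i := hρ2
  have key : ∀ x, σ x ∈ B \ A → ρ2 (ρ3 x) = σ x := by
    intro x hx
    have h1 : ρ3 x ∈ W := by
      rw [hWm]
      simpa using hx
    rw [hρ2w _ h1]
    simp
  have hτ : σ * (ρ2 * ρ3)⁻¹ ∈ (SymOn A : Set (Perm α)) := by
    intro i hi
    rw [Equiv.Perm.mul_apply]
    by_cases hiB : i ∈ B
    · have h1 : σ (σ⁻¹ i) = i := by simp
      have h2 := key (σ⁻¹ i) (by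
        rw [h1, Finset.mem_sdiff]
        exact ⟨hiB, hi⟩)
      have h3 : (ρ2 * ρ3)⁻¹ i = σ⁻¹ i := by
        rw [Equiv.Perm.inv_eq_iff_eq, Equiv.Perm.mul_apply, h2, h1]
      rw [h3, h1]
    · have h3 : (ρ2 * ρ3)⁻¹ i = i := by
        rw [Equiv.Perm.inv_eq_iff_eq, Equiv.Perm.mul_apply, hρ3' i hi, hρ2' i hiB]
      rw [h3]
      exact hσ' i (by
        rw [Finset.mem_union]
        tauto)
  have e1 : σ = σ * (ρ2 * ρ3)⁻¹ * ρ2 * ρ3 := by
    group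
  rw [e1]
  exact Set.mul_mem_mul (Set.mul_mem_mul hτ hρ2) hρ3

end Pool.Agent.helper4.UP
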