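import Pool.Agent.helper4.UP.Defs

/-!
# UP-TFa: the number of permutations nearly commuting with g

PROOF.  For t with D (g * t) (t * g) ≤ k let E = {i ∈ I : g (t i) ≠ t (g i)}, card E ≤ k.  For a fixed E ⊆ I with card E ≤ k let C_E be the set
of t with g (t i) = t (g i) for all i ∈ I \ E, and J = g (I \ E), card J ≥ card I - k, J disjoint from I.  The map
C_E × SymOn J → Perm, (t, π) ↦ t * π is injective: t π = t' π' implies t = t' outside J, in particular on I, so for j = g i ∈ J
t j = g (t i) = g (t' i) = t' j.  So (C_E).ncard * (card J)! ≤ n!, and card I - k ≤ card J.  Sum over the at most 2^n sets E.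
-/

set_option autoImplicit false

open Finset Filter Topology
open Equiv (Perm)
open scoped Pointwise

namespace Pool.Agent.helper4.UP

theorem TFa_fix {n : ℕ} (g : Perm (Fin n)) (A J : Finset (Fin n)) (hJ : J = A.image g) (hAJ : ∀ i ∈ A, i ∉ J) :
    (univ.filter fun t : Perm (Fin n) => ∀ i ∈ A, g (t i) = t (g i)).card * Nat.factorial A.card ≤ Nat.factorial n := by
  classical
  set C := univ.filter fun t : Perm (Fin n) => ∀ i ∈ A, g (t i) = t (g i) with hC
  have hJc : J.card = A.card := by rw [hJ, card_image_of_injective _ g.injective]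
  have hinj : Function.Injective (fun x : C × Perm J => (x.1 : Perm (Fin n)) * Equiv.Perm.ofSubtype x.2) := by
    rintro ⟨⟨t, ht⟩, π⟩ ⟨⟨t', ht'⟩, π'⟩ h
    simp only at h
    rw [hC, mem_filter] at ht ht'
    have hout : ∀ x, x ∉ J → t x = t' x := by
      intro x hx
      have h1 := congrArg (fun u : Perm (Fin n) => u x) h
      simp only [Equiv.Perm.mul_apply] at h1
      rw [Equiv.Perm.ofSubtype_apply_of_not_mem π hx, Equiv.Perm.ofSubtype_apply_of_not_mem π' hx] at h1
      exact h1
    have htt : t = t' := by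
      refine Equiv.ext fun x => ?_
      by_cases hx : x ∈ J
      · rw [hJ, mem_image] at hx
        obtain ⟨i, hi, rfl⟩ := hx
        rw [← ht.2 i hi, ← ht'.2 i hi, hout i (hAJ i hi)]
      · exact hout x hx
    subst htt
    have h2 : Equiv.Perm.ofSubtype π = Equiv.Perm.ofSubtype π' := mul_left_cancel h
    have h3 : π = π' := Equiv.Perm.ofSubtype_injective h2
    subst h3
    rfl
  have hcard := Fintype.card_le_of_injective _ hinj
  rw [Fintype.card_prod, Fintype.card_perm, Fintype.card_perm, Fintype.card_coe, Fintype.card_coe, Fintype.card_fin, hJc] at hcard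
  exact hcard

theorem count_comm {n : ℕ} (g : Perm (Fin n)) (k : ℕ) (I : Finset (Fin n)) (hI : ∀ i ∈ I, g i ∉ I) :
    ({t | D (g * t) (t * g) ≤ k} : Set (Perm (Fin n))).ncard * Nat.factorial (I.card - k) ≤
      2 ^ n * Nat.factorial n := by
  classical
  set T := univ.filter fun t : Perm (Fin n) => D (g * t) (t * g) ≤ k with hT
  have hTn : ({t | D (g * t) (t * g) ≤ k} : Set (Perm (Fin n))).ncard = T.card := by
    rw [← Set.ncard_coe_finset]
    congr 1
    ext t
    simp [hT]
  rw [hTn]
  set P := I.powerset.filter fun E => E.card ≤ k with hP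
  have hsub : T ⊆ P.biUnion fun E => univ.filter fun t : Perm (Fin n) => ∀ i ∈ I \ E, g (t i) = t (g i) := by
    intro t ht
    rw [hT, mem_filter] at ht
    rw [mem_biUnion]
    refine ⟨I.filter fun i => g (t i) ≠ t (g i), ?_, ?_⟩
    · rw [hP, mem_filter, mem_powerset]
      refine ⟨filter_subset _ _, le_trans (card_le_card ?_) ht.2⟩
      intro i hi
      rw [mem_filter] at hi
      rw [mem_filter]
      exact ⟨mem_univ _, hi.2⟩
    · rw [mem_filter]
      refine ⟨mem_univ _, fun i hi => ?_⟩
      rw [Finset.mem_sdiff, mem_filter] at hi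
      by_contra hcon
      exact hi.2 ⟨hi.1, hcon⟩
  have h1 : T.card ≤ ∑ E ∈ P, (univ.filter fun t : Perm (Fin n) => ∀ i ∈ I \ E, g (t i) = t (g i)).card :=
    (card_le_card hsub).trans card_biUnion_le
  have h2 : ∀ E ∈ P, (univ.filter fun t : Perm (Fin n) => ∀ i ∈ I \ E, g (t i) = t (g i)).card * Nat.factorial (I.card - k)
      ≤ Nat.factorial n := by
    intro E hE
    rw [hP, mem_filter, mem_powerset] at hE
    have hle : I.card - k ≤ (I \ E).card := by
      rw [card_sdiff_of_subset hE.1]
      have := hE.2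
      omega
    refine le_trans (Nat.mul_le_mul_left _ (Nat.factorial_le hle)) (TFa_fix g (I \ E) ((I \ E).image g) rfl ?_)
    intro i hi hcon
    rw [mem_image] at hcon
    obtain ⟨a, ha, rfl⟩ := hcon
    exact hI a (Finset.mem_sdiff.1 ha).1 (Finset.mem_sdiff.1 hi).1
  have h3 : P.card ≤ 2 ^ n := by
    refine (card_filter_le _ _).trans ?_
    rw [card_powerset]
    refine Nat.pow_le_pow_right (by norm_num) ?_
    simpa using card_le_univ I
  calc T.card * Nat.factorial (I.card - k)
      ≤ (∑ E ∈ P, (univ.filter fun t : Perm (Fin n) => ∀ i ∈ I \ E, g (t i) = t (g i)).card) * Nat.factorial (I.card - k) :=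
        Nat.mul_le_mul_right _ h1
    _ = ∑ E ∈ P, (univ.filter fun t : Perm (Fin n) => ∀ i ∈ I \ E, g (t i) = t (g i)).card * Nat.factorial (I.card - k) := by
        rw [sum_mul]
    _ ≤ ∑ _E ∈ P, Nat.factorial n := sum_le_sum h2
    _ = P.card * Nat.factorial n := by rw [sum_const, smul_eq_mul]
    _ ≤ 2 ^ n * Nat.factorial n := Nat.mul_le_mul_right _ h3

end Pool.Agent.helper4.UP
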