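import Pool.Agent.helper4.UP.TFa
import Pool.Agent.helper4.UP.Cent

/-!
# UP-TFb: test families

PROOF.  ε ≤ 1 without loss.  R = ⌈8/ε⌉, r = 2 R, δ = ε/12, m = ⌊ε n/4⌋ ≥ 1, n ≤ R m for large n.  Suppose that for every t : Fin r → Perm (Fin n)
there is g with D g 1 > ε n and D (g * t i) (t i * g) ≤ δ n for all i.  Counting the pairs (t, g):
(n!)^r ≤ ∑_g (#{t : D (g t) (t g) ≤ δ n})^r, and ind_set (card I ≥ ε n/3) with count_comm (k = ⌊δ n⌋, card I - k ≥ m):
# ≤ 2^n n! / m!, so (m!)^r ≤ n! 2^(n r) ≤ (R m)^(R m) 2^(2 R R m).  But m! ≥ (m/3)^m gives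
(m!)^r ≥ ((m/3)^2)^(R m) > (R m 4^R)^(R m) as soon as m > 9 R 4^R: contradiction.
-/

set_option autoImplicit false

open Finset Filter Topology
open Equiv (Perm)
open scoped Pointwise

namespace Pool.Agent.helper4.UP

theorem TFb_fact (m : ℕ) : m ^ m ≤ 3 ^ m * Nat.factorial m := by
  have h := Real.pow_div_factorial_le_exp (m : ℝ) (by positivity) m
  have h1 : Real.exp m ≤ 3 ^ m := by
    have h2 : Real.exp 1 ≤ 3 := Real.exp_one_lt_d9.le.trans (by norm_num)
    calc Real.exp m = Real.exp 1 ^ m := by rw [← Real.exp_nat_mul, mul_one]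
      _ ≤ 3 ^ m := by gcongr
  have hf : (0 : ℝ) < Nat.factorial m := by exact_mod_cast Nat.factorial_pos m
  rw [div_le_iff₀ hf] at h
  have h3 : (m : ℝ) ^ m ≤ 3 ^ m * (Nat.factorial m : ℝ) := h.trans (by gcongr)
  exact_mod_cast h3

theorem TFb_arith (R m n : ℕ) (hR : 0 < R) (hm : 9 * R * 4 ^ R < m) (hn : n ≤ R * m)
    (h : Nat.factorial m ^ (2 * R) ≤ Nat.factorial n * 2 ^ (n * (2 * R))) : False := by
  have h1 : m ^ (m * (2 * R)) ≤ 3 ^ (m * (2 * R)) * (Nat.factorial n * 2 ^ (n * (2 * R))) := by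
    calc m ^ (m * (2 * R)) = (m ^ m) ^ (2 * R) := by rw [pow_mul]
      _ ≤ (3 ^ m * Nat.factorial m) ^ (2 * R) := Nat.pow_le_pow_left (TFb_fact m) _
      _ = 3 ^ (m * (2 * R)) * Nat.factorial m ^ (2 * R) := by rw [mul_pow, ← pow_mul]
      _ ≤ _ := Nat.mul_le_mul_left _ h
  have h2 : Nat.factorial n ≤ (R * m) ^ (R * m) := (Nat.factorial_le hn).trans (Nat.factorial_le_pow _)
  have h3 : 2 ^ (n * (2 * R)) ≤ (4 ^ R) ^ (R * m) := by
    calc 2 ^ (n * (2 * R)) ≤ 2 ^ (R * m * (2 * R)) := Nat.pow_le_pow_right (by norm_num) (Nat.mul_le_mul_right _ hn)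
      _ = (4 ^ R) ^ (R * m) := by
          rw [show (4 : ℕ) = 2 ^ 2 by norm_num, ← pow_mul, ← pow_mul]
          congr 1
          ring
  have h4 : (m ^ 2) ^ (R * m) ≤ (9 * R * 4 ^ R * m) ^ (R * m) := by
    calc (m ^ 2) ^ (R * m) = m ^ (m * (2 * R)) := by
          rw [← pow_mul]
          congr 1
          ring
      _ ≤ 3 ^ (m * (2 * R)) * (Nat.factorial n * 2 ^ (n * (2 * R))) := h1
      _ ≤ 3 ^ (m * (2 * R)) * ((R * m) ^ (R * m) * (4 ^ R) ^ (R * m)) :=
          Nat.mul_le_mul_left _ (Nat.mul_le_mul h2 h3)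
      _ = 9 ^ (R * m) * ((R * m) ^ (R * m) * (4 ^ R) ^ (R * m)) := by
          congr 1
          rw [show (9 : ℕ) = 3 ^ 2 by norm_num, ← pow_mul]
          congr 1
          ring
      _ = (9 * R * 4 ^ R * m) ^ (R * m) := by
          rw [← mul_pow, ← mul_pow]
          congr 1
          ring
  have hm0 : 0 < m := by omega
  have h5 : m ^ 2 ≤ 9 * R * 4 ^ R * m := (Nat.pow_le_pow_iff_left (by positivity)).mp h4
  have h6 : m ≤ 9 * R * 4 ^ R := by
    rw [pow_two] at h5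
    exact Nat.le_of_mul_le_mul_right h5 hm0
  omega

theorem TFb_count {n r m : ℕ} {ε : ℝ} (hε : 0 < ε)
    (hm : m = ⌊ε * n / 4⌋₊)
    (h : ∀ t : Fin r → Perm (Fin n), ∃ g : Perm (Fin n),
      (∀ i, (D (g * t i) (t i * g) : ℝ) ≤ ε / 12 * n) ∧ ε * n < (D g 1 : ℝ)) :
    Nat.factorial m ^ r ≤ Nat.factorial n * 2 ^ (n * r) := by
  classical
  obtain ⟨k, hk⟩ : ∃ k : ℕ, k = ⌊ε / 12 * n⌋₊ := ⟨_, rfl⟩
  have hk1 : (k : ℝ) ≤ ε / 12 * n := by
    rw [hk]
    exact Nat.floor_le (by positivity)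
  have hm1 : (m : ℝ) ≤ ε * n / 4 := by
    rw [hm]
    exact Nat.floor_le (by positivity)
  let B : Perm (Fin n) → Finset (Perm (Fin n)) := fun g => univ.filter (fun s => D (g * s) (s * g) ≤ k)
  let Z : Finset (Perm (Fin n)) := univ.filter (fun g => ε * n < (D g 1 : ℝ))
  have hsub : (univ : Finset (Fin r → Perm (Fin n))) ⊆ Z.biUnion (fun g => Fintype.piFinset (fun _ => B g)) := by
    intro t _
    obtain ⟨g, hg, hg'⟩ := h t
    rw [mem_biUnion]
    refine ⟨g, mem_filter.mpr ⟨mem_univ _, hg'⟩, ?_⟩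
    rw [Fintype.mem_piFinset]
    intro i
    refine mem_filter.mpr ⟨mem_univ _, ?_⟩
    rw [hk]
    exact Nat.le_floor (hg i)
  have hcard : Nat.factorial n ^ r ≤ ∑ g ∈ Z, (B g).card ^ r := by
    calc Nat.factorial n ^ r = (univ : Finset (Fin r → Perm (Fin n))).card := by
          rw [card_univ, Fintype.card_fun, Fintype.card_perm, Fintype.card_fin, Fintype.card_fin]
      _ ≤ (Z.biUnion (fun g => Fintype.piFinset (fun _ : Fin r => B g))).card := card_le_card hsub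
      _ ≤ ∑ g ∈ Z, (Fintype.piFinset (fun _ : Fin r => B g)).card := card_biUnion_le
      _ = ∑ g ∈ Z, (B g).card ^ r := by
          refine sum_congr rfl (fun g _ => ?_)
          rw [Fintype.card_piFinset_const]
  have hB : ∀ g ∈ Z, (B g).card * Nat.factorial m ≤ 2 ^ n * Nat.factorial n := by
    intro g hg
    have hg1 : ε * n < (D g 1 : ℝ) := (mem_filter.mp hg).2
    obtain ⟨I, hI1, hI2⟩ := ind_set g
    have hI1' : (D g 1 : ℝ) ≤ 3 * I.card := by exact_mod_cast hI1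
    have h1 : (m : ℝ) + k ≤ I.card := by linarith
    have h2 : m + k ≤ I.card := by exact_mod_cast h1
    have h3 := count_comm g k I hI2
    have h4 : ({t | D (g * t) (t * g) ≤ k} : Set (Perm (Fin n))).ncard = (B g).card := by
      rw [← Set.ncard_coe_finset]
      congr 1
      ext s
      simp [B]
    rw [h4] at h3
    refine le_trans ?_ h3
    exact Nat.mul_le_mul_left _ (Nat.factorial_le (by omega))
  have hfin : Nat.factorial n ^ r * Nat.factorial m ^ r ≤ Nat.factorial n * (2 ^ n * Nat.factorial n) ^ r := by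
    calc Nat.factorial n ^ r * Nat.factorial m ^ r ≤ (∑ g ∈ Z, (B g).card ^ r) * Nat.factorial m ^ r :=
          Nat.mul_le_mul_right _ hcard
      _ = ∑ g ∈ Z, ((B g).card * Nat.factorial m) ^ r := by
          rw [sum_mul]
          refine sum_congr rfl (fun g _ => ?_)
          rw [mul_pow]
      _ ≤ ∑ g ∈ Z, (2 ^ n * Nat.factorial n) ^ r :=
          sum_le_sum (fun g hg => Nat.pow_le_pow_left (hB g hg) _)
      _ = Z.card * (2 ^ n * Nat.factorial n) ^ r := by rw [sum_const, smul_eq_mul]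
      _ ≤ Nat.factorial n * (2 ^ n * Nat.factorial n) ^ r := by
          refine Nat.mul_le_mul_right _ ?_
          refine (card_le_univ _).trans ?_
          rw [Fintype.card_perm, Fintype.card_fin]
  have hpos : 0 < Nat.factorial n ^ r := by positivity
  refine Nat.le_of_mul_le_mul_left ?_ hpos
  refine hfin.trans (le_of_eq ?_)
  rw [mul_pow, ← pow_mul]
  ring

theorem test_fin (ε : ℝ) (hε : 0 < ε) : ∃ (r : ℕ) (δ : ℝ), 0 < δ ∧ ∃ n0 : ℕ, ∀ n : ℕ, n0 ≤ n →
    ∃ t : Fin r → Perm (Fin n), ∀ g : Perm (Fin n),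
      (∀ i, (D (g * t i) (t i * g) : ℝ) ≤ δ * n) → (D g 1 : ℝ) ≤ ε * n := by
  obtain ⟨R, hR⟩ : ∃ R : ℕ, R = ⌈8 / ε⌉₊ := ⟨_, rfl⟩
  have hR1 : 8 / ε ≤ R := by
    rw [hR]
    exact Nat.le_ceil _
  have hR0 : 0 < R := by
    rw [hR]
    exact Nat.ceil_pos.mpr (by positivity)
  refine ⟨2 * R, ε / 12, by positivity, ⌈8 / ε * (9 * R * 4 ^ R + 1)⌉₊, fun n hn => ?_⟩
  by_contra hcon
  push Not at hcon
  obtain ⟨m, hm⟩ : ∃ m : ℕ, m = ⌊ε * n / 4⌋₊ := ⟨_, rfl⟩
  have h1 := TFb_count (r := 2 * R) hε hm hcon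
  have hn1 : 8 / ε * (9 * R * 4 ^ R + 1) ≤ n := by
    refine (Nat.le_ceil _).trans ?_
    exact_mod_cast hn
  have hq : (9 * R * 4 ^ R + 1 : ℝ) ≤ ε * n / 8 := by
    rw [div_mul_eq_mul_div, div_le_iff₀ hε] at hn1
    linarith
  have hm2 : ε * n / 4 < m + 1 := by
    rw [hm]
    exact Nat.lt_floor_add_one _
  have h9 : (0 : ℝ) < 9 * R * 4 ^ R := by
    have : (0 : ℝ) < R := by exact_mod_cast hR0
    positivity
  have hm3 : ε * n / 8 < m := by linarith
  have hm4 : 9 * R * 4 ^ R < m := by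
    have : (9 * R * 4 ^ R : ℝ) < m := by linarith
    exact_mod_cast this
  have hnRm : n ≤ R * m := by
    have h2 : (n : ℝ) ≤ R * m := by
      calc (n : ℝ) = 8 / ε * (ε * n / 8) := by field_simp
        _ ≤ R * m := by
          have : (0 : ℝ) ≤ 8 / ε := by positivity
          gcongr
    exact_mod_cast h2
  exact TFb_arith R m n hR0 hm4 hnRm h1

end Pool.Agent.helper4.UP
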